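import Pool.Agent.LibTR43.Defs

/-!
[TR43 A1] Codes. `dec c` is `vec 4 [c % 3, c / 3 % 3, c / 9 % 3, c / 27 % 3]` (`vec` in `H67Tern/ColMat.lean`), coordinate `j` is the cast of
`c / 3 ^ j % 3`. `dec_ngc`: `2 d % 3` is cast to `2 d = - d`; the digits of `ngc c` are `2 d_j % 3` (`omega` after `set`-ting the digits; or reduce
to `c < 81`: `dec c = dec (c % 81)`, `ngc` likewise, and `decide`).
`dec_img`: `img (pk h₀) .. (pk h₃) c = upk X`, `X = ∑ i, c_i pk(h_i) = a_0 + 32 a_1 + 1024 a_2 + 32768 a_3` with `a_j = ∑ i, c_i (h_i)_j ≤ 16` (all digits `≤ 2`), so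
the base `32` digits of `X` are the `a_j` (`omega`), `upk X` has the digits `a_j % 3` (each `< 3`), cast: `∑ i, c_i (h_i)_j`.
`dec_surj`: every vector is `dec c` with `c < 81` (`decide` over the 81 vectors, or the explicit code). `exists_pt`: one of the two codes is in `pts`.
-/

set_option autoImplicit false

namespace Pool.Agent.LibTR43

open Pool.Agent.H67Tern

private theorem dec_apply (c : ℕ) : dec c 0 = ((c % 3 : ℕ) : ZMod 3) ∧ dec c 1 = ((c / 3 % 3 : ℕ) : ZMod 3) ∧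
    dec c 2 = ((c / 9 % 3 : ℕ) : ZMod 3) ∧ dec c 3 = ((c / 27 % 3 : ℕ) : ZMod 3) :=
  ⟨rfl, rfl, rfl, rfl⟩

/-- the digits of a number given by four digits -/
private theorem digs {a b c d x : ℕ} (ha : a < 3) (hb : b < 3) (hc : c < 3) (hd : d < 3)
    (hx : x = a + (3 * b + (9 * c + 27 * d))) :
    x % 3 = a ∧ x / 3 % 3 = b ∧ x / 9 % 3 = c ∧ x / 27 % 3 = d := by
  omega

private theorem dec_digs {a b c d x : ℕ} (ha : a < 3) (hb : b < 3) (hc : c < 3) (hd : d < 3)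
    (hx : x = a + (3 * b + (9 * c + 27 * d))) :
    dec x 0 = (a : ZMod 3) ∧ dec x 1 = (b : ZMod 3) ∧ dec x 2 = (c : ZMod 3) ∧ dec x 3 = (d : ZMod 3) := by
  obtain ⟨h0, h1, h2, h3⟩ := digs ha hb hc hd hx
  obtain ⟨g0, g1, g2, g3⟩ := dec_apply x
  rw [g0, g1, g2, g3, h0, h1, h2, h3]
  exact ⟨rfl, rfl, rfl, rfl⟩

private theorem cast2 (d : ℕ) : ((2 * d % 3 : ℕ) : ZMod 3) = -((d : ℕ) : ZMod 3) := by
  rw [ZMod.natCast_mod]
  push_cast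
  have h3 : (3 : ZMod 3) = 0 := by decide
  linear_combination ((d : ℕ) : ZMod 3) * h3

private theorem ext4 {v w : V4} (h0 : v 0 = w 0) (h1 : v 1 = w 1) (h2 : v 2 = w 2) (h3 : v 3 = w 3) : v = w := by
  funext i
  fin_cases i
  · exact h0
  · exact h1
  · exact h2
  · exact h3

theorem dec_ngc (c : ℕ) : dec (ngc c) = -dec c := by
  have m3 : ∀ y : ℕ, y % 3 < 3 := fun y => Nat.mod_lt _ (by norm_num)
  obtain ⟨h0, h1, h2, h3⟩ := dec_digs (x := ngc c) (m3 (2 * (c % 3))) (m3 (2 * (c / 3 % 3)))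
    (m3 (2 * (c / 9 % 3))) (m3 (2 * (c / 27 % 3))) rfl
  obtain ⟨g0, g1, g2, g3⟩ := dec_apply c
  refine ext4 ?_ ?_ ?_ ?_
  · rw [h0, Pi.neg_apply, g0, cast2]
  · rw [h1, Pi.neg_apply, g1, cast2]
  · rw [h2, Pi.neg_apply, g2, cast2]
  · rw [h3, Pi.neg_apply, g3, cast2]

/-- the linear map with the columns `dec h_i` -/
noncomputable def lm (h₀ h₁ h₂ h₃ : ℕ) : V4 →ₗ[ZMod 3] V4 :=
  (LinearMap.proj (R := ZMod 3) (φ := fun _ : Fin 4 => ZMod 3) 0).smulRight (dec h₀) +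
  (LinearMap.proj (R := ZMod 3) (φ := fun _ : Fin 4 => ZMod 3) 1).smulRight (dec h₁) +
  (LinearMap.proj (R := ZMod 3) (φ := fun _ : Fin 4 => ZMod 3) 2).smulRight (dec h₂) +
  (LinearMap.proj (R := ZMod 3) (φ := fun _ : Fin 4 => ZMod 3) 3).smulRight (dec h₃)

private theorem lm_apply (h₀ h₁ h₂ h₃ : ℕ) (v : V4) (j : Fin 4) :
    lm h₀ h₁ h₂ h₃ v j = v 0 * dec h₀ j + v 1 * dec h₁ j + v 2 * dec h₂ j + v 3 * dec h₃ j := rfl

/-- the four digits of a packed sum -/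
private theorem pack {a b c d X : ℕ} (ha : a < 32) (hb : b < 32) (hc : c < 32) (hd : d < 32)
    (hX : X = a + (32 * b + (1024 * c + 32768 * d))) :
    X % 32 = a ∧ X / 32 % 32 = b ∧ X / 1024 % 32 = c ∧ X / 32768 % 32 = d := by
  omega

private theorem le16 {c0 c1 c2 c3 a b c d : ℕ} (h0 : c0 ≤ 2) (h1 : c1 ≤ 2) (h2 : c2 ≤ 2) (h3 : c3 ≤ 2)
    (ha : a ≤ 2) (hb : b ≤ 2) (hc : c ≤ 2) (hd : d ≤ 2) : c0 * a + c1 * b + c2 * c + c3 * d < 32 := by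
  have e0 := Nat.mul_le_mul h0 ha
  have e1 := Nat.mul_le_mul h1 hb
  have e2 := Nat.mul_le_mul h2 hc
  have e3 := Nat.mul_le_mul h3 hd
  omega

theorem dec_img (h₀ h₁ h₂ h₃ c : ℕ) :
    dec (img (pk h₀) (pk h₁) (pk h₂) (pk h₃) c) = lm h₀ h₁ h₂ h₃ (dec c) := by
  have m3 : ∀ y : ℕ, y % 3 < 3 := fun y => Nat.mod_lt _ (by norm_num)
  have m2 : ∀ y : ℕ, y % 3 ≤ 2 := fun y => Nat.le_of_lt_succ (Nat.mod_lt _ (by norm_num))
  set X : ℕ := c % 3 * pk h₀ + (c / 3 % 3 * pk h₁ + (c / 9 % 3 * pk h₂ + c / 27 % 3 * pk h₃)) with hX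
  have himg : img (pk h₀) (pk h₁) (pk h₂) (pk h₃) c = upk X := by
    unfold img
    rw [force_eq]
    rfl
  have hpk : ∀ h : ℕ, pk h = h % 3 + (32 * (h / 3 % 3) + (1024 * (h / 9 % 3) + 32768 * (h / 27 % 3))) :=
    fun _ => rfl
  have hX2 : X = (c % 3 * (h₀ % 3) + c / 3 % 3 * (h₁ % 3) + c / 9 % 3 * (h₂ % 3) + c / 27 % 3 * (h₃ % 3)) +
      (32 * (c % 3 * (h₀ / 3 % 3) + c / 3 % 3 * (h₁ / 3 % 3) + c / 9 % 3 * (h₂ / 3 % 3) +
        c / 27 % 3 * (h₃ / 3 % 3)) +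
      (1024 * (c % 3 * (h₀ / 9 % 3) + c / 3 % 3 * (h₁ / 9 % 3) + c / 9 % 3 * (h₂ / 9 % 3) +
        c / 27 % 3 * (h₃ / 9 % 3)) +
      32768 * (c % 3 * (h₀ / 27 % 3) + c / 3 % 3 * (h₁ / 27 % 3) + c / 9 % 3 * (h₂ / 27 % 3) +
        c / 27 % 3 * (h₃ / 27 % 3)))) := by
    rw [hX, hpk, hpk, hpk, hpk]
    ring
  obtain ⟨p0, p1, p2, p3⟩ := pack
    (le16 (m2 c) (m2 (c / 3)) (m2 (c / 9)) (m2 (c / 27)) (m2 h₀) (m2 h₁) (m2 h₂) (m2 h₃))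
    (le16 (m2 c) (m2 (c / 3)) (m2 (c / 9)) (m2 (c / 27)) (m2 (h₀ / 3)) (m2 (h₁ / 3)) (m2 (h₂ / 3)) (m2 (h₃ / 3)))
    (le16 (m2 c) (m2 (c / 3)) (m2 (c / 9)) (m2 (c / 27)) (m2 (h₀ / 9)) (m2 (h₁ / 9)) (m2 (h₂ / 9)) (m2 (h₃ / 9)))
    (le16 (m2 c) (m2 (c / 3)) (m2 (c / 9)) (m2 (c / 27)) (m2 (h₀ / 27)) (m2 (h₁ / 27)) (m2 (h₂ / 27))
      (m2 (h₃ / 27))) hX2
  have hup : upk X = X % 32 % 3 + (3 * (X / 32 % 32 % 3) + (9 * (X / 1024 % 32 % 3) +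
    27 * (X / 32768 % 32 % 3))) := rfl
  obtain ⟨q0, q1, q2, q3⟩ := dec_digs (x := upk X) (m3 (X % 32)) (m3 (X / 32 % 32)) (m3 (X / 1024 % 32))
    (m3 (X / 32768 % 32)) hup
  obtain ⟨g0, g1, g2, g3⟩ := dec_apply c
  obtain ⟨a0, a1, a2, a3⟩ := dec_apply h₀
  obtain ⟨b0, b1, b2, b3⟩ := dec_apply h₁
  obtain ⟨c0, c1, c2, c3⟩ := dec_apply h₂
  obtain ⟨d0, d1, d2, d3⟩ := dec_apply h₃
  rw [himg]
  refine ext4 ?_ ?_ ?_ ?_
  · rw [q0, lm_apply, p0, ZMod.natCast_mod, g0, g1, g2, g3, a0, b0, c0, d0]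
    push_cast
    ring
  · rw [q1, lm_apply, p1, ZMod.natCast_mod, g0, g1, g2, g3, a1, b1, c1, d1]
    push_cast
    ring
  · rw [q2, lm_apply, p2, ZMod.natCast_mod, g0, g1, g2, g3, a2, b2, c2, d2]
    push_cast
    ring
  · rw [q3, lm_apply, p3, ZMod.natCast_mod, g0, g1, g2, g3, a3, b3, c3, d3]
    push_cast
    ring

theorem dec_basis : dec 1 = Pi.single 0 1 ∧ dec 3 = Pi.single 1 1 ∧ dec 9 = Pi.single 2 1 ∧ dec 27 = Pi.single 3 1 := by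
  decide

private theorem cast_inj {a b : ℕ} (ha : a < 3) (hb : b < 3) (h : (a : ZMod 3) = (b : ZMod 3)) : a = b := by
  rw [ZMod.natCast_eq_natCast_iff'] at h
  rwa [Nat.mod_eq_of_lt ha, Nat.mod_eq_of_lt hb] at h

theorem dec_inj {a b : ℕ} (ha : a < 81) (hb : b < 81) (h : dec a = dec b) : a = b := by
  have m3 : ∀ y : ℕ, y % 3 < 3 := fun y => Nat.mod_lt _ (by norm_num)
  obtain ⟨a0, a1, a2, a3⟩ := dec_apply a
  obtain ⟨b0, b1, b2, b3⟩ := dec_apply b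
  rw [h] at a0 a1 a2 a3
  have e0 := cast_inj (m3 _) (m3 _) (a0.symm.trans b0)
  have e1 := cast_inj (m3 _) (m3 _) (a1.symm.trans b1)
  have e2 := cast_inj (m3 _) (m3 _) (a2.symm.trans b2)
  have e3 := cast_inj (m3 _) (m3 _) (a3.symm.trans b3)
  omega

theorem ngc_ngc {a : ℕ} (ha : a < 81) : ngc a < 81 ∧ ngc (ngc a) = a := by
  have h : ∀ a < 81, ngc a < 81 ∧ ngc (ngc a) = a := by decide
  exact h a ha

theorem dec_surj (v : V4) : ∃ c < 81, dec c = v := by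
  have b3 : ∀ j, (v j).val < 3 := fun j => ZMod.val_lt (v j)
  obtain ⟨h0, h1, h2, h3⟩ := dec_digs (x := (v 0).val + (3 * (v 1).val + (9 * (v 2).val + 27 * (v 3).val)))
    (b3 0) (b3 1) (b3 2) (b3 3) rfl
  refine ⟨(v 0).val + (3 * (v 1).val + (9 * (v 2).val + 27 * (v 3).val)), ?_, ?_⟩
  · have k0 := b3 0
    have k1 := b3 1
    have k2 := b3 2
    have k3 := b3 3
    omega
  · refine ext4 ?_ ?_ ?_ ?_
    · rw [h0, ZMod.natCast_zmod_val]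
    · rw [h1, ZMod.natCast_zmod_val]
    · rw [h2, ZMod.natCast_zmod_val]
    · rw [h3, ZMod.natCast_zmod_val]

/-- every nonzero vector is `± dec c` with `c ∈ pts` -/
theorem exists_pt (v : V4) (hv : v ≠ 0) : ∃ c ∈ pts, v = dec c ∨ v = -dec c := by
  obtain ⟨c, hc, rfl⟩ := dec_surj v
  have h : ∀ c < 81, c = 0 ∨ c ∈ pts ∨ ngc c ∈ pts := by decide
  rcases h c hc with h | h | h
  · exfalso
    apply hv
    subst h
    decide
  · exact ⟨c, h, Or.inl rfl⟩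
  · refine ⟨ngc c, h, Or.inr ?_⟩
    rw [dec_ngc, neg_neg]

end Pool.Agent.LibTR43
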