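import Pool.Agent.LibTR43.A1

/-!
[TR43 A2] Soundness of `chkE`, `chkR`, `chkL` (cites A1). `bit m c = m.testBit c` (`Nat.testBit_eq_decide_div_mod_eq` or similar, `Nat.beq_eq`), `force_eq`
(`H67Tern/Chk.lean`) removes `force`. `msk_bit`: induction on `R` (`Nat.testBit_lor`/`Nat.testBit_or`, `Nat.testBit_two_pow`).
`chkE_sound`: `e` must be a list of nine numbers; `h = lm h₀ .. h₃`; from the four equations `h (dec g_i) = dec (3 ^ i) = Pi.single i 1`, so `h` is
surjective, hence a linear equivalence (`LinearEquiv.ofBijective`, finite dimension: `LinearMap.injective_iff_surjective`); `tg[k]? = some L`, and `allIn`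
gives `bit m (img .. c)` for `c ∈ L`.
`chkR_sound`: induction on `ps` (the definition uses `List.rec`; `chkR m tg (p :: ps) es` unfolds by `rfl` / `show`).
`chkL_sound`: `ce.all`, then `chkR_sound` with `ps = pts`.
-/

set_option autoImplicit false

namespace Pool.Agent.LibTR43

open Pool.Agent.H67Tern

theorem bit_iff (m c : ℕ) : bit m c = true ↔ m.testBit c = true := by
  rw [Nat.testBit_eq_decide_div_mod_eq, decide_eq_true_iff]
  constructor
  · intro h
    exact Nat.eq_of_beq_eq_true h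
  · intro h
    have h' : Nat.mod (Nat.div m (Nat.pow 2 c)) 2 = 1 := h
    show Nat.beq (Nat.mod (Nat.div m (Nat.pow 2 c)) 2) 1 = true
    rw [h']
    rfl

private theorem A2_lor (x y c : ℕ) : bit (Nat.lor x y) c = true ↔ bit x c = true ∨ bit y c = true := by
  rw [bit_iff, bit_iff, bit_iff]
  have h : (Nat.lor x y).testBit c = (x.testBit c || y.testBit c) := Nat.testBit_or x y c
  rw [h, Bool.or_eq_true]

private theorem A2_pow (n c : ℕ) : bit (2 ^ n) c = true ↔ c = n := by
  rw [bit_iff, Nat.testBit_two_pow, decide_eq_true_iff]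
  exact eq_comm

theorem msk_bit (R : List ℕ) (c : ℕ) : bit (msk R) c = true ↔ ∃ a ∈ R, c = a ∨ c = ngc a := by
  induction R with
  | nil =>
    rw [bit_iff]
    constructor
    · intro h
      have h2 : (0 : ℕ).testBit c = true := h
      rw [Nat.zero_testBit] at h2
      exact absurd h2 (by decide)
    · rintro ⟨a, ha, -⟩
      exact absurd ha List.not_mem_nil
  | cons b R ih =>
    have h1 : msk (b :: R) = Nat.lor (2 ^ b) (Nat.lor (2 ^ ngc b) (msk R)) := rfl
    rw [h1, A2_lor, A2_lor, A2_pow, A2_pow, ih]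
    constructor
    · rintro (h | h | ⟨a, ha, h⟩)
      · exact ⟨b, List.mem_cons_self, Or.inl h⟩
      · exact ⟨b, List.mem_cons_self, Or.inr h⟩
      · exact ⟨a, List.mem_cons_of_mem _ ha, h⟩
    · rintro ⟨a, ha, h⟩
      rcases List.mem_cons.1 ha with rfl | ha
      · rcases h with h | h
        · exact Or.inl h
        · exact Or.inr (Or.inl h)
      · exact Or.inr (Or.inr ⟨a, ha, h⟩)

private theorem A2_all {m a₀ a₁ a₂ a₃ : ℕ} {L : List ℕ} (h : allIn m a₀ a₁ a₂ a₃ L = true) :
    ∀ c ∈ L, bit m (img a₀ a₁ a₂ a₃ c) = true := by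
  induction L with
  | nil =>
    intro c hc
    exact absurd hc List.not_mem_nil
  | cons b L ih =>
    have h1 : ((bit m (img a₀ a₁ a₂ a₃ b)) && allIn m a₀ a₁ a₂ a₃ L) = true := h
    rw [Bool.and_eq_true] at h1
    intro c hc
    rcases List.mem_cons.1 hc with rfl | hc
    · exact h1.1
    · exact ih h1.2 c hc

private theorem A2_surj {h₀ h₁ h₂ h₃ g₀ g₁ g₂ g₃ : ℕ}
    (h1 : Nat.beq (img (pk h₀) (pk h₁) (pk h₂) (pk h₃) g₀) 1 = true)
    (h2 : Nat.beq (img (pk h₀) (pk h₁) (pk h₂) (pk h₃) g₁) 3 = true)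
    (h3 : Nat.beq (img (pk h₀) (pk h₁) (pk h₂) (pk h₃) g₂) 9 = true)
    (h4 : Nat.beq (img (pk h₀) (pk h₁) (pk h₂) (pk h₃) g₃) 27 = true) :
    Function.Surjective (lm h₀ h₁ h₂ h₃) := by
  have e1 : lm h₀ h₁ h₂ h₃ (dec g₀) = Pi.single 0 1 := by
    rw [← dec_img, Nat.eq_of_beq_eq_true h1, dec_basis.1]
  have e2 : lm h₀ h₁ h₂ h₃ (dec g₁) = Pi.single 1 1 := by
    rw [← dec_img, Nat.eq_of_beq_eq_true h2, dec_basis.2.1]
  have e3 : lm h₀ h₁ h₂ h₃ (dec g₂) = Pi.single 2 1 := by
    rw [← dec_img, Nat.eq_of_beq_eq_true h3, dec_basis.2.2.1]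
  have e4 : lm h₀ h₁ h₂ h₃ (dec g₃) = Pi.single 3 1 := by
    rw [← dec_img, Nat.eq_of_beq_eq_true h4, dec_basis.2.2.2]
  intro v
  refine ⟨v 0 • dec g₀ + v 1 • dec g₁ + v 2 • dec g₂ + v 3 • dec g₃, ?_⟩
  rw [map_add, map_add, map_add, map_smul, map_smul, map_smul, map_smul, e1, e2, e3, e4]
  funext i
  fin_cases i <;> simp

/-- `P` holds for the vectors of all codes in the mask `m` -/
theorem chkE_sound {m : ℕ} {tg : List (List ℕ)} {e : List ℕ} (h : chkE m tg e = true) {S : Set V4}
    (hS : ∀ c, bit m c = true → dec c ∈ S) : ∃ L ∈ tg, Emb L S := by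
  unfold chkE at h
  split at h
  swap
  · exact absurd h (by decide)
  simp only [force_eq, Bool.and_eq_true] at h
  rename_i k h₀ h₁ h₂ h₃ g₀ g₁ g₂ g₃
  obtain ⟨h1, h2, h3, h4, h5⟩ := h
  have hsu := A2_surj h1 h2 h3 h4
  have hin : Function.Injective (lm h₀ h₁ h₂ h₃) := Finite.injective_iff_surjective.2 hsu
  cases hk : tg[k]? with
  | none =>
    rw [hk] at h5
    have h6 : false = true := h5
    exact absurd h6 (by decide)
  | some L =>
    rw [hk] at h5
    have h6 : allIn m (pk h₀) (pk h₁) (pk h₂) (pk h₃) L = true := h5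
    refine ⟨L, List.mem_of_getElem? hk, LinearEquiv.ofBijective (lm h₀ h₁ h₂ h₃) ⟨hin, hsu⟩, ?_⟩
    intro c hc
    have h7 := hS _ (A2_all h6 c hc)
    rw [dec_img] at h7
    exact h7

theorem chkR_sound {m : ℕ} {tg : List (List ℕ)} {ps : List ℕ} {es : List (List ℕ)} (h : chkR m tg ps es = true) {p : ℕ}
    (hp : p ∈ ps) (hm : bit m p = false) : ∃ e, chkE (Nat.lor m (Nat.lor (2 ^ p) (2 ^ ngc p))) tg e = true := by
  induction ps generalizing es with
  | nil => exact absurd hp List.not_mem_nil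
  | cons q ps ih =>
    have e1 : chkR m tg (q :: ps) es = (bif bit m q then chkR m tg ps es else
      List.rec (motive := fun _ => Bool) false
        (fun e es' _ => (force (Nat.lor m (Nat.lor (2 ^ q) (2 ^ ngc q))) fun m' => chkE m' tg e) &&
          chkR m tg ps es') es) := rfl
    rw [e1] at h
    cases hq : bit m q with
    | true =>
      rw [hq] at h
      have h2 : chkR m tg ps es = true := h
      rcases List.mem_cons.1 hp with rfl | hp
      · rw [hq] at hm
        exact absurd hm (by decide)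
      · exact ih h2 hp
    | false =>
      rw [hq] at h
      cases es with
      | nil =>
        have h2 : false = true := h
        exact absurd h2 (by decide)
      | cons e es' =>
        have h2 : ((force (Nat.lor m (Nat.lor (2 ^ q) (2 ^ ngc q))) fun m' => chkE m' tg e) &&
          chkR m tg ps es') = true := h
        rw [force_eq, Bool.and_eq_true] at h2
        rcases List.mem_cons.1 hp with rfl | hp
        · exact ⟨e, h2.1⟩
        · exact ih h2.2 hp

/-- every extension of a representative by a new point contains a copy of a member of `tg` -/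
theorem chkL_sound {tg : List (List ℕ)} {ce : List (List ℕ × List (List ℕ))} (h : chkL tg ce = true) {R : List ℕ}
    (hR : R ∈ ce.map Prod.fst) {w : V4} (hw0 : w ≠ 0) (hw : ∀ c ∈ R, w ≠ dec c ∧ w ≠ -dec c) {S : Set V4}
    (hS : ∀ c ∈ R, dec c ∈ S) (hSw : w ∈ S) (hneg : ∀ v ∈ S, -v ∈ S) : ∃ L ∈ tg, Emb L S := by
  obtain ⟨x, hx, rfl⟩ := List.mem_map.1 hR
  have h1 := List.all_eq_true.1 h x hx
  rw [force_eq] at h1
  obtain ⟨c, hc, hwc⟩ := exists_pt w hw0
  have h2 : bit (msk x.1) c = false := by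
    by_contra h3
    rw [Bool.not_eq_false] at h3
    obtain ⟨a, ha, h4⟩ := (msk_bit x.1 c).1 h3
    have h5 := hw a ha
    have h6 : dec c = dec a ∨ dec c = -dec a := by
      rcases h4 with h4 | h4
      · exact Or.inl (by rw [h4])
      · exact Or.inr (by rw [h4, dec_ngc])
    rcases hwc with h7 | h7 <;> rcases h6 with h8 | h8
    · exact h5.1 (h7.trans h8)
    · exact h5.2 (h7.trans h8)
    · exact h5.2 (by rw [h7, h8])
    · exact h5.1 (by rw [h7, h8, neg_neg])
  obtain ⟨e, he⟩ := chkR_sound h1 hc h2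
  have hdc : dec c ∈ S := by
    rcases hwc with h7 | h7
    · rw [← h7]
      exact hSw
    · have h8 := hneg w hSw
      rw [h7, neg_neg] at h8
      exact h8
  refine chkE_sound he ?_
  intro c' hc'
  rw [A2_lor, A2_lor, A2_pow, A2_pow] at hc'
  rcases hc' with h3 | h3 | h3
  · obtain ⟨a, ha, h4⟩ := (msk_bit x.1 c').1 h3
    rcases h4 with h4 | h4
    · rw [h4]
      exact hS a ha
    · rw [h4, dec_ngc]
      exact hneg _ (hS a ha)
  · rw [h3]
    exact hdc
  · rw [h3, dec_ngc]
    exact hneg _ hdc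

end Pool.Agent.LibTR43
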