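import Pool.Agent.LibTR43.A2

/-!
[TR43 A3] The steps of the enumeration (cites A2 `chkL_sound`).
-/

set_option autoImplicit false

namespace Pool.Agent.LibTR43

open Pool.Agent.H67Tern

private theorem A3_basis {T : Set V4} (hs : Submodule.span (ZMod 3) T = ⊤) :
    ∃ g : V4 ≃ₗ[ZMod 3] V4, ∀ i : Fin 4, g (Pi.single i 1) ∈ T := by
  classical
  have : Fact (Nat.Prime 3) := ⟨Nat.prime_three⟩
  obtain ⟨b, hbT, hbs, hbi⟩ := exists_linearIndependent (ZMod 3) T
  have hspan : ⊤ ≤ Submodule.span (ZMod 3) (Set.range ((↑) : b → V4)) := by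
    rw [Subtype.range_coe, hbs, hs]
  let B : Module.Basis b (ZMod 3) V4 := Module.Basis.mk hbi hspan
  have hfin : Finite b := Set.toFinite b
  have := Fintype.ofFinite b
  have hcard : Fintype.card b = 4 := by
    have h1 := Module.finrank_eq_card_basis B
    rw [Module.finrank_fin_fun] at h1
    exact h1.symm
  let e : b ≃ Fin 4 := Fintype.equivFinOfCardEq hcard
  let B' : Module.Basis (Fin 4) (ZMod 3) V4 := B.reindex e
  refine ⟨(Pi.basisFun (ZMod 3) (Fin 4)).equiv B' (Equiv.refl _), fun i => ?_⟩
  have h2 : ((Pi.basisFun (ZMod 3) (Fin 4)).equiv B' (Equiv.refl _)) (Pi.single i 1) = B' i := by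
    have h3 := (Pi.basisFun (ZMod 3) (Fin 4)).equiv_apply i B' (Equiv.refl _)
    rw [Pi.basisFun_apply] at h3
    exact h3
  rw [h2]
  have h4 : B' i = ((e.symm i : b) : V4) := by
    change (B.reindex e) i = _
    rw [Module.Basis.reindex_apply]
    exact Module.Basis.mk_apply hbi hspan _
  rw [h4]
  exact hbT (e.symm i).2

private theorem A3_emb_mono {L : List ℕ} {S T : Set V4} (h : S ⊆ T) (hE : Emb L S) : Emb L T := by
  obtain ⟨g, hg⟩ := hE
  exact ⟨g, fun c hc => h (hg c hc)⟩

private theorem A3_ne_neg (v : V4) (hv : v ≠ 0) : v ≠ -v := by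
  intro h
  apply hv
  funext i
  have h1 : v i = -(v i) := congrFun h i
  have h2 : ∀ a : ZMod 3, a = -a → a = 0 := by decide
  exact h2 _ h1

theorem cov_base : Cov 4 [[1, 3, 9, 27]] := by
  intro T hT _
  obtain ⟨g, hg⟩ := A3_basis hT.span
  refine ⟨_, List.mem_singleton.2 rfl, g, ?_⟩
  obtain ⟨d1, d3, d9, d27⟩ := dec_basis
  intro c hc
  simp only [List.mem_cons, List.not_mem_nil, or_false] at hc
  rcases hc with rfl | rfl | rfl | rfl
  · rw [d1]; exact hg 0
  · rw [d3]; exact hg 1
  · rw [d9]; exact hg 2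
  · rw [d27]; exact hg 3

private theorem A3_eight (b : Fin 4 → V4) :
    (Set.range b ∪ Set.range (fun i => -b i)).ncard ≤ 8 := by
  have h1 : (Set.range b).ncard ≤ 4 := by
    rw [← Set.image_univ]
    have := Set.ncard_image_le (f := b) (s := Set.univ) (Set.toFinite _)
    rw [Set.ncard_univ, Nat.card_fin] at this
    exact this
  have h2 : (Set.range (fun i => -b i)).ncard ≤ 4 := by
    rw [← Set.image_univ]
    have := Set.ncard_image_le (f := fun i => -b i) (s := Set.univ) (Set.toFinite _)
    rw [Set.ncard_univ, Nat.card_fin] at this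
    exact this
  have h3 := Set.ncard_union_le (Set.range b) (Set.range (fun i => -b i))
  omega

theorem cov_step {n : ℕ} (hn : 4 ≤ n) {ce : List (List ℕ × List (List ℕ))} {Rs : List (List ℕ)}
    (h : Cov n (ce.map Prod.fst)) (hc : chkL (M1L :: M2L :: Rs) ce = true) : Cov (n + 1) Rs := by
  classical
  intro T hT hcard
  obtain ⟨g0, hg0⟩ := A3_basis hT.span
  set b : Fin 4 → V4 := fun i => g0 (Pi.single i 1) with hb
  have hx : ∃ x ∈ T, x ∉ Set.range b ∪ Set.range (fun i => -b i) := by
    by_contra hcon
    push Not at hcon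
    have h1 : T.ncard ≤ (Set.range b ∪ Set.range (fun i => -b i)).ncard :=
      Set.ncard_le_ncard (fun x hx => hcon x hx) (Set.toFinite _)
    have h2 := A3_eight b
    omega
  obtain ⟨x, hxT, hxB⟩ := hx
  have hx0 : x ≠ 0 := fun h0 => hT.zero (h0 ▸ hxT)
  have hxn : x ≠ -x := A3_ne_neg x hx0
  have hsub : T \ {x, -x} ⊆ T := Set.sdiff_subset
  have hbx : ∀ i, b i ∈ T \ {x, -x} := by
    intro i
    refine ⟨hg0 i, ?_⟩
    intro hmem
    rcases hmem with h1 | h1
    · exact hxB (Or.inl ⟨i, h1⟩)
    · have h1' : b i = -x := h1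
      refine hxB (Or.inr ⟨i, ?_⟩)
      change -b i = x
      rw [h1', neg_neg]
  have hT' : Adm (T \ {x, -x}) := by
    refine ⟨fun h0 => hT.zero h0.1, ?_, ?_, fun h1 => hT.free1 (A3_emb_mono hsub h1),
      fun h1 => hT.free2 (A3_emb_mono hsub h1)⟩
    · intro v hv
      refine ⟨hT.neg v hv.1, ?_⟩
      intro hmem
      apply hv.2
      rcases hmem with h1 | h1
      · right
        have h1' : -v = x := h1
        change v = -x
        rw [← h1', neg_neg]
      · left
        have h1' : -v = -x := h1
        exact neg_injective h1'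
    · rw [eq_top_iff]
      have h1 : Submodule.span (ZMod 3) (Set.range b) = ⊤ := by
        rw [eq_top_iff]
        intro v _
        have h2 : v = ∑ i, (g0.symm v) i • b i := by
          have h3 : g0.symm v = ∑ i, (g0.symm v) i • (Pi.single i 1 : V4) := by
            funext j
            rw [Finset.sum_apply]
            simp only [Pi.smul_apply, Pi.single_apply, smul_eq_mul, mul_ite, mul_one, mul_zero]
            rw [Finset.sum_ite_eq]
            simp
          have h4 := congrArg g0 h3
          rw [LinearEquiv.apply_symm_apply, map_sum] at h4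
          rw [h4]
          refine Finset.sum_congr rfl fun i _ => ?_
          rw [map_smul]
          rw [← h4]
        rw [h2]
        exact Submodule.sum_mem _ fun i _ =>
          Submodule.smul_mem _ _ (Submodule.subset_span ⟨i, rfl⟩)
      rw [← h1]
      apply Submodule.span_mono
      rintro _ ⟨i, rfl⟩
      exact hbx i
  have hncard : (T \ {x, -x}).ncard = 2 * n := by
    have h1 : ({x, -x} : Set V4) ⊆ T := by
      intro y hy
      rcases hy with h2 | h2
      · rw [h2]; exact hxT
      · have h2' : y = -x := h2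
        rw [h2']; exact hT.neg x hxT
    rw [Set.ncard_sdiff h1, Set.ncard_pair hxn, hcard]
    omega
  obtain ⟨R, hR, g, hg⟩ := h _ hT' hncard
  have hxT' : x ∉ T \ {x, -x} := fun hh => hh.2 (Or.inl rfl)
  have hnxT' : -x ∉ T \ {x, -x} := fun hh => hh.2 (Or.inr rfl)
  have hw0 : g.symm x ≠ 0 := by
    intro h0
    apply hx0
    have := congrArg g h0
    rwa [LinearEquiv.apply_symm_apply, map_zero] at this
  have hw : ∀ c ∈ R, g.symm x ≠ dec c ∧ g.symm x ≠ -dec c := by
    intro c hcR
    constructor
    · intro h1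
      apply hxT'
      have h2 := congrArg g h1
      rw [LinearEquiv.apply_symm_apply] at h2
      have h4 := hg c hcR
      rw [← h2] at h4
      exact h4
    · intro h1
      apply hnxT'
      have h2 := congrArg g h1
      rw [LinearEquiv.apply_symm_apply, map_neg] at h2
      have h3 : -x = g (dec c) := by rw [h2, neg_neg]
      have h4 := hg c hcR
      rw [← h3] at h4
      exact h4
  obtain ⟨L, hL, g', hg'⟩ := chkL_sound hc hR hw0 hw (S := g ⁻¹' T)
    (fun c hcR => (hg c hcR).1)
    (by change g (g.symm x) ∈ T; rw [LinearEquiv.apply_symm_apply]; exact hxT)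
    (fun v hv => by change g (-v) ∈ T; rw [map_neg]; exact hT.neg _ hv)
  have hE : Emb L T := ⟨g'.trans g, fun c hcL => hg' c hcL⟩
  simp only [List.mem_cons] at hL
  rcases hL with h1 | h1 | h1
  · rw [h1] at hE; exact absurd hE hT.free1
  · rw [h1] at hE; exact absurd hE hT.free2
  · exact ⟨L, h1, hE⟩

theorem cov_top (h : Cov 17 []) {n : ℕ} (hn : 17 ≤ n) : Cov n [] := by
  induction n, hn using Nat.le_induction with
  | base => exact h
  | succ n hn ih =>
    exact cov_step (ce := []) (by omega) ih rfl

/-- an admissible set is finite, has an even number `2 n` of elements, and `n ≥ 4` -/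
theorem adm_card {T : Set V4} (hT : Adm T) : ∃ n, 4 ≤ n ∧ T.ncard = 2 * n := by
  classical
  have hfin : T.Finite := Set.toFinite T
  set F : Finset V4 := hfin.toFinset with hF
  have hmem : ∀ v, v ∈ F ↔ v ∈ T := fun v => hfin.mem_toFinset
  have hcardF : T.ncard = F.card := Set.ncard_eq_toFinset_card T hfin
  have heven : ((F.card : ℕ) : ZMod 2) = 0 := by
    have h1 : ∑ v ∈ F, (1 : ZMod 2) = 0 := by
      refine Finset.sum_involution (fun v _ => -v) ?_ ?_ ?_ ?_
      · intro a _; decide
      · intro a ha _ h2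
        have ha0 : a ≠ 0 := fun h0 => hT.zero (h0 ▸ (hmem a).1 ha)
        exact A3_ne_neg a ha0 h2.symm
      · intro a ha; exact (hmem _).2 (hT.neg a ((hmem a).1 ha))
      · intro a _; exact neg_neg a
    rw [Finset.sum_const, nsmul_eq_mul, mul_one] at h1
    exact h1
  rw [ZMod.natCast_eq_zero_iff] at heven
  obtain ⟨n, hn⟩ := heven
  refine ⟨n, ?_, by rw [hcardF, hn]⟩
  -- eight elements
  obtain ⟨g, hg⟩ := A3_basis hT.span
  let f : Fin 4 × Bool → V4 := fun p => if p.2 then g (Pi.single p.1 1) else -g (Pi.single p.1 1)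
  have hf : ∀ p, f p ∈ F := by
    rintro ⟨i, _ | _⟩
    · exact (hmem _).2 (hT.neg _ (hg i))
    · exact (hmem _).2 (hg i)
  have hinj : Function.Injective f := by
    have hs : ∀ p, f p = g (if p.2 then Pi.single p.1 1 else -Pi.single p.1 1) := by
      rintro ⟨i, _ | _⟩
      · simp [f]
      · simp [f]
    have hinj' : Function.Injective
        (fun p : Fin 4 × Bool => (if p.2 then Pi.single p.1 1 else -Pi.single p.1 1 : V4)) := by
      decide
    intro p q hpq
    rw [hs, hs] at hpq
    exact hinj' (g.injective hpq)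
  have h8 : Fintype.card (Fin 4 × Bool) ≤ F.card := by
    rw [← Finset.card_univ]
    exact Finset.card_le_card_of_injOn f (fun p _ => hf p) (fun p _ q _ hpq => hinj hpq)
  have h88 : Fintype.card (Fin 4 × Bool) = 8 := by decide
  omega

end Pool.Agent.LibTR43
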