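import Pool.Agent.LibTR43.A1

/-!
[TR43 B1] Soundness of the check of negative correlation. `masks n k` is, as a set, the set of numbers `< 2 ^ n` with `k` digits `1`, without repetition
(induction on `n`: the numbers with the bit `n` are the `s + 2 ^ n`, `s < 2 ^ n`). For a number `s < 2 ^ A.length` the list `sel A s` has length the number of
digits `1` (`sel_length` in `H67Tern/Main.lean`), so `bl4 A` is a permutation of `baseList 4 A` (both without repetition, same members: `List.perm_ext_iff_of_nodup`).
Then `nb_empty`, `nb_single`, `nb_pair` (H67Tern/Main) and `List.Perm.countP_eq` give the numbers of bases as counts in `L`; `bit s e = s.testBit e` (`Nat.testBit`).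
`ncL L bs` gives the inequalities for `e < f`; for `f < e` exchange them.
-/

set_option autoImplicit false

namespace Pool.Agent.LibTR43

open Pool.Agent.H67Tern

private def B1_pc (n s : ℕ) : ℕ := ∑ i ∈ Finset.range n, if s.testBit i then 1 else 0

private theorem B1_tb_lt {n t i : ℕ} (hi : i < n) : (t + 2 ^ n).testBit i = t.testBit i := by
  rw [Nat.add_comm, Nat.testBit_two_pow_add_gt hi]

private theorem B1_tb_eq {n t : ℕ} (ht : t < 2 ^ n) : (t + 2 ^ n).testBit n = true := by
  rw [Nat.add_comm, Nat.testBit_two_pow_add_eq, Nat.testBit_lt_two_pow ht]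
  rfl

private theorem B1_mem : ∀ (n k s : ℕ), s ∈ masks n k ↔ s < 2 ^ n ∧ B1_pc n s = k
  | n, 0, s => by
    simp only [masks, List.mem_singleton]
    constructor
    · rintro rfl
      refine ⟨Nat.two_pow_pos n, ?_⟩
      simp [B1_pc]
    · rintro ⟨h1, h2⟩
      apply Nat.eq_of_testBit_eq
      intro i
      rw [Nat.zero_testBit]
      by_cases hi : i < n
      · have h3 := (Finset.sum_eq_zero_iff.1 h2) i (Finset.mem_range.2 hi)
        by_contra hc
        rw [Bool.not_eq_false] at hc
        rw [if_pos hc] at h3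
        exact absurd h3 one_ne_zero
      · exact Nat.testBit_lt_two_pow (lt_of_lt_of_le h1
          (Nat.pow_le_pow_right (by norm_num) (not_lt.1 hi)))
  | 0, k + 1, s => by
    simp [masks, B1_pc]
  | n + 1, k + 1, s => by
    have h0 : B1_pc (n + 1) s = B1_pc n s + if s.testBit n then 1 else 0 := by
      unfold B1_pc
      rw [Finset.sum_range_succ]
    have e1 : masks (n + 1) (k + 1) = masks n (k + 1) ++ (masks n k).map (fun s => s + 2 ^ n) := rfl
    rw [e1, List.mem_append, List.mem_map, B1_mem n (k + 1) s, h0]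
    constructor
    · rintro (⟨h1, h2⟩ | ⟨t, ht, rfl⟩)
      · refine ⟨by rw [pow_succ]; omega, ?_⟩
        rw [Nat.testBit_lt_two_pow h1, h2]
        rfl
      · rw [B1_mem n k t] at ht
        obtain ⟨h1, h2⟩ := ht
        refine ⟨by rw [pow_succ]; omega, ?_⟩
        rw [B1_tb_eq h1, if_pos rfl, ← h2]
        congr 1
        unfold B1_pc
        apply Finset.sum_congr rfl
        intro i hi
        rw [B1_tb_lt (Finset.mem_range.1 hi)]
    · rintro ⟨h1, h2⟩
      by_cases hs : s < 2 ^ n
      · left
        rw [Nat.testBit_lt_two_pow hs] at h2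
        exact ⟨hs, by simpa using h2⟩
      · right
        obtain ⟨t, rfl⟩ : ∃ t, s = t + 2 ^ n := ⟨s - 2 ^ n, by omega⟩
        have ht : t < 2 ^ n := by rw [pow_succ] at h1; omega
        refine ⟨t, (B1_mem n k t).2 ⟨ht, ?_⟩, rfl⟩
        rw [B1_tb_eq ht, if_pos rfl] at h2
        have h3 : B1_pc n (t + 2 ^ n) = B1_pc n t := by
          unfold B1_pc
          apply Finset.sum_congr rfl
          intro i hi
          rw [B1_tb_lt (Finset.mem_range.1 hi)]
        rw [h3] at h2
        omega

private theorem B1_nodup : ∀ (n k : ℕ), (masks n k).Nodup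
  | n, 0 => by
    simp [masks]
  | 0, k + 1 => by
    simp [masks]
  | n + 1, k + 1 => by
    have e1 : masks (n + 1) (k + 1) = masks n (k + 1) ++ (masks n k).map (fun s => s + 2 ^ n) := rfl
    rw [e1]
    refine List.Nodup.append (B1_nodup n (k + 1)) ?_ ?_
    · exact (B1_nodup n k).map (fun a b h => Nat.add_right_cancel h)
    · intro x hx hy
      rw [B1_mem] at hx
      rw [List.mem_map] at hy
      obtain ⟨t, -, rfl⟩ := hy
      omega

private theorem B1_len (A : List (List ℕ)) (s : ℕ) :
    (sel A s).length = B1_pc A.length s := by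
  rw [sel_length]
  unfold B1_pc
  exact Fin.sum_univ_eq_sum_range (fun i => if s.testBit i then 1 else 0) A.length

theorem perm_bl4 (A : List (List ℕ)) : List.Perm (baseList 4 A) (bl4 A) := by
  have hn : (bl4 A).Nodup := (B1_nodup _ _).filter _
  rw [List.perm_ext_iff_of_nodup (baseList_nodup 4 A) hn]
  intro a
  unfold baseList bl4
  rw [List.mem_filter, List.mem_filter, List.mem_range, B1_mem, Bool.and_eq_true, Nat.beq_eq,
    B1_len]
  tauto

private theorem B1_bit (m c : ℕ) : bit m c = m.testBit c := by
  unfold bit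
  rw [Nat.testBit_eq_decide_div_mod_eq]
  rw [Bool.eq_iff_iff, Nat.beq_eq, decide_eq_true_iff]
  rfl

theorem nc_sound {A : List (List ℕ)} (hA : ∀ w ∈ A, w.length = 4) {L bs : List ℕ} (h1 : bl4 A = L) (h2 : ncL L bs = true)
    (h3 : bs.length = A.length) (hne : L ≠ []) : NegCorr (colMat 4 A) := by
  have hp : List.Perm (baseList 4 A) L := h1 ▸ perm_bl4 A
  have hb : baseList 4 A ≠ [] := by
    intro h0
    rw [h0] at hp
    exact hne (List.Perm.nil_eq hp).symm
  have hc1 : ∀ e : Fin A.length, nb (colMat 4 A) {e} ∅ = c1 L e := by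
    intro e
    rw [nb_single hA hb e, hp.countP_eq]
    unfold c1
    apply List.countP_congr
    intro x _
    rw [B1_bit]
  have hc2 : ∀ e f : Fin A.length, nb (colMat 4 A) {e, f} ∅ = c2 L e f := by
    intro e f
    rw [nb_pair hA hb e f, hp.countP_eq]
    unfold c2
    apply List.countP_congr
    intro x _
    rw [B1_bit, B1_bit]
  have hc0 : nb (colMat 4 A) ∅ ∅ = L.length := by
    rw [nb_empty hA hb, hp.length_eq]
  unfold ncL at h2
  rw [List.all_eq_true] at h2
  have key : ∀ e f : Fin A.length, e < f →
      nb (colMat 4 A) {e, f} ∅ * nb (colMat 4 A) ∅ ∅ ≤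
        nb (colMat 4 A) {e} ∅ * nb (colMat 4 A) {f} ∅ := by
    intro e f hef
    have hf := h2 f (List.mem_range.2 (by rw [h3]; exact f.2))
    have he := h2 e (List.mem_range.2 (by rw [h3]; exact e.2))
    rw [Bool.and_eq_true, Nat.beq_eq, List.all_eq_true] at hf he
    have hef' := hf.2 e (List.mem_range.2 hef)
    rw [Nat.ble_eq] at hef'
    rw [hc2, hc0, hc1, hc1, he.1, hf.1]
    exact hef'
  intro e _ f _ hne'
  rcases lt_or_gt_of_ne hne' with h | h
  · exact key e f h
  · have := key f e h
    rw [Set.pair_comm, Nat.mul_comm (nb (colMat 4 A) {e} ∅)]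
    exact this

end Pool.Agent.LibTR43
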