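import Pool.Agent.LibTR43.B1

/-!
[TR43 B2] `goodChk` (cites A1, B1 `nc_sound`). `gdL R`: the codes are increasing, `< 81` and smaller than the codes of their negatives, so `dec a = dec b` gives
`a = b` (`dec_inj`), and `dec a = - dec b = dec (ngc b)` gives `a = ngc b > b` and `b = ngc a > a` (`ngc_ngc`), absurd.
-/

set_option autoImplicit false

namespace Pool.Agent.LibTR43

open Pool.Agent.H67Tern

/-- the codes are increasing, `< 81` and smaller than the codes of their negatives -/
def gdL (R : List ℕ) : Bool :=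
  (R.all fun c => Nat.blt c 81 && Nat.blt c (ngc c)) && decide (R.Pairwise (· < ·))

/-- all checks for the representative `x.1`; `x.2.1` is the list of the masks of the bases, `x.2.2` the list of the numbers `b_e` -/
def goodChk (n : ℕ) (x : List ℕ × List ℕ × List ℕ) : Bool :=
  Nat.beq x.1.length n && (Nat.beq x.2.2.length n && (gdL x.1 && (!x.2.1.isEmpty &&
    (decide (bl4 (x.1.map dig) = x.2.1) && ncL x.2.1 x.2.2))))

private theorem tr43B2_lt {c : ℕ} {R : List ℕ} (h : gdL R = true) (hc : c ∈ R) : c < 81 ∧ c < ngc c := by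
  unfold gdL at h
  rw [Bool.and_eq_true] at h
  have h1 := List.all_eq_true.1 h.1 c hc
  rw [Bool.and_eq_true] at h1
  refine ⟨?_, ?_⟩
  · have := h1.1
    rw [Nat.blt_eq] at this
    exact this
  · have := h1.2
    rw [Nat.blt_eq] at this
    exact this

private theorem tr43B2_gd {R : List ℕ} (h : gdL R = true) : Gd R := by
  have hp : R.Pairwise (· < ·) := by
    have h' := h
    unfold gdL at h'
    rw [Bool.and_eq_true] at h'
    exact of_decide_eq_true h'.2
  unfold Gd
  refine List.Pairwise.imp_of_mem ?_ hp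
  intro a b ha hb hab
  obtain ⟨ha1, ha2⟩ := tr43B2_lt h ha
  obtain ⟨hb1, hb2⟩ := tr43B2_lt h hb
  refine ⟨?_, ?_⟩
  · intro he
    have := dec_inj ha1 hb1 he
    omega
  · intro he
    rw [← dec_ngc] at he
    have h1 := dec_inj ha1 (ngc_ngc hb1).1 he
    have h2 : ngc a = b := by
      rw [h1]
      exact (ngc_ngc hb1).2
    omega

private theorem tr43B2_mapnil {R : List ℕ} {n : ℕ} (h : R.length = n) : (R.map dig).length = n := by
  rw [List.length_map]
  exact h

theorem good_sound {n : ℕ} {x : List ℕ × List ℕ × List ℕ} (h : goodChk n x = true) : Good n x.1 := by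
  unfold goodChk at h
  rw [Bool.and_eq_true, Bool.and_eq_true, Bool.and_eq_true, Bool.and_eq_true, Bool.and_eq_true] at h
  obtain ⟨h1, h2, h3, h4, h5, h6⟩ := h
  have hl : x.1.length = n := Nat.eq_of_beq_eq_true h1
  have hl2 : x.2.2.length = n := Nat.eq_of_beq_eq_true h2
  refine ⟨hl, tr43B2_gd h3, ?_⟩
  refine nc_sound ?_ (of_decide_eq_true h5) h6 ?_ ?_
  · intro w hw
    rw [List.mem_map] at hw
    obtain ⟨c, _, rfl⟩ := hw
    rfl
  · rw [tr43B2_mapnil hl]
    exact hl2
  · intro hn
    rw [hn] at h4
    exact absurd h4 (by decide)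

end Pool.Agent.LibTR43
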