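import Pool.Agent.LibTR43.B2

/-!
[TR43 B3] The check `goodChk` from its parts (so that every kernel computation is small).
-/

set_option autoImplicit false

namespace Pool.Agent.LibTR43

open Pool.Agent.H67Tern

/-- the part of `ncL` for one element `f` -/
def ncP (L bs : List ℕ) (f : ℕ) : Bool :=
  (Nat.beq (c1 L f) (bs.getD f 0)) &&
    (List.range f).all fun e =>
      Nat.ble (Nat.mul (c2 L e f) L.length) (Nat.mul (bs.getD e 0) (bs.getD f 0))

theorem ncL_chunks {L bs : List ℕ} (C : List (List ℕ)) (h : List.range bs.length = C.flatten)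
    (hC : ∀ c ∈ C, c.all (ncP L bs) = true) : ncL L bs = true := by
  have e : ncL L bs = (List.range bs.length).all (ncP L bs) := rfl
  rw [e, h, List.all_eq_true]
  intro x hx
  obtain ⟨c, hc, hxc⟩ := List.mem_flatten.1 hx
  exact List.all_eq_true.1 (hC c hc) x hxc

/-- the part of `goodChk` without the masks -/
def goodA (n : ℕ) (x : List ℕ × List ℕ × List ℕ) : Bool :=
  Nat.beq x.1.length n && (Nat.beq x.2.2.length n && (gdL x.1 && !x.2.1.isEmpty))

/-- the part of `goodChk` on the masks of the bases -/
def goodB (x : List ℕ × List ℕ × List ℕ) : Bool := decide (bl4 (x.1.map dig) = x.2.1)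

theorem goodChk_of {n : ℕ} {x : List ℕ × List ℕ × List ℕ} (hA : goodA n x = true)
    (hB : goodB x = true) (hC : ncL x.2.1 x.2.2 = true) : goodChk n x = true := by
  unfold goodA at hA
  unfold goodB at hB
  rw [Bool.and_eq_true, Bool.and_eq_true, Bool.and_eq_true] at hA
  obtain ⟨h1, h2, h3, h4⟩ := hA
  unfold goodChk
  rw [h1, h2, h3, h4, hB, hC]
  rfl

end Pool.Agent.LibTR43
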