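import Pool.Agent.LibTR43.Defs

/-!
[TR43 C1] Representations by coordinate vectors.
-/

set_option autoImplicit false

namespace Pool.Agent.LibTR43

open Pool.Agent.H67Tern Set Matroid

private lemma c1_base_span {α : Type*} {M : Matroid α} {W : Type*} [AddCommGroup W] [Module (ZMod 3) W]
    {v : α → W} (h : ∀ I ⊆ M.E, (M.Indep I ↔ LinearIndepOn (ZMod 3) v I)) {B : Set α} (hB : M.IsBase B) :
    ∀ e ∈ M.E, v e ∈ Submodule.span (ZMod 3) (v '' B) := by
  intro e he
  by_cases heB : e ∈ B
  · exact Submodule.subset_span ⟨e, heB, rfl⟩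
  by_contra hcon
  have h1 : LinearIndepOn (ZMod 3) v B := (h B hB.subset_ground).1 hB.indep
  have h2 : LinearIndepOn (ZMod 3) v (insert e B) := by
    rw [linearIndepOn_insert heB]
    exact ⟨h1, hcon⟩
  have h3 : M.Indep (insert e B) := (h _ (insert_subset he hB.subset_ground)).2 h2
  exact heB (by
    have := hB.eq_of_subset_indep h3 (subset_insert e B)
    rw [this]; exact mem_insert e B)

theorem exists_rep {α : Type*} {M : Matroid α} [M.Finite] (h : Ternary M) {r : ℕ} (hr : M.eRank ≤ r) :
    ∃ v : α → Fin r → ZMod 3, RepBy M r v := by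
  classical
  have : Fact (Nat.Prime 3) := ⟨Nat.prime_three⟩
  obtain ⟨W, _, _, v, hv⟩ := h
  obtain ⟨B, hB⟩ := M.exists_isBase
  have hBf : B.Finite := M.ground_finite.subset hB.subset_ground
  have hBr : B.ncard ≤ r := by
    have h1 : B.encard ≤ r := by rw [hB.encard_eq_eRank]; exact hr
    rw [← hBf.cast_ncard_eq] at h1
    exact_mod_cast h1
  have hind : LinearIndepOn (ZMod 3) v B := (hv B hB.subset_ground).1 hB.indep
  have hspan := c1_base_span hv hB
  have : Fintype B := hBf.fintype
  have hcard : Fintype.card B = B.ncard := by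
    rw [← Nat.card_coe_set_eq, Nat.card_eq_fintype_card]
  -- an injection of B in Fin r
  obtain ⟨ι⟩ : Nonempty (B ↪ Fin r) := by
    rw [Function.Embedding.nonempty_iff_card_le, hcard, Fintype.card_fin]
    exact hBr
  have hli : LinearIndependent (ZMod 3) (fun b : B => v b) := hind
  let b := Module.Basis.span hli
  have hl2 : LinearIndependent (ZMod 3) (fun x : B => (Pi.single (ι x) 1 : Fin r → ZMod 3)) := by
    have h1 := (Pi.basisFun (ZMod 3) (Fin r)).linearIndependent
    have h2 := h1.comp ι ι.injective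
    convert h2 using 2
    simp
  let φ0 := b.constr (ZMod 3) (fun x : B => (Pi.single (ι x) 1 : Fin r → ZMod 3))
  have hφ0 : LinearMap.ker φ0 = ⊥ := by
    rw [LinearMap.ker_eq_bot']
    intro m hm
    have h1 : φ0 m = ∑ i, b.repr m i • (Pi.single (ι i) 1 : Fin r → ZMod 3) := by
      rw [Module.Basis.constr_apply_fintype]
      rfl
    rw [h1] at hm
    have h2 := (Fintype.linearIndependent_iff.1 hl2) _ hm
    have h3 : b.repr m = 0 := by
      ext i; simpa using h2 i
    simpa using h3
  obtain ⟨φ, hφ⟩ := LinearMap.exists_extend φ0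
  have hS : Submodule.span (ZMod 3) (range fun b : B => v b) = Submodule.span (ZMod 3) (v '' B) := by
    congr 1
    ext x; constructor
    · rintro ⟨y, rfl⟩; exact ⟨y, y.2, rfl⟩
    · rintro ⟨y, hy, rfl⟩; exact ⟨⟨y, hy⟩, rfl⟩
  have hinj : ∀ x ∈ Submodule.span (ZMod 3) (range fun b : B => v b), φ x = 0 → x = 0 := by
    intro x hx h0
    have h1 : φ0 ⟨x, hx⟩ = 0 := by
      rw [← hφ]; exact h0
    have h2 := (LinearMap.ker_eq_bot'.1 hφ0) _ h1
    simpa using congrArg Subtype.val h2
  refine ⟨φ ∘ v, fun I hI => ?_⟩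
  rw [hv I hI]
  constructor
  · intro h1
    refine h1.map_injOn φ ?_
    intro x hx y hy hxy
    have hsub : Submodule.span (ZMod 3) (v '' I) ≤
        Submodule.span (ZMod 3) (range fun b : B => v b) := by
      rw [Submodule.span_le, hS]
      rintro _ ⟨e, he, rfl⟩
      exact hspan e (hI he)
    have h2 : φ (x - y) = 0 := by rw [map_sub, hxy, sub_self]
    exact sub_eq_zero.1 (hinj _ (hsub (Submodule.sub_mem _ hx hy)) h2)
  · intro h1
    exact LinearIndepOn.of_comp φ h1

theorem rep_span {α : Type*} {M : Matroid α} [M.Finite] {r : ℕ} {v : α → Fin r → ZMod 3} (h : RepBy M r v)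
    (hr : M.eRank = r) : Submodule.span (ZMod 3) (v '' M.E) = ⊤ := by
  classical
  have : Fact (Nat.Prime 3) := ⟨Nat.prime_three⟩
  obtain ⟨B, hB⟩ := M.exists_isBase
  have hBf : B.Finite := M.ground_finite.subset hB.subset_ground
  have hBr : B.ncard = r := by
    have h1 : B.encard = r := by rw [hB.encard_eq_eRank]; exact hr
    rw [← hBf.cast_ncard_eq] at h1
    exact_mod_cast h1
  have hind : LinearIndepOn (ZMod 3) v B := (h B hB.subset_ground).1 hB.indep
  have : Fintype B := hBf.fintype
  have hcard : Fintype.card B = B.ncard := by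
    rw [← Nat.card_coe_set_eq, Nat.card_eq_fintype_card]
  have hli : LinearIndependent (ZMod 3) (fun b : B => v b) := hind
  have h1 : Submodule.span (ZMod 3) (range fun b : B => v b) = ⊤ := by
    apply hli.span_eq_top_of_card_eq_finrank'
    rw [hcard, hBr, Module.finrank_fin_fun]
  rw [eq_top_iff, ← h1]
  apply Submodule.span_mono
  rintro _ ⟨y, rfl⟩
  exact ⟨y, hB.subset_ground y.2, rfl⟩

end Pool.Agent.LibTR43
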