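import Pool.Agent.LibTR43.Defs

/-!
[TR43 C2] Isomorphisms of matroids (`Isomorphic` in `H67Tern/Iso.lean`: a bijection `φ : M.E ≃ N.E` matching bases). `iso_symm`: `φ.symm`; `iso_trans`.
`iso_of_indep`: bases are the maximal independent sets (`Matroid.isBase_iff_maximal_indep`, `maximal_subset_iff`), every subset of `M.E` is the image of a set of `M.E` as a type.
`iso_indep`: conversely, `M.Indep I ↔ ∃ B, M.IsBase B ∧ I ⊆ B` (`Matroid.indep_iff`).
`negCorr_iso`: `nb M U ∅ = nb N (φ U) ∅` for `U ⊆ M.E` (`Set.ncard_congr`, as in `Isomorphic.sum_eq`).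
-/

set_option autoImplicit false

namespace Pool.Agent.LibTR43

open Pool.Agent.H67Tern Set Matroid

/-- a subset of the ground set is the image of its preimage in the ground set as a type -/
private theorem C2_val {α : Type*} {E I : Set α} (h : I ⊆ E) :
    Subtype.val '' (Subtype.val ⁻¹' I : Set E) = I := by
  rw [Subtype.image_preimage_coe, Set.inter_eq_right]
  exact h

private theorem C2_symm_image {α β : Type*} (φ : α ≃ β) (K : Set β) : φ '' (φ.symm '' K) = K := by
  rw [← Set.image_comp]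
  simp

private theorem C2_image_symm {α β : Type*} (φ : α ≃ β) (K : Set α) : φ.symm '' (φ '' K) = K := by
  rw [← Set.image_comp]
  simp

private theorem C2_sub {α : Type*} {E : Set α} {I J : Set E}
    (h : Subtype.val '' I ⊆ Subtype.val '' J) : I ⊆ J :=
  (Set.image_subset_image_iff Subtype.val_injective).1 h

theorem iso_refl {α : Type*} (M : Matroid α) : Isomorphic M M :=
  ⟨Equiv.refl _, fun B => by simp⟩

theorem iso_symm {α β : Type*} {M : Matroid α} {N : Matroid β} (h : Isomorphic M N) : Isomorphic N M := by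
  obtain ⟨φ, hφ⟩ := h
  refine ⟨φ.symm, fun B => ?_⟩
  have h1 := hφ (φ.symm '' B)
  rw [C2_symm_image] at h1
  exact h1.symm

theorem iso_trans {α β γ : Type*} {M : Matroid α} {N : Matroid β} {P : Matroid γ} (h : Isomorphic M N)
    (h' : Isomorphic N P) : Isomorphic M P := by
  obtain ⟨φ, hφ⟩ := h
  obtain ⟨ψ, hψ⟩ := h'
  refine ⟨φ.trans ψ, fun B => ?_⟩
  have e : (φ.trans ψ) '' B = ψ '' (φ '' B) := by
    rw [← Set.image_comp]
    rfl
  rw [hφ, hψ, e]

private theorem C2_base_of_indep {α β : Type*} {M : Matroid α} {N : Matroid β} (φ : M.E ≃ N.E)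
    (h : ∀ I : Set M.E, M.Indep (Subtype.val '' I) ↔ N.Indep (Subtype.val '' (φ '' I)))
    (B : Set M.E) (hB : M.IsBase (Subtype.val '' B)) : N.IsBase (Subtype.val '' (φ '' B)) := by
  rw [Matroid.isBase_iff_maximal_indep] at hB ⊢
  refine ⟨(h B).1 hB.1, ?_⟩
  intro J hJ hBJ
  have hJE : J ⊆ N.E := hJ.subset_ground
  have e1 : Subtype.val '' (Subtype.val ⁻¹' J : Set N.E) = J := C2_val hJE
  have e2 : φ '' (φ.symm '' (Subtype.val ⁻¹' J : Set N.E)) = (Subtype.val ⁻¹' J : Set N.E) :=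
    C2_symm_image _ _
  have h1 : M.Indep (Subtype.val '' (φ.symm '' (Subtype.val ⁻¹' J : Set N.E))) := by
    rw [h, e2, e1]
    exact hJ
  have h2 : φ '' B ⊆ (Subtype.val ⁻¹' J : Set N.E) := by
    apply C2_sub
    rw [e1]
    exact hBJ
  have h3 : B ⊆ φ.symm '' (Subtype.val ⁻¹' J : Set N.E) := by
    rw [← C2_image_symm φ B]
    exact Set.image_mono h2
  have h4 := hB.2 h1 (Set.image_mono h3)
  have h5 := C2_sub h4
  have h6 : (Subtype.val ⁻¹' J : Set N.E) ⊆ φ '' B := by
    rw [← e2]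
    exact Set.image_mono h5
  calc J = Subtype.val '' (Subtype.val ⁻¹' J : Set N.E) := e1.symm
    _ ⊆ Subtype.val '' (φ '' B) := Set.image_mono h6

theorem iso_of_indep {α β : Type*} {M : Matroid α} {N : Matroid β} (φ : M.E ≃ N.E)
    (h : ∀ I : Set M.E, M.Indep (Subtype.val '' I) ↔ N.Indep (Subtype.val '' (φ '' I))) : Isomorphic M N := by
  refine ⟨φ, fun B => ⟨C2_base_of_indep φ h B, fun hB => ?_⟩⟩
  have h' : ∀ I : Set N.E, N.Indep (Subtype.val '' I) ↔ M.Indep (Subtype.val '' (φ.symm '' I)) := by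
    intro I
    rw [h, C2_symm_image]
  have := C2_base_of_indep φ.symm h' (φ '' B) hB
  rwa [C2_image_symm] at this

private theorem C2_indep_of_base {α β : Type*} {M : Matroid α} {N : Matroid β} (φ : M.E ≃ N.E)
    (h : ∀ B : Set M.E, M.IsBase (Subtype.val '' B) ↔ N.IsBase (Subtype.val '' (φ '' B)))
    (I : Set M.E) (hI : M.Indep (Subtype.val '' I)) : N.Indep (Subtype.val '' (φ '' I)) := by
  rw [Matroid.indep_iff] at hI ⊢
  obtain ⟨B, hB, hIB⟩ := hI
  have e1 : Subtype.val '' (Subtype.val ⁻¹' B : Set M.E) = B := C2_val hB.subset_ground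
  refine ⟨Subtype.val '' (φ '' (Subtype.val ⁻¹' B : Set M.E)), (h _).1 (by rwa [e1]), ?_⟩
  refine Set.image_mono (Set.image_mono ?_)
  apply C2_sub
  rwa [e1]

theorem iso_indep {α β : Type*} {M : Matroid α} {N : Matroid β} (h : Isomorphic M N) : ∃ φ : M.E ≃ N.E,
    ∀ I : Set M.E, M.Indep (Subtype.val '' I) ↔ N.Indep (Subtype.val '' (φ '' I)) := by
  obtain ⟨φ, hφ⟩ := h
  refine ⟨φ, fun I => ⟨C2_indep_of_base φ hφ I, fun hI => ?_⟩⟩
  have h' : ∀ B : Set N.E, N.IsBase (Subtype.val '' B) ↔ M.IsBase (Subtype.val '' (φ.symm '' B)) := by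
    intro B
    rw [hφ, C2_symm_image]
  have := C2_indep_of_base φ.symm h' (φ '' I) hI
  rwa [C2_image_symm] at this

theorem iso_card {α β : Type*} {M : Matroid α} {N : Matroid β} (h : Isomorphic M N) : M.E.ncard = N.E.ncard := by
  obtain ⟨φ, -⟩ := h
  rw [← Nat.card_coe_set_eq, ← Nat.card_coe_set_eq]
  exact Nat.card_congr φ

/-- the number of bases containing a set is preserved -/
private theorem C2_nb {α β : Type*} {M : Matroid α} {N : Matroid β} (φ : M.E ≃ N.E)
    (h : ∀ B : Set M.E, M.IsBase (Subtype.val '' B) ↔ N.IsBase (Subtype.val '' (φ '' B)))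
    (U : Set M.E) : nb M (Subtype.val '' U) ∅ = nb N (Subtype.val '' (φ '' U)) ∅ := by
  unfold nb
  apply Set.ncard_congr (fun B _ => Subtype.val '' (φ '' (Subtype.val ⁻¹' B : Set M.E)))
  · rintro B ⟨h1, h2, -⟩
    have e1 : Subtype.val '' (Subtype.val ⁻¹' B : Set M.E) = B := C2_val h1.subset_ground
    refine ⟨(h _).1 (by rwa [e1]), ?_, Set.empty_disjoint _⟩
    refine Set.image_mono (Set.image_mono ?_)
    apply C2_sub
    rwa [e1]
  · rintro B B' ⟨h1, -, -⟩ ⟨h1', -, -⟩ hBB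
    have e1 : Subtype.val '' (Subtype.val ⁻¹' B : Set M.E) = B := C2_val h1.subset_ground
    have e1' : Subtype.val '' (Subtype.val ⁻¹' B' : Set M.E) = B' := C2_val h1'.subset_ground
    have h3 := Set.image_injective.2 φ.injective (Set.image_injective.2 Subtype.val_injective hBB)
    rw [← e1, ← e1', h3]
  · rintro C ⟨h1, h2, -⟩
    have e1 : Subtype.val '' (Subtype.val ⁻¹' C : Set N.E) = C := C2_val h1.subset_ground
    have e3 : (Subtype.val ⁻¹' (Subtype.val '' (φ.symm '' (Subtype.val ⁻¹' C : Set N.E))) : Set M.E) =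
        φ.symm '' (Subtype.val ⁻¹' C : Set N.E) := Set.preimage_image_eq _ Subtype.val_injective
    have e4 : φ '' (φ.symm '' (Subtype.val ⁻¹' C : Set N.E)) = (Subtype.val ⁻¹' C : Set N.E) :=
      C2_symm_image _ _
    refine ⟨Subtype.val '' (φ.symm '' (Subtype.val ⁻¹' C : Set N.E)), ⟨?_, ?_, Set.empty_disjoint _⟩, ?_⟩
    · rw [h, e4, e1]
      exact h1
    · have h3 : φ '' U ⊆ (Subtype.val ⁻¹' C : Set N.E) := by
        apply C2_sub
        rwa [e1]
      refine Set.image_mono ?_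
      rw [← C2_image_symm φ U]
      exact Set.image_mono h3
    · rw [e3, e4, e1]

theorem iso_nb {α β : Type*} {M : Matroid α} {N : Matroid β} (h : Isomorphic M N) : nb M ∅ ∅ = nb N ∅ ∅ := by
  obtain ⟨φ, hφ⟩ := h
  have := C2_nb φ hφ ∅
  simpa using this

theorem negCorr_iso {α β : Type*} {M : Matroid α} {N : Matroid β} (h : Isomorphic M N) (hN : NegCorr N) :
    NegCorr M := by
  obtain ⟨φ, hφ⟩ := h
  intro e he f hf hef
  have h0 := C2_nb φ hφ ∅
  have h1 := C2_nb φ hφ {⟨e, he⟩}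
  have h2 := C2_nb φ hφ {⟨f, hf⟩}
  have h3 := C2_nb φ hφ {⟨e, he⟩, ⟨f, hf⟩}
  simp only [Set.image_empty, Set.image_singleton, Set.image_pair] at h0 h1 h2 h3
  rw [h0, h1, h2, h3]
  refine hN _ (φ ⟨e, he⟩).2 _ (φ ⟨f, hf⟩).2 ?_
  intro h4
  have h5 := φ.injective (Subtype.val_injective h4)
  exact hef (congrArg Subtype.val h5)

end Pool.Agent.LibTR43
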