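import Pool.Agent.LibTR43.C2

/-!
[TR43 C3] From vectors to matroids (cites C2). `iso_of_emb`: `g (dec c_i) = ± v e_i` for `c_i = L[i]`, `e_i ∈ M.E`; the `e_i` are different because the `dec c_i` are
different up to sign (`Gd L`, `List.pairwise_iff_getElem`, `g` injective). `X` = the set of the `e_i`. A set of indices `I` is independent in `colMat 4 (L.map dig)` iff the
`dec c_i`, `i ∈ I`, are linearly independent (`colMat_indep`, `(L.map dig).get i = dig c_i`, `dec c = vec 4 (dig c)`), iff the `g (dec c_i)` are, iff the `v e_i` are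
(factors `±1`: `LinearIndependent.units_smul` / `LinearIndepOn.units_smul`), iff `{e_i | i ∈ I}` is independent in `M`. Use `iso_of_indep`. (The index types `Fin L.length` and
`Fin (L.map dig).length` are identified by `Fin.cast`.)
-/

set_option autoImplicit false

namespace Pool.Agent.LibTR43

open Pool.Agent.H67Tern Set Matroid

private theorem C3_units {ι : Type*} {w w' : ι → V4} (h : ∀ i, w' i = w i ∨ w' i = -w i) (s : Set ι) :
    LinearIndepOn (ZMod 3) w' s ↔ LinearIndepOn (ZMod 3) w s := by
  have hu : ∀ i, ∃ u : (ZMod 3)ˣ, w' i = u • w i := by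
    intro i
    rcases h i with h | h
    · exact ⟨1, by rw [h, one_smul]⟩
    · exact ⟨-1, by rw [h, Units.neg_smul, one_smul]⟩
  choose u hu using hu
  have e : (fun i : s => w' i) = (fun i : s => u i) • (fun i : s => w i) := by
    funext i
    exact hu i
  unfold LinearIndepOn
  rw [e]
  exact LinearIndependent.units_smul_iff _ _

theorem iso_of_emb {α : Type*} {M : Matroid α} {v : α → V4} (hv : RepBy M 4 v) {L : List ℕ} (hL : Gd L)
    (h : Emb L (TT M v)) :
    ∃ X ⊆ M.E, X.ncard = L.length ∧ Isomorphic (M ↾ X) (colMat 4 (L.map dig)) := by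
  obtain ⟨g, hg⟩ := h
  set A : List (List ℕ) := L.map dig with hAdef
  have hlen : A.length = L.length := by simp [hAdef]
  have hget : ∀ (i : Fin A.length) (hi : i.1 < L.length), vec 4 (A.get i) = dec (L[i.1]'hi) := by
    intro i hi
    unfold dec
    congr 1
    simp [hAdef]
  have hex : ∀ i : Fin A.length, ∃ e ∈ M.E, g (vec 4 (A.get i)) = v e ∨ g (vec 4 (A.get i)) = -v e := by
    intro i
    have hi : i.1 < L.length := hlen ▸ i.2
    rw [hget i hi]
    exact hg _ (List.getElem_mem hi)
  choose e heE he using hex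
  have hinj : Function.Injective e := by
    intro i j hij
    by_contra hne
    have hi : i.1 < L.length := hlen ▸ i.2
    have hj : j.1 < L.length := hlen ▸ j.2
    have h1 := he i
    have h2 := he j
    rw [← hij] at h2
    rw [hget i hi] at h1
    rw [hget j hj] at h2
    have h3 : dec (L[i.1]'hi) = dec (L[j.1]'hj) ∨ dec (L[i.1]'hi) = -dec (L[j.1]'hj) := by
      have h4 : g (dec (L[i.1]'hi)) = g (dec (L[j.1]'hj)) ∨ g (dec (L[i.1]'hi)) = -g (dec (L[j.1]'hj)) := by
        rcases h1 with h1 | h1 <;> rcases h2 with h2 | h2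
        · left; rw [h1, h2]
        · right; rw [h1, h2, neg_neg]
        · right; rw [h1, h2]
        · left; rw [h1, h2]
      rcases h4 with h4 | h4
      · left; exact g.injective h4
      · right; rw [← map_neg] at h4; exact g.injective h4
    have hne' : i.1 ≠ j.1 := fun h => hne (Fin.ext h)
    rcases lt_or_gt_of_ne hne' with hlt | hlt
    · have h5 := (List.pairwise_iff_getElem.1 hL) i.1 j.1 hi hj hlt
      rcases h3 with h3 | h3
      · exact h5.1 h3
      · exact h5.2 h3
    · have h5 := (List.pairwise_iff_getElem.1 hL) j.1 i.1 hj hi hlt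
      rcases h3 with h3 | h3
      · exact h5.1 h3.symm
      · exact h5.2 (by rw [h3, neg_neg])
  have hXE : Set.range e ⊆ M.E := by
    rintro _ ⟨i, rfl⟩
    exact heE i
  refine ⟨Set.range e, hXE, ?_, ?_⟩
  · rw [← Set.image_univ, Set.ncard_image_of_injective _ hinj, Set.ncard_univ, Nat.card_eq_fintype_card,
      Fintype.card_fin, hlen]
  · let φ : (M ↾ Set.range e).E ≃ (colMat 4 A).E :=
      (Equiv.ofInjective e hinj).symm.trans (Equiv.Set.univ _).symm
    have hφ : ∀ x : (M ↾ Set.range e).E, e ((φ x : (colMat 4 A).E) : Fin A.length) = (x : α) := by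
      intro x
      have := Equiv.apply_ofInjective_symm hinj x
      exact this
    refine iso_of_indep φ fun I => ?_
    have hJ : Subtype.val '' I = e '' (Subtype.val '' (φ '' I)) := by
      ext x
      constructor
      · rintro ⟨y, hy, rfl⟩
        exact ⟨_, ⟨_, ⟨y, hy, rfl⟩, rfl⟩, hφ y⟩
      · rintro ⟨_, ⟨_, ⟨y, hy, rfl⟩, rfl⟩, rfl⟩
        exact ⟨y, hy, (hφ y).symm⟩
    have hsub : Subtype.val '' I ⊆ Set.range e := by
      rintro _ ⟨y, _, rfl⟩
      exact y.2
    rw [Matroid.restrict_indep_iff, and_iff_left hsub, hv _ (hsub.trans hXE), hJ]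
    set J : Set (Fin A.length) := Subtype.val '' (φ '' I) with hJdef
    have h1 : LinearIndepOn (ZMod 3) v (e '' J) ↔ LinearIndepOn (ZMod 3) (v ∘ e) J :=
      ⟨fun h => h.comp_of_image hinj.injOn, fun h => h.image_of_comp _ _⟩
    have h2 : LinearIndepOn (ZMod 3) (v ∘ e) J ↔
        LinearIndepOn (ZMod 3) (fun i : Fin A.length => g (vec 4 (A.get i))) J :=
      (C3_units (fun i => he i) J).symm
    have h3 : LinearIndepOn (ZMod 3) (fun i : Fin A.length => g (vec 4 (A.get i))) J ↔
        LinearIndepOn (ZMod 3) (fun i : Fin A.length => vec 4 (A.get i)) J :=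
      LinearMap.linearIndependent_iff g.toLinearMap (LinearEquiv.ker g)
    rw [h1, h2, h3, colMat_indep]

end Pool.Agent.LibTR43
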