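import Pool.Agent.LibTR43.C1
import Pool.Agent.LibTR43.C3
import Pool.Agent.LibTR43.A1

/-!
[TR43 C4] The set of vectors of a simple matroid (cites C1 `rep_span`, C3 `iso_of_emb`). `v e ≠ 0` for `e ∈ M.E` (`M.Indep {e, e}`), `v e ≠ ± v f` for `e ≠ f` (`M.Indep {e, f}`).
So `TT M v` has `2 |M.E|` elements (the map `M.E × {1, -1} → V4` is injective: `v e = - v e` gives `2 v e = 0`, `v e = 0`), it is closed under negation, does not contain `0` and spans.
`free1`: `Emb M1L (TT M v)` gives by C3 a restriction isomorphic to `colMat 4 (M1L.map dig)`, and `M1L.map dig = E01.A` (`rfl` / `decide`); `Gd M1L`: `decide` (on codes, or directly).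
-/

set_option autoImplicit false

namespace Pool.Agent.LibTR43

open Pool.Agent.H67Tern Set Matroid

private lemma C4_eq_neg {x : V4} (h : x = -x) : x = 0 := by
  funext i
  have h1 : x i = -(x i) := congrFun h i
  have h2 : ∀ y : ZMod 3, y = -y → y = 0 := by decide
  exact h2 _ h1

private lemma C4_ne_zero {α : Type*} {M : Matroid α} (hs : Simple M) {v : α → V4} (hv : RepBy M 4 v)
    {e : α} (he : e ∈ M.E) : v e ≠ 0 := by
  have h1 : M.Indep {e, e} := hs e he e he
  have h2 : LinearIndepOn (ZMod 3) v {e, e} := (hv _ h1.subset_ground).1 h1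
  exact h2.ne_zero (by simp)

private lemma C4_pair {α : Type*} {M : Matroid α} (hs : Simple M) {v : α → V4} (hv : RepBy M 4 v)
    {e f : α} (he : e ∈ M.E) (hf : f ∈ M.E) (hef : e ≠ f) : v e ≠ v f ∧ v e ≠ -v f := by
  have h1 : M.Indep {e, f} := hs e he f hf
  have h2 : LinearIndepOn (ZMod 3) v {e, f} := (hv _ h1.subset_ground).1 h1
  rw [LinearIndepOn.pair_iff _ hef] at h2
  constructor
  · intro h
    have h3 := h2 1 (-1) (by rw [h]; simp)
    exact absurd h3.1 (by decide)
  · intro h
    have h3 := h2 1 1 (by rw [h]; simp)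
    exact absurd h3.1 (by decide)

private lemma C4_gd1 : Gd M1L := by
  unfold Gd M1L
  decide +kernel

private lemma C4_gd2 : Gd M2L := by
  unfold Gd M2L
  decide +kernel

private lemma C4_map1 : M1L.map dig = E01.A := by decide

private lemma C4_map2 : M2L.map dig = E02.A := by decide

theorem adm_of {α : Type*} {M : Matroid α} [M.Finite] (hs : Simple M) {v : α → V4} (hv : RepBy M 4 v)
    (hr : M.eRank = 4) (hF : Free M) : Adm (TT M v) ∧ (TT M v).ncard = 2 * M.E.ncard := by
  have hneg : ∀ w ∈ TT M v, -w ∈ TT M v := by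
    rintro w ⟨e, he, h | h⟩
    · exact ⟨e, he, Or.inr (by rw [h])⟩
    · exact ⟨e, he, Or.inl (by rw [h, neg_neg])⟩
  refine ⟨⟨?_, hneg, ?_, ?_, ?_⟩, ?_⟩
  · rintro ⟨e, he, h | h⟩
    · exact C4_ne_zero hs hv he h.symm
    · exact C4_ne_zero hs hv he (neg_eq_zero.1 h.symm)
  · have h1 : Submodule.span (ZMod 3) (v '' M.E) = ⊤ := rep_span hv (by rw [hr]; norm_num)
    refine eq_top_iff.2 ?_
    rw [← h1]
    refine Submodule.span_mono ?_
    rintro _ ⟨e, he, rfl⟩
    exact ⟨e, he, Or.inl rfl⟩
  · intro hemb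
    obtain ⟨X, hX, -, hiso⟩ := iso_of_emb hv C4_gd1 hemb
    rw [C4_map1] at hiso
    exact (hF X hX).1 hiso
  · intro hemb
    obtain ⟨X, hX, -, hiso⟩ := iso_of_emb hv C4_gd2 hemb
    rw [C4_map2] at hiso
    exact (hF X hX).2 hiso
  · have hU : TT M v = (v '' M.E) ∪ ((fun e => -v e) '' M.E) := by
      ext w
      constructor
      · rintro ⟨e, he, h | h⟩
        · exact Or.inl ⟨e, he, h.symm⟩
        · exact Or.inr ⟨e, he, h.symm⟩
      · rintro (⟨e, he, rfl⟩ | ⟨e, he, rfl⟩)
        · exact ⟨e, he, Or.inl rfl⟩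
        · exact ⟨e, he, Or.inr rfl⟩
    have hfin : M.E.Finite := M.ground_finite
    have hinj : Set.InjOn v M.E := by
      intro e he f hf h
      by_contra hef
      exact (C4_pair hs hv he hf hef).1 h
    have hinj' : Set.InjOn (fun e => -v e) M.E := by
      intro e he f hf h
      exact hinj he hf (neg_injective h)
    have hdisj : Disjoint (v '' M.E) ((fun e => -v e) '' M.E) := by
      rw [Set.disjoint_left]
      rintro _ ⟨e, he, rfl⟩ ⟨f, hf, h⟩
      have h' : v e = -v f := h.symm
      by_cases hef : e = f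
      · subst hef
        exact C4_ne_zero hs hv he (C4_eq_neg h')
      · exact (C4_pair hs hv he hf hef).2 h'
    rw [hU, Set.ncard_union_eq hdisj (hfin.image _) (hfin.image _), Set.ncard_image_of_injOn hinj,
      Set.ncard_image_of_injOn hinj']
    omega

end Pool.Agent.LibTR43
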