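import Pool.Agent.LibTR43.C4
import Pool.Agent.LibTR43.A3

/-!
[TR43 C5] Negative correlation in rank four, given the enumeration `hE` (cites C1 `exists_rep`, C2, C3, C4, A3 `adm_card`). `exists_rep` with `r = 4`, `adm_of`, `hE n` with
`2 n = (TT M v).ncard = 2 |M.E|`: some `R`, `Good n R`, `Emb R (TT M v)`; `iso_of_emb`: `X ⊆ M.E` with `n = |M.E|` elements, so `X = M.E` and `M ↾ M.E = M`
(`Matroid.restrict_ground_eq_self`); `negCorr_iso`.
-/

set_option autoImplicit false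

namespace Pool.Agent.LibTR43

open Pool.Agent.H67Tern Set Matroid

theorem negCorr_rank4 (hE : ∀ n, 4 ≤ n → ∃ Rs, Cov n Rs ∧ (∀ R ∈ Rs, Good n R) ∧ (17 ≤ n → Rs = []))
    {α : Type*} {M : Matroid α} [M.Finite] (ht : Ternary M) (hs : Simple M) (hr : M.eRank = 4) (hF : Free M) :
    NegCorr M ∧ M.E.ncard ≤ 16 := by
  obtain ⟨v, hv⟩ := exists_rep ht (r := 4) (by rw [hr]; norm_num)
  obtain ⟨hadm, hcard⟩ := adm_of hs hv hr hF
  obtain ⟨n, hn4, hn⟩ := adm_card hadm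
  obtain ⟨Rs, hcov, hgood, h17⟩ := hE n hn4
  obtain ⟨R, hR, hemb⟩ := hcov _ hadm hn
  obtain ⟨hlen, hgd, hnc⟩ := hgood R hR
  obtain ⟨X, hX, hXc, hiso⟩ := iso_of_emb hv hgd hemb
  have hnE : M.E.ncard = n := by omega
  have hXE : X = M.E := by
    refine Set.eq_of_subset_of_ncard_le hX ?_ M.ground_finite
    omega
  subst hXE
  rw [Matroid.restrict_ground_eq_self] at hiso
  refine ⟨negCorr_iso hiso hnc, ?_⟩
  by_contra hcon
  have h := h17 (by omega)
  rw [h] at hR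
  simp at hR

end Pool.Agent.LibTR43
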