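import Pool.Agent.LibTR43.Defs

/-!
[TR43 D1] Double counting of bases. `M` finite of rank `r`; for `U` finite, `U ⊆ M.E`, count the pairs `(x, B)` with `x ∈ B \ U`, `B` a basis containing `U`:
`∑_{x ∈ E \ U} nb M (insert x U) ∅ = (r - |U|) nb M U ∅`.
-/

set_option autoImplicit false

namespace Pool.Agent.LibTR43

open Pool.Agent.H67Tern Set Matroid

open Classical in
private theorem d1_nb {α : Type*} {M : Matroid α} {E : Finset α} (hE : (E : Set α) = M.E) (W : Set α) :
    nb M W ∅ = (E.powerset.filter fun B : Finset α => M.IsBase (B : Set α) ∧ W ⊆ (B : Set α)).card := by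
  unfold nb
  have h1 : {B : Set α | M.IsBase B ∧ W ⊆ B ∧ Disjoint (∅ : Set α) B} =
      (fun B : Finset α => (B : Set α)) ''
        ((E.powerset.filter fun B : Finset α => M.IsBase (B : Set α) ∧ W ⊆ (B : Set α) : Finset (Finset α)) :
          Set (Finset α)) := by
    ext B
    constructor
    · rintro ⟨hB, hW, -⟩
      have hBE : B ⊆ (E : Set α) := by
        rw [hE]
        exact hB.subset_ground
      have hfin : B.Finite := E.finite_toSet.subset hBE
      refine ⟨hfin.toFinset, ?_, hfin.coe_toFinset⟩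
      rw [Finset.mem_coe, Finset.mem_filter, Finset.mem_powerset, hfin.coe_toFinset]
      refine ⟨?_, hB, hW⟩
      intro x hx
      exact Finset.mem_coe.1 (hBE (hfin.mem_toFinset.1 hx))
    · rintro ⟨C, hC, rfl⟩
      obtain ⟨-, h2, h3⟩ := Finset.mem_filter.1 (Finset.mem_coe.1 hC)
      exact ⟨h2, h3, Set.empty_disjoint _⟩
  rw [h1, Set.ncard_image_of_injective _ Finset.coe_injective, Set.ncard_coe_finset]

open Classical in
theorem sum_nb {α : Type*} {M : Matroid α} [M.Finite] {r : ℕ} (hr : M.eRank = r) {E : Finset α} (hE : (E : Set α) = M.E)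
    {U : Finset α} (hU : U ⊆ E) :
    ∑ x ∈ E \ U, nb M (insert x (U : Set α)) ∅ + U.card * nb M (U : Set α) ∅ = r * nb M (U : Set α) ∅ := by
  set t := E.powerset.filter fun B : Finset α => M.IsBase (B : Set α) ∧ (U : Set α) ⊆ (B : Set α) with ht
  have hUt : nb M (U : Set α) ∅ = t.card := d1_nb hE _
  have h1 : ∀ x ∈ E \ U, nb M (insert x (U : Set α)) ∅ =
      (t.bipartiteAbove (fun (x : α) (B : Finset α) => x ∈ B) x).card := by
    intro x _
    rw [d1_nb hE]
    congr 1
    ext B
    rw [Finset.mem_filter, Finset.mem_bipartiteAbove, ht, Finset.mem_filter, Set.insert_subset_iff,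
      Finset.mem_coe]
    tauto
  rw [Finset.sum_congr rfl h1, Finset.sum_card_bipartiteAbove_eq_sum_card_bipartiteBelow, hUt]
  have h2 : ∀ B ∈ t, ((E \ U).bipartiteBelow (fun (x : α) (B : Finset α) => x ∈ B) B).card + U.card = r := by
    intro B hB
    rw [ht, Finset.mem_filter, Finset.mem_powerset] at hB
    obtain ⟨hBE, hbase, hUB⟩ := hB
    have hUB' : U ⊆ B := Finset.coe_subset.1 hUB
    have h3 : (E \ U).bipartiteBelow (fun (x : α) (B : Finset α) => x ∈ B) B = B \ U := by
      ext x
      rw [Finset.mem_bipartiteBelow, Finset.mem_sdiff, Finset.mem_sdiff]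
      exact ⟨fun h => ⟨h.2, h.1.2⟩, fun h => ⟨⟨hBE h.1, h.2⟩, h.1⟩⟩
    have h4 : B.card = r := by
      have h5 := hbase.encard_eq_eRank
      rw [hr, Set.encard_coe_eq_coe_finsetCard] at h5
      exact_mod_cast h5
    rw [h3, Finset.card_sdiff_add_card_eq_card hUB', h4]
  have h5 : ∑ B ∈ t, ((E \ U).bipartiteBelow (fun (x : α) (B : Finset α) => x ∈ B) B).card +
      U.card * t.card = ∑ B ∈ t, (((E \ U).bipartiteBelow (fun (x : α) (B : Finset α) => x ∈ B) B).card +
      U.card) := by
    rw [Finset.sum_add_distrib, Finset.sum_const, smul_eq_mul, mul_comm]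
  rw [h5, Finset.sum_congr rfl h2, Finset.sum_const, smul_eq_mul, mul_comm]

end Pool.Agent.LibTR43
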