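import Mathlib

/-!
[TR43 D2] The inequality for the nine points outside a line of the plane over `GF(3)`. `n i j ≥ 0`, `N = ∑ n`, `a_i = ∑_j n i j`, `c_j = ∑_i n i j`.
`∑_{p,q} n_p n_q [p_2 ≠ q_2] = 2 e₂(c)`, `∑ n_p n_q [p_1 ≠ q_1] = 2 e₂(a)`, `∑ n_p n_q n_r [p, q, r not collinear] = 6 t₃`. Every triple of points in different rows and columns is
collinear; with `T₃` the sum of `n_p n_q n_r` over the six (unordered) such triples: `4 (e₂(a) e₂(c) - N t₃) = ∑_{i,j} (N n_ij - a_i c_j)² + 6 N T₃` (checked by computer), so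
`3 (2 e₂(a)) (2 e₂(c)) - 2 N (6 t₃) = 3 ∑ (N n_ij - a_i c_j)² + 18 N T₃ ≥ 0`.
Expand the sums over `ZMod 3` (`Fintype.sum_prod_type`, `Fin.sum_univ_three` after `change`/`ZMod 3 = Fin 3`, `decide` for the conditions; e.g. first prove
`∀ F : ZMod 3 → ℤ, ∑ i, F i = F 0 + F 1 + F 2`), then `nlinarith` or `linear_combination` with explicit squares.
-/

set_option autoImplicit false

namespace Pool.Agent.LibTR43

/-- the area `det (q - p, r - p)` -/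
def ar (p q r : ZMod 3 × ZMod 3) : ZMod 3 :=
  (q.1 - p.1) * (r.2 - p.2) - (r.1 - p.1) * (q.2 - p.2)

private theorem d2_sum (F : ZMod 3 → ℤ) : ∑ i, F i = F 0 + F 1 + F 2 := Fin.sum_univ_three F

private theorem d2_sum2 (F : ZMod 3 × ZMod 3 → ℤ) : ∑ p, F p =
    F (0, 0) + F (0, 1) + F (0, 2) + (F (1, 0) + F (1, 1) + F (1, 2)) +
      (F (2, 0) + F (2, 1) + F (2, 2)) := by
  rw [Fintype.sum_prod_type, d2_sum, d2_sum, d2_sum, d2_sum]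

private theorem d2_poly (x00 x01 x02 x10 x11 x12 x20 x21 x22 : ℤ)
    (h00 : 0 ≤ x00) (h01 : 0 ≤ x01) (h02 : 0 ≤ x02) (h10 : 0 ≤ x10) (h11 : 0 ≤ x11) (h12 : 0 ≤ x12) (h20 : 0 ≤ x20) (h21 : 0 ≤ x21) (h22 : 0 ≤ x22) :
    2 * (x00 + x01 + x02 + x10 + x11 + x12 + x20 + x21 + x22) *
        ((x00 + x01 + x02 + x10 + x11 + x12 + x20 + x21 + x22) ^ 3 - ((x00 + x01 + x02) ^ 3 + (x00 + x10 + x20) ^ 3 + (x00 + x11 + x22) ^ 3 + (x00 + x12 + x21) ^ 3 + (x01 + x10 + x22) ^ 3 + (x01 + x11 + x21) ^ 3 + (x01 + x12 + x20) ^ 3 + (x02 + x10 + x21) ^ 3 + (x02 + x11 + x20) ^ 3 + (x02 + x12 + x22) ^ 3 + (x10 + x11 + x12) ^ 3 + (x20 + x21 + x22) ^ 3) + 3 * (x00 ^ 3 + x01 ^ 3 + x02 ^ 3 + x10 ^ 3 + x11 ^ 3 + x12 ^ 3 + x20 ^ 3 + x21 ^ 3 + x22 ^ 3)) ≤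
      3 * (2 * ((x00 + x01 + x02) * (x10 + x11 + x12) + (x00 + x01 + x02) * (x20 + x21 + x22) + (x10 + x11 + x12) * (x20 + x21 + x22))) *
        (2 * ((x00 + x10 + x20) * (x01 + x11 + x21) + (x00 + x10 + x20) * (x02 + x12 + x22) + (x01 + x11 + x21) * (x02 + x12 + x22))) := by
  have key : 3 * (2 * ((x00 + x01 + x02) * (x10 + x11 + x12) + (x00 + x01 + x02) * (x20 + x21 + x22) + (x10 + x11 + x12) * (x20 + x21 + x22))) *
        (2 * ((x00 + x10 + x20) * (x01 + x11 + x21) + (x00 + x10 + x20) * (x02 + x12 + x22) + (x01 + x11 + x21) * (x02 + x12 + x22))) -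
      2 * (x00 + x01 + x02 + x10 + x11 + x12 + x20 + x21 + x22) *
        ((x00 + x01 + x02 + x10 + x11 + x12 + x20 + x21 + x22) ^ 3 - ((x00 + x01 + x02) ^ 3 + (x00 + x10 + x20) ^ 3 + (x00 + x11 + x22) ^ 3 + (x00 + x12 + x21) ^ 3 + (x01 + x10 + x22) ^ 3 + (x01 + x11 + x21) ^ 3 + (x01 + x12 + x20) ^ 3 + (x02 + x10 + x21) ^ 3 + (x02 + x11 + x20) ^ 3 + (x02 + x12 + x22) ^ 3 + (x10 + x11 + x12) ^ 3 + (x20 + x21 + x22) ^ 3) + 3 * (x00 ^ 3 + x01 ^ 3 + x02 ^ 3 + x10 ^ 3 + x11 ^ 3 + x12 ^ 3 + x20 ^ 3 + x21 ^ 3 + x22 ^ 3)) =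
      3 * (((x00 + x01 + x02 + x10 + x11 + x12 + x20 + x21 + x22) * x00 - (x00 + x01 + x02) * (x00 + x10 + x20)) ^ 2 +
        ((x00 + x01 + x02 + x10 + x11 + x12 + x20 + x21 + x22) * x01 - (x00 + x01 + x02) * (x01 + x11 + x21)) ^ 2 +
        ((x00 + x01 + x02 + x10 + x11 + x12 + x20 + x21 + x22) * x02 - (x00 + x01 + x02) * (x02 + x12 + x22)) ^ 2 +
        ((x00 + x01 + x02 + x10 + x11 + x12 + x20 + x21 + x22) * x10 - (x10 + x11 + x12) * (x00 + x10 + x20)) ^ 2 +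
        ((x00 + x01 + x02 + x10 + x11 + x12 + x20 + x21 + x22) * x11 - (x10 + x11 + x12) * (x01 + x11 + x21)) ^ 2 +
        ((x00 + x01 + x02 + x10 + x11 + x12 + x20 + x21 + x22) * x12 - (x10 + x11 + x12) * (x02 + x12 + x22)) ^ 2 +
        ((x00 + x01 + x02 + x10 + x11 + x12 + x20 + x21 + x22) * x20 - (x20 + x21 + x22) * (x00 + x10 + x20)) ^ 2 +
        ((x00 + x01 + x02 + x10 + x11 + x12 + x20 + x21 + x22) * x21 - (x20 + x21 + x22) * (x01 + x11 + x21)) ^ 2 +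
        ((x00 + x01 + x02 + x10 + x11 + x12 + x20 + x21 + x22) * x22 - (x20 + x21 + x22) * (x02 + x12 + x22)) ^ 2) +
        18 * (x00 + x01 + x02 + x10 + x11 + x12 + x20 + x21 + x22) * (x00 * x11 * x22 + x00 * x12 * x21 + x01 * x10 * x22 + x01 * x12 * x20 + x02 * x10 * x21 + x02 * x11 * x20) := by
    ring
  have hpos : 0 ≤ 3 * (((x00 + x01 + x02 + x10 + x11 + x12 + x20 + x21 + x22) * x00 - (x00 + x01 + x02) * (x00 + x10 + x20)) ^ 2 +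
        ((x00 + x01 + x02 + x10 + x11 + x12 + x20 + x21 + x22) * x01 - (x00 + x01 + x02) * (x01 + x11 + x21)) ^ 2 +
        ((x00 + x01 + x02 + x10 + x11 + x12 + x20 + x21 + x22) * x02 - (x00 + x01 + x02) * (x02 + x12 + x22)) ^ 2 +
        ((x00 + x01 + x02 + x10 + x11 + x12 + x20 + x21 + x22) * x10 - (x10 + x11 + x12) * (x00 + x10 + x20)) ^ 2 +
        ((x00 + x01 + x02 + x10 + x11 + x12 + x20 + x21 + x22) * x11 - (x10 + x11 + x12) * (x01 + x11 + x21)) ^ 2 +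
        ((x00 + x01 + x02 + x10 + x11 + x12 + x20 + x21 + x22) * x12 - (x10 + x11 + x12) * (x02 + x12 + x22)) ^ 2 +
        ((x00 + x01 + x02 + x10 + x11 + x12 + x20 + x21 + x22) * x20 - (x20 + x21 + x22) * (x00 + x10 + x20)) ^ 2 +
        ((x00 + x01 + x02 + x10 + x11 + x12 + x20 + x21 + x22) * x21 - (x20 + x21 + x22) * (x01 + x11 + x21)) ^ 2 +
        ((x00 + x01 + x02 + x10 + x11 + x12 + x20 + x21 + x22) * x22 - (x20 + x21 + x22) * (x02 + x12 + x22)) ^ 2) +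
        18 * (x00 + x01 + x02 + x10 + x11 + x12 + x20 + x21 + x22) * (x00 * x11 * x22 + x00 * x12 * x21 + x01 * x10 * x22 + x01 * x12 * x20 + x02 * x10 * x21 + x02 * x11 * x20) := by
    positivity
  linarith

theorem nine (n : ZMod 3 × ZMod 3 → ℤ) (hn : ∀ p, 0 ≤ n p) :
    2 * (∑ p, n p) * (∑ p, ∑ q, ∑ r, if ar p q r ≠ 0 then n p * n q * n r else 0) ≤
      3 * (∑ p, ∑ q, if p.1 ≠ q.1 then n p * n q else 0) * (∑ p, ∑ q, if p.2 ≠ q.2 then n p * n q else 0) := by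
  have h1 : (∑ p, ∑ q, if p.1 ≠ q.1 then n p * n q else 0) =
      2 * ((n (0, 0) + n (0, 1) + n (0, 2)) * (n (1, 0) + n (1, 1) + n (1, 2)) + (n (0, 0) + n (0, 1) + n (0, 2)) * (n (2, 0) + n (2, 1) + n (2, 2)) + (n (1, 0) + n (1, 1) + n (1, 2)) * (n (2, 0) + n (2, 1) + n (2, 2))) := by
    simp only [d2_sum2]
    simp (decide := true) only [if_true, if_false]
    ring
  have h2 : (∑ p, ∑ q, if p.2 ≠ q.2 then n p * n q else 0) =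
      2 * ((n (0, 0) + n (1, 0) + n (2, 0)) * (n (0, 1) + n (1, 1) + n (2, 1)) + (n (0, 0) + n (1, 0) + n (2, 0)) * (n (0, 2) + n (1, 2) + n (2, 2)) + (n (0, 1) + n (1, 1) + n (2, 1)) * (n (0, 2) + n (1, 2) + n (2, 2))) := by
    simp only [d2_sum2]
    simp (decide := true) only [if_true, if_false]
    ring
  have h3 : (∑ p, ∑ q, ∑ r, if ar p q r ≠ 0 then n p * n q * n r else 0) =
      (n (0, 0) + n (0, 1) + n (0, 2) + n (1, 0) + n (1, 1) + n (1, 2) + n (2, 0) + n (2, 1) + n (2, 2)) ^ 3 - ((n (0, 0) + n (0, 1) + n (0, 2)) ^ 3 + (n (0, 0) + n (1, 0) + n (2, 0)) ^ 3 + (n (0, 0) + n (1, 1) + n (2, 2)) ^ 3 + (n (0, 0) + n (1, 2) + n (2, 1)) ^ 3 + (n (0, 1) + n (1, 0) + n (2, 2)) ^ 3 + (n (0, 1) + n (1, 1) + n (2, 1)) ^ 3 + (n (0, 1) + n (1, 2) + n (2, 0)) ^ 3 + (n (0, 2) + n (1, 0) + n (2, 1)) ^ 3 + (n (0, 2) + n (1, 1) + n (2, 0)) ^ 3 + (n (0, 2) + n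 (1, 2) + n (2, 2)) ^ 3 + (n (1, 0) + n (1, 1) + n (1, 2)) ^ 3 + (n (2, 0) + n (2, 1) + n (2, 2)) ^ 3) + 3 * (n (0, 0) ^ 3 + n (0, 1) ^ 3 + n (0, 2) ^ 3 + n (1, 0) ^ 3 + n (1, 1) ^ 3 + n (1, 2) ^ 3 + n (2, 0) ^ 3 + n (2, 1) ^ 3 + n (2, 2) ^ 3) := by
    simp only [d2_sum2]
    simp (decide := true) only [if_true, if_false]
    ring
  have h4 : ∑ p, n p = n (0, 0) + n (0, 1) + n (0, 2) + n (1, 0) + n (1, 1) + n (1, 2) + n (2, 0) +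
      n (2, 1) + n (2, 2) := by
    rw [d2_sum2]
    ring
  rw [h1, h2, h3, h4]
  exact d2_poly _ _ _ _ _ _ _ _ _ (hn (0, 0)) (hn (0, 1)) (hn (0, 2)) (hn (1, 0)) (hn (1, 1)) (hn (1, 2)) (hn (2, 0)) (hn (2, 1)) (hn (2, 2))

end Pool.Agent.LibTR43
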