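import Pool.Agent.LibTR43.D2

/-!
[TR43 D3] The inequality for families of vectors in `GF(3)^3` (cites D2 `nine`). `E` a finite set, `v : E → GF(3)^3`. `d1 x y = x_2 y_3 - x_3 y_2` (the determinant of `e_1, x, y`),
`d2 x y = x_1 y_3 - x_3 y_1` (of `e_2, x, y`, up to sign), `d x y z` the determinant. Split `E = L ∪ X`, `X`: third coordinate `≠ 0`; for `x ∈ X` put `p(x) = (x_1/x_3, x_2/x_3)`,
`ρ(x, y) = [p(x)_1 ≠ p(y)_1]`, `κ(x, y) = [p(x)_2 ≠ p(y)_2]`; on `X`: `d1 x y ≠ 0` iff `κ(x, y)`, `d2 x y ≠ 0` iff `ρ(x, y)`, `d x y z ≠ 0` iff `ar (p x) (p y) (p z) ≠ 0`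
(`d x y z = ± x_3 y_3 z_3 ar`). `L_e = {l ∈ L : l_2 ≠ 0}`, `L_f = {l ∈ L : l_1 ≠ 0}`, `N = |X|`. For `l ∈ L`, `x ∈ X`: `d1 l x ≠ 0` iff `l ∈ L_e`, `d2 l x ≠ 0` iff `l ∈ L_f`; for `l, l' ∈ L`: `d1 = d2 = 0`.
So `S_A = ∑_{E²} [d1 ≠ 0] = K + 2 N |L_e|`, `S_B = ∑_{E²} [d2 ≠ 0] = P + 2 N |L_f|` with `K = ∑_{X²} κ`, `P = ∑_{X²} ρ`, and
`S_D = ∑_{E³} [d ≠ 0] = XXX + 3 LXX + 3 LLX` (`LLL = 0`): `LLX = N ∑_{l, l'} [l_1 l'_2 ≠ l_2 l'_1] ≤ N * 2 |L_e| |L_f|` because `[l_1 l'_2 ≠ l_2 l'_1] ≤ [l_1 ≠ 0][l'_2 ≠ 0] + [l_2 ≠ 0][l'_1 ≠ 0]`;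
`LXX ≤ |L_f| K + |L_e| P`: for `l ∈ L`, `x, y ∈ X`: `d l x y ≠ 0` implies (`l_1 ≠ 0` and `κ`) or (`l_2 ≠ 0` and `ρ`), because `d l x y = ± x_3 y_3 (l_1 (p(y) - p(x))_2 - l_2 (p(y) - p(x))_1)`.
By `nine` (with `n_p` = number of `x ∈ X` with `p(x) = p`; `Finset.sum_comp`-like, `Finset.card_eq_sum_card_fiberwise`): `2 N XXX ≤ 3 K P`.
Total: `2 N S_D ≤ 3 K P + 6 N (|L_f| K + |L_e| P) + 12 N² |L_e| |L_f| = 3 (K + 2 N |L_e|)(P + 2 N |L_f|)`.
-/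

set_option autoImplicit false

namespace Pool.Agent.LibTR43

/-- the determinant of three vectors of `GF(3)^3` -/
def dt (x y z : Fin 3 → ZMod 3) : ZMod 3 :=
  x 0 * (y 1 * z 2 - y 2 * z 1) - x 1 * (y 0 * z 2 - y 2 * z 0) + x 2 * (y 0 * z 1 - y 1 * z 0)

/-- `[c ≠ 0]` -/
private def ch (c : ZMod 3) : ℤ := if c ≠ 0 then 1 else 0

/-- `[c = 0, b ≠ 0]` -/
private def el (b c : ZMod 3) : ℤ := if c = 0 ∧ b ≠ 0 then 1 else 0

private theorem ch_nonneg (c : ZMod 3) : 0 ≤ ch c := by unfold ch; split_ifs <;> norm_num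

private theorem el_nonneg (b c : ZMod 3) : 0 ≤ el b c := by unfold el; split_ifs <;> norm_num

private theorem pt1 : ∀ b c b' c' : ZMod 3, (if b * c' - c * b' ≠ 0 then (1 : ℤ) else 0) =
    ch c * (ch c' * (if b * c ≠ b' * c' then 1 else 0)) + el b c * ch c' + ch c * el b' c' := by
  decide +kernel

private theorem pt3 : ∀ a b c a' b' c' a'' b'' c'' : ZMod 3,
    (if a * (b' * c'' - c' * b'') - b * (a' * c'' - c' * a'') + c * (a' * b'' - b' * a'') ≠ 0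
      then (1 : ℤ) else 0) ≤
    ch c * (ch c' * (ch c'' * (if ar (a * c, b * c) (a' * c', b' * c') (a'' * c'', b'' * c'') ≠ 0 then 1 else 0)))
    + (el a c * (ch c' * (ch c'' * (if b' * c' ≠ b'' * c'' then 1 else 0)))
      + el b c * (ch c' * (ch c'' * (if a' * c' ≠ a'' * c'' then 1 else 0))))
    + (el a' c' * (ch c * (ch c'' * (if b * c ≠ b'' * c'' then 1 else 0)))
      + el b' c' * (ch c * (ch c'' * (if a * c ≠ a'' * c'' then 1 else 0))))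
    + (el a'' c'' * (ch c * (ch c' * (if b * c ≠ b' * c' then 1 else 0)))
      + el b'' c'' * (ch c * (ch c' * (if a * c ≠ a' * c' then 1 else 0))))
    + ch c * (el a' c' * el b'' c'' + el b' c' * el a'' c'')
    + ch c' * (el a c * el b'' c'' + el b c * el a'' c'')
    + ch c'' * (el a c * el b' c' + el b c * el a' c') := by
  decide +kernel

private theorem key {α : Type*} (E : Finset α) (χ : α → ℤ) (P : α → ZMod 3 × ZMod 3)
    (G : ZMod 3 × ZMod 3 → ℤ) :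
    ∑ p, (∑ x ∈ E, if P x = p then χ x else 0) * G p = ∑ x ∈ E, χ x * G (P x) := by
  simp only [Finset.sum_mul]
  rw [Finset.sum_comm]
  refine Finset.sum_congr rfl fun x _ => ?_
  simp [ite_mul]

private theorem s1 {α : Type*} (E : Finset α) (u : α → ℤ) (w : α → α → ℤ) :
    ∑ x ∈ E, ∑ y ∈ E, ∑ z ∈ E, u x * w y z = (∑ x ∈ E, u x) * ∑ y ∈ E, ∑ z ∈ E, w y z := by
  simp only [← Finset.mul_sum, ← Finset.sum_mul]

private theorem s2 {α : Type*} (E : Finset α) (u : α → ℤ) (w : α → α → ℤ) :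
    ∑ x ∈ E, ∑ y ∈ E, ∑ z ∈ E, u y * w x z = (∑ x ∈ E, u x) * ∑ y ∈ E, ∑ z ∈ E, w y z := by
  simp only [← Finset.mul_sum, ← Finset.sum_mul]

private theorem s3 {α : Type*} (E : Finset α) (u : α → ℤ) (w : α → α → ℤ) :
    ∑ x ∈ E, ∑ y ∈ E, ∑ z ∈ E, u z * w x y = (∑ x ∈ E, u x) * ∑ y ∈ E, ∑ z ∈ E, w y z := by
  simp only [← Finset.mul_sum, ← Finset.sum_mul]

private theorem two (N Ne Nf K P T D : ℤ) (hN : 0 ≤ N)
    (h9 : 2 * N * T ≤ 3 * P * K)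
    (hD : D ≤ T + (Nf * K + Ne * P) + (Nf * K + Ne * P) + (Nf * K + Ne * P) +
      N * (2 * (Nf * Ne)) + N * (2 * (Nf * Ne)) + N * (2 * (Nf * Ne))) :
    2 * N * D ≤ 3 * (K + Ne * N + N * Ne) * (P + Nf * N + N * Nf) := by
  have h := mul_le_mul_of_nonneg_left hD (by linarith : (0 : ℤ) ≤ 2 * N)
  nlinarith [h, h9]

open Classical in
theorem fam3 {α : Type*} (E : Finset α) (v : α → Fin 3 → ZMod 3) :
    2 * (∑ x ∈ E, if v x 2 ≠ 0 then (1 : ℤ) else 0) * (∑ x ∈ E, ∑ y ∈ E, ∑ z ∈ E, if dt (v x) (v y) (v z) ≠ 0 then (1 : ℤ) else 0) ≤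
      3 * (∑ x ∈ E, ∑ y ∈ E, if v x 1 * v y 2 - v x 2 * v y 1 ≠ 0 then (1 : ℤ) else 0) *
        (∑ x ∈ E, ∑ y ∈ E, if v x 0 * v y 2 - v x 2 * v y 0 ≠ 0 then (1 : ℤ) else 0) := by
  set χ : α → ℤ := fun x => ch (v x 2) with hχ
  set e : α → ℤ := fun x => el (v x 1) (v x 2) with he
  set f : α → ℤ := fun x => el (v x 0) (v x 2) with hf
  let P : α → ZMod 3 × ZMod 3 := fun x => (v x 0 * v x 2, v x 1 * v x 2)
  obtain ⟨n, hn, k⟩ : ∃ n : ZMod 3 × ZMod 3 → ℤ, (∀ p, 0 ≤ n p) ∧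
      ∀ G : ZMod 3 × ZMod 3 → ℤ, ∑ p, n p * G p = ∑ x ∈ E, χ x * G (P x) := by
    refine ⟨fun p => ∑ x ∈ E, if P x = p then χ x else 0,
      fun p => Finset.sum_nonneg fun x _ => ?_, key E χ P⟩
    split_ifs
    · exact ch_nonneg _
    · exact le_rfl
  have h9 := nine n hn
  have e1 : ∑ p, n p = ∑ x ∈ E, χ x := by
    have := k fun _ => 1
    simpa using this
  have e2 : (∑ p, ∑ q, if p.1 ≠ q.1 then n p * n q else 0) =
      ∑ x ∈ E, ∑ y ∈ E, χ x * (χ y * (if v x 0 * v x 2 ≠ v y 0 * v y 2 then 1 else 0)) := by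
    have : ∀ p : ZMod 3 × ZMod 3, (∑ q : ZMod 3 × ZMod 3, if p.1 ≠ q.1 then n p * n q else 0) =
        n p * ∑ y ∈ E, χ y * (if p.1 ≠ (P y).1 then 1 else 0) := by
      intro p
      rw [← k fun q => if p.1 ≠ q.1 then 1 else 0, Finset.mul_sum]
      refine Finset.sum_congr rfl fun q _ => ?_
      split_ifs <;> ring
    simp only [this]
    rw [k fun p => ∑ y ∈ E, χ y * (if p.1 ≠ (P y).1 then 1 else 0)]
    simp only [Finset.mul_sum, P]
  have e3 : (∑ p, ∑ q, if p.2 ≠ q.2 then n p * n q else 0) =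
      ∑ x ∈ E, ∑ y ∈ E, χ x * (χ y * (if v x 1 * v x 2 ≠ v y 1 * v y 2 then 1 else 0)) := by
    have : ∀ p : ZMod 3 × ZMod 3, (∑ q : ZMod 3 × ZMod 3, if p.2 ≠ q.2 then n p * n q else 0) =
        n p * ∑ y ∈ E, χ y * (if p.2 ≠ (P y).2 then 1 else 0) := by
      intro p
      rw [← k fun q => if p.2 ≠ q.2 then 1 else 0, Finset.mul_sum]
      refine Finset.sum_congr rfl fun q _ => ?_
      split_ifs <;> ring
    simp only [this]
    rw [k fun p => ∑ y ∈ E, χ y * (if p.2 ≠ (P y).2 then 1 else 0)]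
    simp only [Finset.mul_sum, P]
  have e4 : (∑ p, ∑ q, ∑ r, if ar p q r ≠ 0 then n p * n q * n r else 0) =
      ∑ x ∈ E, ∑ y ∈ E, ∑ z ∈ E, χ x * (χ y * (χ z * (if ar (P x) (P y) (P z) ≠ 0 then 1 else 0))) := by
    have h1 : ∀ p q : ZMod 3 × ZMod 3, (∑ r, if ar p q r ≠ 0 then n p * n q * n r else 0) =
        n p * (n q * ∑ z ∈ E, χ z * (if ar p q (P z) ≠ 0 then 1 else 0)) := by
      intro p q
      rw [← k fun r => if ar p q r ≠ 0 then 1 else 0, ← mul_assoc, Finset.mul_sum]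
      refine Finset.sum_congr rfl fun r _ => ?_
      split_ifs <;> ring
    simp only [h1, ← Finset.mul_sum]
    rw [k fun p => ∑ q, n q * ∑ z ∈ E, χ z * (if ar p q (P z) ≠ 0 then 1 else 0)]
    refine Finset.sum_congr rfl fun x _ => ?_
    rw [k fun q => ∑ z ∈ E, χ z * (if ar (P x) q (P z) ≠ 0 then 1 else 0)]
  rw [e1, e2, e3, e4] at h9
  have e5 : (∑ x ∈ E, if v x 2 ≠ 0 then (1 : ℤ) else 0) = ∑ x ∈ E, χ x := rfl
  have e6 : (∑ x ∈ E, ∑ y ∈ E, if v x 1 * v y 2 - v x 2 * v y 1 ≠ 0 then (1 : ℤ) else 0) =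
      (∑ x ∈ E, ∑ y ∈ E, χ x * (χ y * (if v x 1 * v x 2 ≠ v y 1 * v y 2 then 1 else 0))) +
      (∑ x ∈ E, e x) * (∑ x ∈ E, χ x) + (∑ x ∈ E, χ x) * (∑ x ∈ E, e x) := by
    rw [Finset.sum_mul_sum, Finset.sum_mul_sum]
    simp only [← Finset.sum_add_distrib]
    refine Finset.sum_congr rfl fun x _ => Finset.sum_congr rfl fun y _ => ?_
    exact pt1 (v x 1) (v x 2) (v y 1) (v y 2)
  have e7 : (∑ x ∈ E, ∑ y ∈ E, if v x 0 * v y 2 - v x 2 * v y 0 ≠ 0 then (1 : ℤ) else 0) =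
      (∑ x ∈ E, ∑ y ∈ E, χ x * (χ y * (if v x 0 * v x 2 ≠ v y 0 * v y 2 then 1 else 0))) +
      (∑ x ∈ E, f x) * (∑ x ∈ E, χ x) + (∑ x ∈ E, χ x) * (∑ x ∈ E, f x) := by
    rw [Finset.sum_mul_sum, Finset.sum_mul_sum]
    simp only [← Finset.sum_add_distrib]
    refine Finset.sum_congr rfl fun x _ => Finset.sum_congr rfl fun y _ => ?_
    exact pt1 (v x 0) (v x 2) (v y 0) (v y 2)
  have hN : 0 ≤ ∑ x ∈ E, χ x := Finset.sum_nonneg fun x _ => ch_nonneg _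
  rw [e5, e6, e7]
  refine two _ _ _ _ _ _ _ hN h9 ?_
  calc (∑ x ∈ E, ∑ y ∈ E, ∑ z ∈ E, if dt (v x) (v y) (v z) ≠ 0 then (1 : ℤ) else 0)
      ≤ ∑ x ∈ E, ∑ y ∈ E, ∑ z ∈ E,
        (χ x * (χ y * (χ z * (if ar (P x) (P y) (P z) ≠ 0 then 1 else 0)))
        + (f x * (χ y * (χ z * (if v y 1 * v y 2 ≠ v z 1 * v z 2 then 1 else 0)))
          + e x * (χ y * (χ z * (if v y 0 * v y 2 ≠ v z 0 * v z 2 then 1 else 0))))
        + (f y * (χ x * (χ z * (if v x 1 * v x 2 ≠ v z 1 * v z 2 then 1 else 0)))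
          + e y * (χ x * (χ z * (if v x 0 * v x 2 ≠ v z 0 * v z 2 then 1 else 0))))
        + (f z * (χ x * (χ y * (if v x 1 * v x 2 ≠ v y 1 * v y 2 then 1 else 0)))
          + e z * (χ x * (χ y * (if v x 0 * v x 2 ≠ v y 0 * v y 2 then 1 else 0))))
        + χ x * (f y * e z + e y * f z)
        + χ y * (f x * e z + e x * f z)
        + χ z * (f x * e y + e x * f y)) :=
        Finset.sum_le_sum fun x _ => Finset.sum_le_sum fun y _ => Finset.sum_le_sum fun z _ =>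
          pt3 (v x 0) (v x 1) (v x 2) (v y 0) (v y 1) (v y 2) (v z 0) (v z 1) (v z 2)
    _ = _ := by
        have t1 := s1 E f fun y z => χ y * (χ z * (if v y 1 * v y 2 ≠ v z 1 * v z 2 then 1 else 0))
        have t2 := s1 E e fun y z => χ y * (χ z * (if v y 0 * v y 2 ≠ v z 0 * v z 2 then 1 else 0))
        have t3 := s2 E f fun y z => χ y * (χ z * (if v y 1 * v y 2 ≠ v z 1 * v z 2 then 1 else 0))
        have t4 := s2 E e fun y z => χ y * (χ z * (if v y 0 * v y 2 ≠ v z 0 * v z 2 then 1 else 0))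
        have t5 := s3 E f fun y z => χ y * (χ z * (if v y 1 * v y 2 ≠ v z 1 * v z 2 then 1 else 0))
        have t6 := s3 E e fun y z => χ y * (χ z * (if v y 0 * v y 2 ≠ v z 0 * v z 2 then 1 else 0))
        have t7 := s1 E χ fun y z => f y * e z + e y * f z
        have t8 := s2 E χ fun y z => f y * e z + e y * f z
        have t9 := s3 E χ fun y z => f y * e z + e y * f z
        have t10 : ∑ y ∈ E, ∑ z ∈ E, (f y * e z + e y * f z) =
            2 * ((∑ x ∈ E, f x) * (∑ x ∈ E, e x)) := by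
          simp only [Finset.sum_add_distrib]
          rw [← Finset.sum_mul_sum, ← Finset.sum_mul_sum]
          ring
        rw [t10] at t7 t8 t9
        simp only [Finset.sum_add_distrib] at t7 t8 t9 ⊢
        simp only [t1, t2, t3, t4, t5, t6, t7, t8, t9]

end Pool.Agent.LibTR43
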