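import Pool.Agent.LibTR43.C1
import Pool.Agent.LibTR43.D1
import Pool.Agent.LibTR43.D3

/-!
[TR43 D4] Rank three (cites C1 `exists_rep`, `rep_span`, D1 `sum_nb`, D3 `fam3`). `e ≠ f`. If `{e, f}` is not independent then `nb M {e, f} ∅ = 0` (a basis containing `e`, `f`
would be independent). Otherwise `v e`, `v f` are linearly independent; `Submodule.span (v '' M.E) = ⊤`, so there is a linear automorphism of `GF(3)^3` with `v e ↦ e_1`, `v f ↦ e_2` (extend to a
basis); replace `v` by its composition (`RepBy` is preserved). A set `{x, y, z}` is a basis iff `dt (v x) (v y) (v z) ≠ 0` (with `x, y, z` different; if two are equal `dt = 0`): by `sum_nb` three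
times `6 nb ∅ = ∑_{x,y,z} [dt ≠ 0]`, `2 nb {e} = ∑_{x,y} [dt e_1 x y ≠ 0]`, `dt e_1 x y = x_2 y_3 - x_3 y_2`, `2 nb {f} = ∑_{x,y} [dt e_2 x y ≠ 0]`, `nb {e, f} = ∑_x [x_3 ≠ 0]`.
`fam3` gives `2 nb{e,f} 6 nb ∅ ≤ 3 (2 nb{e}) (2 nb{f})`. (`dt x y z ≠ 0` iff linearly independent: `dt` is `Matrix.det` of the matrix with rows `x, y, z`, `Matrix.det_fin_three`,
`LinearIndependent` iff `det ≠ 0`: `Matrix.linearIndependent_rows_iff_isUnit` or `is_basis_iff_det`.)
-/

set_option autoImplicit false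

namespace Pool.Agent.LibTR43

open Pool.Agent.H67Tern Set Matroid

private theorem li_iff (a b c : Fin 3 → ZMod 3) :
    LinearIndependent (ZMod 3) ![a, b, c] ↔ dt a b c ≠ 0 := by
  have h1 : LinearIndependent (ZMod 3) (Matrix.of ![a, b, c]).row ↔ IsUnit (Matrix.of ![a, b, c]) :=
    Matrix.linearIndependent_rows_iff_isUnit
  have h2 : (Matrix.of ![a, b, c]).row = ![a, b, c] := rfl
  rw [h2] at h1
  rw [h1, Matrix.isUnit_iff_isUnit_det, isUnit_iff_ne_zero, Matrix.det_fin_three]
  have h3 : dt a b c = (Matrix.of ![a, b, c]) 0 0 * (Matrix.of ![a, b, c]) 1 1 * (Matrix.of ![a, b, c]) 2 2 -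
      (Matrix.of ![a, b, c]) 0 0 * (Matrix.of ![a, b, c]) 1 2 * (Matrix.of ![a, b, c]) 2 1 -
      (Matrix.of ![a, b, c]) 0 1 * (Matrix.of ![a, b, c]) 1 0 * (Matrix.of ![a, b, c]) 2 2 +
      (Matrix.of ![a, b, c]) 0 1 * (Matrix.of ![a, b, c]) 1 2 * (Matrix.of ![a, b, c]) 2 0 +
      (Matrix.of ![a, b, c]) 0 2 * (Matrix.of ![a, b, c]) 1 0 * (Matrix.of ![a, b, c]) 2 1 -
      (Matrix.of ![a, b, c]) 0 2 * (Matrix.of ![a, b, c]) 1 1 * (Matrix.of ![a, b, c]) 2 0 := by
    simp only [Matrix.of_apply, Matrix.cons_val_zero, Matrix.cons_val_one, Matrix.cons_val, dt]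
    ring
  rw [h3]

private theorem indep_iff {α : Type*} {M : Matroid α} {v : α → Fin 3 → ZMod 3} (hv : RepBy M 3 v)
    {x y z : α} (hx : x ∈ M.E) (hy : y ∈ M.E) (hz : z ∈ M.E) (hxy : x ≠ y) (hxz : x ≠ z) (hyz : y ≠ z) :
    M.Indep {x, y, z} ↔ dt (v x) (v y) (v z) ≠ 0 := by
  have hsub : ({x, y, z} : Set α) ⊆ M.E := by
    intro w hw
    rcases hw with rfl | rfl | rfl <;> assumption
  rw [hv _ hsub, ← li_iff]
  have hinj : Function.Injective ![x, y, z] := by
    intro i j hij
    fin_cases i <;> fin_cases j <;> simp_all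
  have hr : Set.range ![x, y, z] = {x, y, z} := by
    ext w
    simp only [Set.mem_range, Set.mem_insert_iff, Set.mem_singleton_iff]
    constructor
    · rintro ⟨i, rfl⟩
      fin_cases i <;> simp
    · rintro (rfl | rfl | rfl)
      · exact ⟨0, rfl⟩
      · exact ⟨1, rfl⟩
      · exact ⟨2, rfl⟩
  rw [← hr, linearIndepOn_range_iff hinj]
  have : v ∘ ![x, y, z] = ![v x, v y, v z] := by
    ext i j
    fin_cases i <;> rfl
  rw [this]

private theorem nb_zero_of_not_indep {α : Type*} {M : Matroid α} {U : Set α} (h : ¬ M.Indep U) :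
    nb M U ∅ = 0 := by
  unfold nb
  have : {B : Set α | M.IsBase B ∧ U ⊆ B ∧ Disjoint (∅ : Set α) B} = ∅ := by
    ext B
    simp only [Set.mem_setOf_eq, Set.mem_empty_iff_false, iff_false]
    rintro ⟨hB, hU, -⟩
    exact h (hB.indep.subset hU)
  rw [this, Set.ncard_empty]

private theorem nb_triple {α : Type*} {M : Matroid α} [M.Finite] (hr : M.eRank = 3)
    {v : α → Fin 3 → ZMod 3} (hv : RepBy M 3 v)
    {x y z : α} (hx : x ∈ M.E) (hy : y ∈ M.E) (hz : z ∈ M.E) (hxy : x ≠ y) (hxz : x ≠ z) (hyz : y ≠ z) :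
    nb M {x, y, z} ∅ = if dt (v x) (v y) (v z) ≠ 0 then 1 else 0 := by
  split_ifs with h
  · have hi : M.Indep {x, y, z} := (indep_iff hv hx hy hz hxy hxz hyz).2 h
    have hc : ({x, y, z} : Set α).encard = 3 := by
      rw [Set.encard_insert_of_notMem, Set.encard_pair hyz]
      · norm_num
      · simp [hxy, hxz]
    obtain ⟨B, hB, hsub⟩ := hi.exists_isBase_superset
    have hBc : B.encard = 3 := by rw [hB.encard_eq_eRank, hr]
    have hfin : B.Finite := Set.finite_of_encard_eq_coe hBc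
    have hBe : ({x, y, z} : Set α) = B :=
      hfin.eq_of_subset_of_encard_le' hsub (by rw [hBc, hc])
    have hbase : M.IsBase {x, y, z} := by rw [hBe]; exact hB
    unfold nb
    have : {B : Set α | M.IsBase B ∧ {x, y, z} ⊆ B ∧ Disjoint (∅ : Set α) B} = {{x, y, z}} := by
      ext C
      simp only [Set.mem_setOf_eq, Set.mem_singleton_iff]
      constructor
      · rintro ⟨hC, hs, -⟩
        exact (hbase.eq_of_subset_isBase hC hs).symm
      · rintro rfl
        exact ⟨hbase, subset_rfl, Set.empty_disjoint _⟩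
    rw [this, Set.ncard_singleton]
  · exact nb_zero_of_not_indep (fun hi => h ((indep_iff hv hx hy hz hxy hxz hyz).1 hi))

private theorem dt_self1 (a c : Fin 3 → ZMod 3) : dt a a c = 0 := by unfold dt; ring
private theorem dt_self2 (a c : Fin 3 → ZMod 3) : dt a c a = 0 := by unfold dt; ring
private theorem dt_self3 (a c : Fin 3 → ZMod 3) : dt c a a = 0 := by unfold dt; ring

open Classical in
private theorem s3 {α : Type*} {M : Matroid α} [M.Finite] (hr : M.eRank = 3)
    {v : α → Fin 3 → ZMod 3} (hv : RepBy M 3 v) {E : Finset α} (hE : (E : Set α) = M.E)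
    {x y : α} (hx : x ∈ E) (hy : y ∈ E) (hxy : x ≠ y) :
    ∑ z ∈ E, (if dt (v x) (v y) (v z) ≠ 0 then 1 else 0) = nb M {x, y} ∅ := by
  have hmem : ∀ {w : α}, w ∈ E → w ∈ M.E := fun {w} hw => by rw [← hE]; exact_mod_cast hw
  have hU : ({x, y} : Finset α) ⊆ E := by
    intro w hw
    simp only [Finset.mem_insert, Finset.mem_singleton] at hw
    rcases hw with rfl | rfl <;> assumption
  have h := sum_nb (r := 3) (by rw [hr]; rfl) hE hU
  rw [Finset.card_pair hxy] at h
  have hco : ((({x, y} : Finset α) : Finset α) : Set α) = {x, y} := by simp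
  rw [hco] at h
  have h1 : ∑ w ∈ E \ {x, y}, nb M (insert w ({x, y} : Set α)) ∅ =
      ∑ w ∈ E \ {x, y}, (if dt (v x) (v y) (v w) ≠ 0 then 1 else 0) := by
    apply Finset.sum_congr rfl
    intro w hw
    simp only [Finset.mem_sdiff, Finset.mem_insert, Finset.mem_singleton, not_or] at hw
    have : (insert w ({x, y} : Set α)) = {x, y, w} := by
      ext t
      simp only [Set.mem_insert_iff, Set.mem_singleton_iff]
      tauto
    rw [this]
    exact nb_triple hr hv (hmem hx) (hmem hy) (hmem hw.1) hxy (Ne.symm hw.2.1) (Ne.symm hw.2.2)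
  rw [h1] at h
  have h2 : ∑ z ∈ E, (if dt (v x) (v y) (v z) ≠ 0 then 1 else 0) =
      ∑ w ∈ E \ {x, y}, (if dt (v x) (v y) (v w) ≠ 0 then 1 else 0) := by
    symm
    apply Finset.sum_subset Finset.sdiff_subset
    intro w hw hw'
    simp only [Finset.mem_sdiff, Finset.mem_insert, Finset.mem_singleton, not_and, not_not] at hw'
    rcases hw' hw with rfl | rfl
    · rw [dt_self2]; simp
    · rw [dt_self3]; simp
  rw [h2]
  omega

open Classical in
private theorem s2 {α : Type*} {M : Matroid α} [M.Finite] (hr : M.eRank = 3)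
    {v : α → Fin 3 → ZMod 3} (hv : RepBy M 3 v) {E : Finset α} (hE : (E : Set α) = M.E)
    {x : α} (hx : x ∈ E) :
    ∑ y ∈ E, ∑ z ∈ E, (if dt (v x) (v y) (v z) ≠ 0 then 1 else 0) = 2 * nb M {x} ∅ := by
  have hU : ({x} : Finset α) ⊆ E := by simpa using hx
  have h := sum_nb (r := 3) (by rw [hr]; rfl) hE hU
  rw [Finset.card_singleton] at h
  have hco : ((({x} : Finset α) : Finset α) : Set α) = {x} := by simp
  rw [hco] at h
  have h1 : ∑ w ∈ E \ {x}, nb M (insert w ({x} : Set α)) ∅ =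
      ∑ w ∈ E \ {x}, ∑ z ∈ E, (if dt (v x) (v w) (v z) ≠ 0 then 1 else 0) := by
    apply Finset.sum_congr rfl
    intro w hw
    simp only [Finset.mem_sdiff, Finset.mem_singleton] at hw
    rw [s3 hr hv hE hx hw.1 (Ne.symm hw.2), Set.pair_comm]
  rw [h1] at h
  have h2 : ∑ y ∈ E, ∑ z ∈ E, (if dt (v x) (v y) (v z) ≠ 0 then 1 else 0) =
      ∑ w ∈ E \ {x}, ∑ z ∈ E, (if dt (v x) (v w) (v z) ≠ 0 then 1 else 0) := by
    symm
    apply Finset.sum_subset Finset.sdiff_subset
    intro w hw hw'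
    simp only [Finset.mem_sdiff, Finset.mem_singleton, not_and, not_not] at hw'
    obtain rfl := hw' hw
    apply Finset.sum_eq_zero
    intro z _
    rw [dt_self1]; simp
  rw [h2]
  omega

open Classical in
private theorem s1 {α : Type*} {M : Matroid α} [M.Finite] (hr : M.eRank = 3)
    {v : α → Fin 3 → ZMod 3} (hv : RepBy M 3 v) {E : Finset α} (hE : (E : Set α) = M.E) :
    ∑ x ∈ E, ∑ y ∈ E, ∑ z ∈ E, (if dt (v x) (v y) (v z) ≠ 0 then 1 else 0) = 6 * nb M ∅ ∅ := by
  have h := sum_nb (r := 3) (by rw [hr]; rfl) hE (Finset.empty_subset E)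
  rw [Finset.card_empty, Finset.sdiff_empty, Finset.coe_empty] at h
  have h1 : ∑ x ∈ E, ∑ y ∈ E, ∑ z ∈ E, (if dt (v x) (v y) (v z) ≠ 0 then 1 else 0) =
      ∑ x ∈ E, 2 * nb M (insert x (∅ : Set α)) ∅ := by
    apply Finset.sum_congr rfl
    intro x hx
    rw [s2 hr hv hE hx, insert_empty_eq]
  rw [h1, ← Finset.mul_sum]
  omega

/-- a linear automorphism which takes two independent vectors to the first two unit vectors -/
private theorem exists_auto {a b : Fin 3 → ZMod 3} (h : LinearIndependent (ZMod 3) ![a, b]) :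
    ∃ g : (Fin 3 → ZMod 3) ≃ₗ[ZMod 3] (Fin 3 → ZMod 3), g a = Pi.single 0 1 ∧ g b = Pi.single 1 1 := by
  obtain ⟨c, hc⟩ := exists_linearIndependent_snoc_of_lt_finrank h (by
    rw [Module.finrank_fin_fun]; norm_num)
  let B := basisOfLinearIndependentOfCardEqFinrank hc (by
    rw [Module.finrank_fin_fun, Fintype.card_fin])
  refine ⟨B.equivFun, ?_, ?_⟩
  · have h0 : B 0 = a := by
      simp only [B, coe_basisOfLinearIndependentOfCardEqFinrank]
      rfl
    rw [← h0]
    ext j
    rw [Module.Basis.equivFun_self]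
    simp [Pi.single_apply, eq_comm]
  · have h0 : B 1 = b := by
      simp only [B, coe_basisOfLinearIndependentOfCardEqFinrank]
      rfl
    rw [← h0]
    ext j
    rw [Module.Basis.equivFun_self]
    simp [Pi.single_apply, eq_comm]

private theorem repBy_comp {α : Type*} {M : Matroid α} {v : α → Fin 3 → ZMod 3} (hv : RepBy M 3 v)
    (g : (Fin 3 → ZMod 3) ≃ₗ[ZMod 3] (Fin 3 → ZMod 3)) : RepBy M 3 (fun x => g (v x)) := by
  intro I hI
  rw [hv I hI]
  unfold LinearIndepOn
  exact (LinearMap.linearIndependent_iff (v := fun x : I => v x) (g : (Fin 3 → ZMod 3) →ₗ[ZMod 3] (Fin 3 → ZMod 3))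
    (LinearMap.ker_eq_bot.2 g.injective)).symm

theorem negCorr_eq3 {α : Type*} {M : Matroid α} [M.Finite] (h : Ternary M) (hr : M.eRank = 3) : NegCorr M := by
  classical
  intro e he f hf hef
  by_cases hi : M.Indep {e, f}
  · obtain ⟨v₀, hv₀⟩ := exists_rep h hr.le
    have hsub : ({e, f} : Set α) ⊆ M.E := by
      intro w hw
      rcases hw with rfl | rfl <;> assumption
    have hli : LinearIndependent (ZMod 3) ![v₀ e, v₀ f] := by
      have h1 := (hv₀ _ hsub).1 hi
      have hinj : Function.Injective ![e, f] := by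
        intro i j hij
        fin_cases i <;> fin_cases j <;> simp_all
      have hrg : Set.range ![e, f] = {e, f} := by
        ext w
        simp only [Set.mem_range, Set.mem_insert_iff, Set.mem_singleton_iff]
        constructor
        · rintro ⟨i, rfl⟩
          fin_cases i <;> simp
        · rintro (rfl | rfl)
          · exact ⟨0, rfl⟩
          · exact ⟨1, rfl⟩
      rw [← hrg, linearIndepOn_range_iff hinj] at h1
      have : v₀ ∘ ![e, f] = ![v₀ e, v₀ f] := by
        ext i j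
        fin_cases i <;> rfl
      rwa [this] at h1
    obtain ⟨g, hge, hgf⟩ := exists_auto hli
    set v : α → Fin 3 → ZMod 3 := fun x => g (v₀ x) with hvdef
    have hv : RepBy M 3 v := repBy_comp hv₀ g
    have hve : v e = Pi.single 0 1 := hge
    have hvf : v f = Pi.single 1 1 := hgf
    let E : Finset α := M.ground_finite.toFinset
    have hE : (E : Set α) = M.E := by simp [E]
    have heE : e ∈ E := by simpa [E] using he
    have hfE : f ∈ E := by simpa [E] using hf
    have t1 := s1 hr hv hE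
    have t2 := s2 hr hv hE heE
    have t3 := s2 hr hv hE hfE
    have t4 := s3 hr hv hE heE hfE hef
    have d1 : ∀ a b : Fin 3 → ZMod 3, dt (v e) a b = a 1 * b 2 - a 2 * b 1 := by
      intro a b
      rw [hve]
      simp [dt]
    have d2 : ∀ a b : Fin 3 → ZMod 3, dt (v f) a b ≠ 0 ↔ a 0 * b 2 - a 2 * b 0 ≠ 0 := by
      intro a b
      rw [hvf]
      simp only [dt, Pi.single_apply]
      simp only [show (0 : Fin 3) ≠ 1 by decide, show (2 : Fin 3) ≠ 1 by decide, if_true, if_false]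
      rw [zero_mul, zero_mul, one_mul, zero_sub, add_zero, neg_ne_zero]
    have d3 : ∀ b : Fin 3 → ZMod 3, dt (v e) (v f) b = b 2 := by
      intro b
      rw [d1, hvf]
      simp
    have key := fam3 E v
    have k1 : (∑ x ∈ E, if v x 2 ≠ 0 then (1 : ℤ) else 0) = (nb M {e, f} ∅ : ℤ) := by
      rw [← t4]
      push_cast
      apply Finset.sum_congr rfl
      intro x _
      rw [d3]
    have k2 : (∑ x ∈ E, ∑ y ∈ E, if v x 1 * v y 2 - v x 2 * v y 1 ≠ 0 then (1 : ℤ) else 0) =
        2 * (nb M {e} ∅ : ℤ) := by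
      have : ((∑ y ∈ E, ∑ z ∈ E, (if dt (v e) (v y) (v z) ≠ 0 then 1 else 0) : ℕ) : ℤ) =
          2 * (nb M {e} ∅ : ℤ) := by rw [t2]; push_cast; ring
      rw [← this]
      push_cast
      apply Finset.sum_congr rfl
      intro x _
      apply Finset.sum_congr rfl
      intro y _
      rw [d1]
    have k3 : (∑ x ∈ E, ∑ y ∈ E, if v x 0 * v y 2 - v x 2 * v y 0 ≠ 0 then (1 : ℤ) else 0) =
        2 * (nb M {f} ∅ : ℤ) := by
      have : ((∑ y ∈ E, ∑ z ∈ E, (if dt (v f) (v y) (v z) ≠ 0 then 1 else 0) : ℕ) : ℤ) =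
          2 * (nb M {f} ∅ : ℤ) := by rw [t3]; push_cast; ring
      rw [← this]
      push_cast
      apply Finset.sum_congr rfl
      intro x _
      apply Finset.sum_congr rfl
      intro y _
      exact if_congr (d2 _ _).symm rfl rfl
    have k4 : (∑ x ∈ E, ∑ y ∈ E, ∑ z ∈ E, if dt (v x) (v y) (v z) ≠ 0 then (1 : ℤ) else 0) =
        6 * (nb M ∅ ∅ : ℤ) := by
      have : ((∑ x ∈ E, ∑ y ∈ E, ∑ z ∈ E, (if dt (v x) (v y) (v z) ≠ 0 then 1 else 0) : ℕ) : ℤ) =
          6 * (nb M ∅ ∅ : ℤ) := by rw [t1]; push_cast; ring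
      rw [← this]
      push_cast
      rfl
    rw [k1, k2, k3, k4] at key
    have : (nb M {e, f} ∅ : ℤ) * (nb M ∅ ∅ : ℤ) ≤ (nb M {e} ∅ : ℤ) * (nb M {f} ∅ : ℤ) := by
      linarith
    exact_mod_cast this
  · rw [nb_zero_of_not_indep hi, zero_mul]
    exact Nat.zero_le _

end Pool.Agent.LibTR43
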