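import Pool.Agent.LibTR43.C1

/-!
[TR43 D5] Rank at most two (no representation needed). `M` finite. Rank `≤ 1` (or `{e, f}` not independent): `nb M {e, f} ∅ = 0`. Rank `2`, `{e, f}` a basis: `nb M {e, f} ∅ = 1`, and `nb M ∅ ∅ ≤ nb M {e} ∅ * nb M {f} ∅`:
for a basis `B = {x, y}` there are `z ∈ B` and the other element `z'` with `{f, z}`, `{e, z'}` bases: if `{f, x}` and `{e, y}` are bases take `z = x`. Otherwise, say `{f, x}` is not a basis; then `x` is
parallel to `f` or equal to `f` (both nonloops), so `{e, x}` is a basis (parallel classes: `Matroid.closure`, or by basis exchange), and `{f, y}` is a basis because `{x, y}` is; take `z = y`, `z' = x`. Same if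
`{e, y}` is not a basis. The map `B ↦ ({e, z'}, {f, z})` is injective (`B = {z, z'}`; with `z' ≠ e` or so handled by `{e, z'} \ {e}`), so `nb ∅ ≤ nb {e} * nb {f}`. (Or: use a representation by vectors of
`GF(3)^2`, `exists_rep` in C1, with `v e = e_1`, `v f = e_2`.)
-/

set_option autoImplicit false

namespace Pool.Agent.LibTR43

open Pool.Agent.H67Tern Set Matroid

/-- removing `a` from the base `{a, b}` one may insert an element of the base `{x, y}` -/
private theorem d5_exch {α : Type*} {M : Matroid α} {a b x y : α} (hab : a ≠ b) (hC : M.IsBase {a, b})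
    (hB : M.IsBase {x, y}) (hax : a ≠ x) (hay : a ≠ y) : M.IsBase {x, b} ∨ M.IsBase {y, b} := by
  obtain ⟨z, hz, hz2⟩ := hC.exchange hB (e := a) ⟨by simp, by simp [hax, hay]⟩
  have h1 : ({a, b} : Set α) \ {a} = {b} := by
    ext t
    simp only [mem_sdiff, mem_insert_iff, mem_singleton_iff]
    constructor
    · rintro ⟨h | h, h'⟩
      · exact absurd h h'
      · exact h
    · rintro rfl
      exact ⟨Or.inr rfl, fun h => hab h.symm⟩
  rw [h1] at hz2
  rcases hz.1 with h | h
  · subst h
    exact Or.inl hz2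
  · rw [mem_singleton_iff] at h
    subst h
    exact Or.inr hz2

private theorem d5_ex2 {α : Type*} {M : Matroid α} {e f x y : α} (hef : e ≠ f) (hxy : x ≠ y) (hC : M.IsBase {e, f})
    (hB : M.IsBase {x, y}) : ∃ z z' : α, ({z, z'} : Set α) = {x, y} ∧ e ≠ z' ∧ M.IsBase {e, z'} ∧ f ≠ z ∧ M.IsBase {f, z} := by
  by_cases h1 : e = x
  · subst h1
    exact ⟨e, y, rfl, hxy, hB, hef.symm, by rwa [pair_comm]⟩
  by_cases h2 : e = y
  · subst h2
    exact ⟨e, x, pair_comm _ _, h1, by rwa [pair_comm], hef.symm, by rwa [pair_comm]⟩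
  by_cases h3 : f = x
  · subst h3
    exact ⟨y, f, pair_comm _ _, hef, hC, hxy, hB⟩
  by_cases h4 : f = y
  · subst h4
    exact ⟨x, f, rfl, hef, hC, h3, by rwa [pair_comm]⟩
  -- the general case: all four are different
  have key : ∀ x y : α, x ≠ y → M.IsBase {x, y} → e ≠ x → e ≠ y → f ≠ x → f ≠ y → M.IsBase {x, f} →
      ∃ z z' : α, ({z, z'} : Set α) = {x, y} ∧ e ≠ z' ∧ M.IsBase {e, z'} ∧ f ≠ z ∧ M.IsBase {f, z} := by
    intro x y hxy hB hex hey hfx hfy hxf
    by_cases h : M.IsBase {e, y}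
    · exact ⟨x, y, rfl, hey, h, hfx, by rwa [pair_comm]⟩
    · have hC' : M.IsBase {f, e} := by rwa [pair_comm]
      rcases d5_exch hef.symm hC' hB hfx hfy with h5 | h5
      · rcases d5_exch hxy hB hC hex.symm hfx.symm with h6 | h6
        · exact absurd h6 h
        · exact ⟨y, x, pair_comm _ _, hex, by rwa [pair_comm], hfy, h6⟩
      · exact absurd (by rwa [pair_comm]) h
  rcases d5_exch hef hC hB h1 h2 with h | h
  · exact key x y hxy hB h1 h2 h3 h4 h
  · obtain ⟨z, z', hz, hr⟩ := key y x hxy.symm (by rwa [pair_comm]) h2 h1 h4 h3 h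
    exact ⟨z, z', by rw [hz, pair_comm], hr⟩

theorem negCorr_le2 {α : Type*} {M : Matroid α} [M.Finite] (h : Ternary M) (hr : M.eRank ≤ 2) : NegCorr M := by
  classical
  intro e he f hf hef
  by_cases hb : ∃ B, M.IsBase B ∧ ({e, f} : Set α) ⊆ B
  swap
  · have h0 : nb M {e, f} ∅ = 0 := by
      unfold nb
      have : {B : Set α | M.IsBase B ∧ {e, f} ⊆ B ∧ Disjoint ∅ B} = ∅ := by
        ext B
        simp only [mem_setOf_eq, mem_empty_iff_false, iff_false]
        rintro ⟨h1, h2, _⟩
        exact hb ⟨B, h1, h2⟩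
      rw [this, ncard_empty]
    rw [h0, zero_mul]
    exact Nat.zero_le _
  · obtain ⟨B0, hB0, hsub⟩ := hb
    have hpair : ({e, f} : Set α).encard = 2 := encard_pair hef
    have heq : ∀ B, M.IsBase B → ({e, f} : Set α) ⊆ B → ({e, f} : Set α) = B := by
      intro B hB hs
      refine Set.Finite.eq_of_subset_of_encard_le (toFinite _) hs ?_
      rw [hpair, hB.encard_eq_eRank]
      exact hr
    have hC : M.IsBase {e, f} := by
      rw [heq B0 hB0 hsub]
      exact hB0
    have hrk : M.eRank = 2 := by rw [← hC.encard_eq_eRank, hpair]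
    have hfin : ∀ U : Set α, {B : Set α | M.IsBase B ∧ U ⊆ B ∧ Disjoint ∅ B}.Finite := fun U =>
      (M.ground_finite.powerset).subset fun B hB => hB.1.subset_ground
    have h1 : nb M {e, f} ∅ ≤ 1 := by
      unfold nb
      refine (ncard_le_ncard (t := {({e, f} : Set α)}) ?_ (finite_singleton _)).trans (by rw [ncard_singleton])
      rintro B ⟨hB, hs, _⟩
      exact (heq B hB hs).symm
    have hch : ∀ B : Set α, M.IsBase B → ∃ z z' : α, ({z, z'} : Set α) = B ∧ e ≠ z' ∧ M.IsBase {e, z'} ∧ f ≠ z ∧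
        M.IsBase {f, z} := by
      intro B hB
      obtain ⟨x, y, hxy, rfl⟩ := encard_eq_two.1 (hB.encard_eq_eRank.trans hrk)
      exact d5_ex2 hef hxy hC hB
    haveI : Nonempty α := ⟨e⟩
    choose! z z' hz using hch
    have h2 : nb M ∅ ∅ ≤ nb M {e} ∅ * nb M {f} ∅ := by
      unfold nb
      rw [← ncard_prod]
      refine ncard_le_ncard_of_injOn (fun B => (({e, z' B} : Set α), ({f, z B} : Set α))) ?_ ?_ ((hfin _).prod (hfin _))
      · rintro B ⟨hB, _, _⟩
        obtain ⟨_, _, h3, _, h5⟩ := hz B hB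
        exact ⟨⟨h3, by simp, by simp⟩, ⟨h5, by simp, by simp⟩⟩
      · rintro B ⟨hB, _, _⟩ B' ⟨hB', _, _⟩ hBB
        simp only [Prod.mk.injEq] at hBB
        obtain ⟨k1, k2, _, k4, _⟩ := hz B hB
        obtain ⟨m1, m2, _, m4, _⟩ := hz B' hB'
        have e1 : z' B = z' B' := by
          have : z' B ∈ ({e, z' B'} : Set α) := by rw [← hBB.1]; simp
          rcases this with h | h
          · exact absurd h.symm k2
          · exact h
        have e2 : z B = z B' := by
          have : z B ∈ ({f, z B'} : Set α) := by rw [← hBB.2]; simp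
          rcases this with h | h
          · exact absurd h.symm k4
          · exact h
        rw [← k1, ← m1, e1, e2]
    calc nb M {e, f} ∅ * nb M ∅ ∅ ≤ 1 * nb M ∅ ∅ := Nat.mul_le_mul_right _ h1
      _ = nb M ∅ ∅ := one_mul _
      _ ≤ _ := h2

end Pool.Agent.LibTR43
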