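import Pool.Agent.LibTR43.NCDefs
import Pool.Agent.H67Tern.E01
import Pool.Agent.H67Tern.E02

set_option autoImplicit false

/-!
# Ternary balanced matroids of rank at most four: definitions
-/

namespace Pool.Agent.LibTR43

open Pool.Agent.H67Tern Set Matroid

/-- `M` is simple: every set of at most two elements is independent -/
def Simple {α : Type*} (M : Matroid α) : Prop := ∀ e ∈ M.E, ∀ f ∈ M.E, M.Indep {e, f}

abbrev V4 : Type := Fin 4 → ZMod 3

/-- the matroid of the eight vectors `1000, 0100, 0010, 0001, 1100, 1010, 1001, 1111` (`49` bases) -/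
noncomputable abbrev M1 : Matroid (Fin E01.A.length) := colMat 4 E01.A

/-- the matroid of the eight vectors of `E02.A` (`52` bases) -/
noncomputable abbrev M2 : Matroid (Fin E02.A.length) := colMat 4 E02.A

/-- no restriction of `M` is isomorphic to `M1` or `M2` -/
def Free {α : Type*} (M : Matroid α) : Prop := ∀ X ⊆ M.E, ¬ Isomorphic (M ↾ X) M1 ∧ ¬ Isomorphic (M ↾ X) M2

/-- the codes of the columns of `E01.A` -/
def M1L : List ℕ := [1, 3, 9, 27, 4, 10, 28, 40]

/-- the codes of the columns of `E02.A` -/
def M2L : List ℕ := [1, 3, 9, 27, 4, 10, 34, 40]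

/-- the vectors with codes in `L` are mapped into `T` by a linear automorphism -/
def Emb (L : List ℕ) (T : Set V4) : Prop := ∃ g : V4 ≃ₗ[ZMod 3] V4, ∀ c ∈ L, g (dec c) ∈ T

/-- `T` is closed under negation, does not contain `0`, spans the space and contains no copy of `M1L`, `M2L` -/
structure Adm (T : Set V4) : Prop where
  zero : (0 : V4) ∉ T
  neg : ∀ v ∈ T, -v ∈ T
  span : Submodule.span (ZMod 3) T = ⊤
  free1 : ¬ Emb M1L T
  free2 : ¬ Emb M2L T

/-- every admissible set with `2 n` elements contains a copy of a member of `Rs` -/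
def Cov (n : ℕ) (Rs : List (List ℕ)) : Prop := ∀ T : Set V4, Adm T → T.ncard = 2 * n → ∃ R ∈ Rs, Emb R T

/-- the vectors with codes in `L` are pairwise different, also up to sign -/
def Gd (L : List ℕ) : Prop := L.Pairwise fun a b => dec a ≠ dec b ∧ dec a ≠ -dec b

/-- what is checked for the representatives -/
def Good (n : ℕ) (R : List ℕ) : Prop := R.length = n ∧ Gd R ∧ NegCorr (colMat 4 (R.map dig))

/-- `v` represents `M` -/
def RepBy {α : Type*} (M : Matroid α) (r : ℕ) (v : α → Fin r → ZMod 3) : Prop :=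
  ∀ I ⊆ M.E, (M.Indep I ↔ LinearIndepOn (ZMod 3) v I)

/-- the vectors `± v e` -/
def TT {α : Type*} (M : Matroid α) (v : α → V4) : Set V4 := {w | ∃ e ∈ M.E, w = v e ∨ w = -v e}

end Pool.Agent.LibTR43
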