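import Pool.Agent.LibTR43.Reps

/-!
[TR43] Certificate for the extensions of the representatives with `14` points (see `chkE` in `Enum.lean`).
-/

set_option autoImplicit false
set_option maxRecDepth 100000

namespace Pool.Agent.LibTR43

/-- the certificate -/
def ce14 : List (List ℕ × List (List ℕ)) :=
  [([1, 3, 4, 5, 9, 10, 11, 12, 13, 14, 15, 16, 17, 27], [[2, 1, 3, 9, 27, 1, 3, 9, 27], [2, 1, 3, 9, 54, 1, 3, 9, 54],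
 [2, 3, 1, 9, 27, 3, 1, 9, 27], [2, 4, 1, 9, 27, 3, 7, 9, 27], [2, 5, 1, 9, 27, 3, 4, 9, 27], [2, 3, 1, 9, 54, 3, 1,
 9, 54], [2, 5, 1, 9, 54, 3, 4, 9, 54], [2, 4, 1, 9, 54, 3, 7, 9, 54], [2, 9, 1, 3, 27, 3, 9, 1, 27], [2, 10, 1, 3,
 27, 3, 9, 7, 27], [2, 11, 1, 3, 27, 3, 9, 4, 27], [2, 12, 1, 3, 27, 3, 9, 19, 27], [2, 13, 1, 3, 27, 3, 9, 25, 27],
 [2, 14, 1, 3, 27, 3, 9, 22, 27], [2, 15, 1, 3, 27, 3, 9, 10, 27], [2, 16, 1, 3, 27, 3, 9, 16, 27], [2, 17, 1, 3, 27,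
 3, 9, 13, 27], [2, 9, 1, 3, 54, 3, 9, 1, 54], [2, 11, 1, 3, 54, 3, 9, 4, 54], [2, 10, 1, 3, 54, 3, 9, 7, 54], [2,
 15, 1, 3, 54, 3, 9, 10, 54], [2, 17, 1, 3, 54, 3, 9, 13, 54], [2, 16, 1, 3, 54, 3, 9, 16, 54], [2, 12, 1, 3, 54, 3,
 9, 19, 54], [2, 14, 1, 3, 54, 3, 9, 22, 54], [2, 13, 1, 3, 54, 3, 9, 25, 54]]), ([1, 3, 4, 5, 9, 10, 11, 12, 13, 14,
 15, 16, 27, 28], [[2, 1, 3, 9, 27, 1, 3, 9, 27], [3, 1, 3, 9, 27, 1, 3, 9, 27], [0, 1, 9, 24, 56, 1, 24, 3, 56], [0,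
 1, 18, 12, 27, 1, 12, 6, 27], [0, 1, 18, 13, 27, 1, 14, 6, 27], [0, 1, 18, 12, 56, 1, 12, 6, 56], [0, 1, 9, 24, 27,
 1, 24, 3, 27], [0, 1, 18, 13, 56, 1, 14, 6, 56], [0, 1, 3, 24, 56, 1, 3, 24, 56], [0, 1, 6, 12, 27, 1, 6, 12, 27],
 [0, 1, 6, 13, 27, 1, 6, 14, 27], [0, 1, 6, 18, 56, 1, 6, 18, 56], [0, 1, 3, 9, 27, 1, 3, 9, 27], [0, 1, 3, 10, 27,
 1, 3, 11, 27], [0, 1, 3, 18, 56, 1, 3, 18, 56], [0, 1, 6, 9, 27, 1, 6, 9, 27], [0, 1, 6, 10, 27, 1, 6, 11, 27], [0,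
 1, 6, 12, 56, 1, 6, 12, 56], [0, 1, 3, 24, 27, 1, 3, 24, 27], [0, 1, 6, 13, 56, 1, 6, 14, 56], [0, 1, 6, 9, 56, 1,
 6, 9, 56], [0, 1, 3, 18, 27, 1, 3, 18, 27], [0, 1, 6, 10, 56, 1, 6, 11, 56], [0, 1, 3, 9, 56, 1, 3, 9, 56], [0, 1,
 6, 18, 27, 1, 6, 18, 27], [0, 1, 3, 10, 56, 1, 3, 11, 56]]), ([1, 3, 5, 9, 10, 11, 12, 13, 14, 15, 16, 17, 27, 31],
 [[2, 4, 1, 9, 27, 3, 7, 9, 27], [0, 1, 18, 12, 27, 1, 12, 6, 27], [0, 1, 18, 13, 29, 1, 14, 6, 28], [0, 1, 18, 12,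
 62, 1, 12, 6, 80], [0, 1, 18, 13, 61, 1, 14, 6, 80], [0, 3, 18, 13, 33, 14, 1, 6, 28], [0, 3, 18, 13, 59, 14, 1, 6,
 80], [4, 1, 6, 9, 27, 1, 6, 9, 27], [0, 9, 2, 6, 72, 6, 18, 1, 56], [0, 10, 2, 6, 74, 6, 18, 4, 56], [0, 11, 2, 6,
 73, 6, 18, 7, 56], [0, 11, 1, 3, 78, 3, 9, 4, 80], [0, 9, 1, 3, 80, 3, 9, 1, 80], [0, 10, 1, 3, 79, 3, 9, 7, 80],
 [0, 14, 1, 3, 75, 3, 9, 22, 80], [0, 12, 1, 3, 77, 3, 9, 19, 80], [0, 13, 1, 3, 76, 3, 9, 25, 80], [0, 9, 1, 3, 45,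
 3, 9, 1, 28], [0, 11, 1, 3, 46, 3, 9, 4, 28], [0, 10, 1, 3, 47, 3, 9, 7, 28], [0, 10, 2, 6, 48, 6, 18, 4, 40], [0,
 9, 2, 6, 49, 6, 18, 1, 40], [0, 11, 2, 6, 50, 6, 18, 7, 40], [0, 12, 1, 3, 51, 3, 9, 19, 28], [0, 14, 1, 3, 52, 3,
 9, 22, 28], [0, 13, 1, 3, 53, 3, 9, 25, 28]]), ([1, 3, 4, 5, 9, 10, 11, 12, 13, 14, 15, 27, 28, 29], [[3, 1, 3, 9,
 27, 1, 3, 9, 27], [3, 1, 6, 18, 27, 1, 6, 18, 27], [0, 1, 9, 24, 56, 1, 24, 3, 56], [0, 1, 18, 12, 27, 1, 12, 6,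
 27], [0, 1, 9, 24, 54, 1, 24, 3, 54], [0, 1, 18, 12, 56, 1, 12, 6, 56], [0, 1, 9, 24, 27, 1, 24, 3, 27], [0, 1, 18,
 12, 54, 1, 12, 6, 54], [0, 1, 3, 24, 56, 1, 3, 24, 56], [0, 1, 6, 12, 27, 1, 6, 12, 27], [0, 1, 3, 24, 54, 1, 3, 24,
 54], [0, 1, 6, 18, 56, 1, 6, 18, 56], [0, 1, 3, 9, 27, 1, 3, 9, 27], [0, 1, 6, 18, 54, 1, 6, 18, 54], [0, 1, 3, 18,
 56, 1, 3, 18, 56], [0, 1, 6, 9, 27, 1, 6, 9, 27], [0, 1, 3, 18, 54, 1, 3, 18, 54], [0, 1, 6, 12, 56, 1, 6, 12, 56],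
 [0, 1, 3, 24, 27, 1, 3, 24, 27], [0, 1, 6, 12, 54, 1, 6, 12, 54], [0, 1, 6, 9, 56, 1, 6, 9, 56], [0, 1, 3, 18, 27,
 1, 3, 18, 27], [0, 1, 6, 9, 54, 1, 6, 9, 54], [0, 1, 3, 9, 56, 1, 3, 9, 56], [0, 1, 6, 18, 27, 1, 6, 18, 27], [0, 1,
 3, 9, 54, 1, 3, 9, 54]]), ([1, 3, 4, 5, 9, 10, 11, 12, 13, 15, 16, 27, 28, 29], [[3, 1, 3, 9, 27, 1, 3, 9, 27], [3,
 1, 6, 9, 27, 1, 6, 9, 27], [0, 1, 18, 12, 29, 1, 12, 6, 28], [0, 1, 18, 12, 27, 1, 12, 6, 27], [0, 1, 18, 12, 28, 1,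
 12, 6, 29], [0, 1, 18, 12, 56, 1, 12, 6, 56], [0, 1, 18, 12, 55, 1, 12, 6, 55], [0, 1, 18, 12, 54, 1, 12, 6, 54],
 [0, 1, 6, 12, 29, 1, 6, 12, 28], [0, 1, 6, 12, 27, 1, 6, 12, 27], [0, 1, 6, 12, 28, 1, 6, 12, 29], [0, 1, 6, 18, 56,
 1, 6, 18, 56], [0, 1, 3, 9, 27, 1, 3, 9, 27], [0, 1, 6, 18, 54, 1, 6, 18, 54], [0, 1, 3, 18, 56, 1, 3, 18, 56], [0,
 1, 6, 9, 27, 1, 6, 9, 27], [0, 1, 3, 18, 54, 1, 3, 18, 54], [0, 1, 6, 12, 56, 1, 6, 12, 56], [0, 1, 6, 12, 55, 1, 6,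
 12, 55], [0, 1, 6, 12, 54, 1, 6, 12, 54], [0, 1, 6, 9, 56, 1, 6, 9, 56], [0, 1, 3, 18, 27, 1, 3, 18, 27], [0, 1, 6,
 9, 54, 1, 6, 9, 54], [0, 1, 3, 9, 56, 1, 3, 9, 56], [0, 1, 6, 18, 27, 1, 6, 18, 27], [0, 1, 3, 9, 54, 1, 3, 9,
 54]]), ([1, 3, 4, 9, 10, 11, 12, 13, 14, 15, 16, 27, 32, 34], [[3, 5, 2, 9, 27, 6, 7, 9, 27], [4, 1, 3, 9, 27, 1, 3,
 9, 27], [0, 1, 9, 24, 27, 1, 24, 3, 27], [0, 1, 9, 24, 54, 1, 24, 3, 54], [0, 1, 9, 24, 32, 1, 24, 3, 40], [0, 1, 9,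
 24, 61, 1, 24, 3, 67], [0, 1, 9, 24, 59, 1, 24, 3, 80], [0, 1, 9, 24, 34, 1, 24, 3, 53], [0, 9, 2, 3, 72, 6, 9, 1,
 56], [0, 10, 2, 3, 74, 6, 9, 4, 56], [0, 11, 2, 3, 73, 6, 9, 7, 56], [0, 10, 2, 3, 78, 6, 9, 4, 80], [0, 11, 2, 3,
 80, 6, 9, 7, 80], [0, 9, 2, 3, 79, 6, 9, 1, 80], [0, 11, 2, 3, 75, 6, 9, 7, 68], [0, 9, 2, 3, 77, 6, 9, 1, 68], [0,
 10, 2, 3, 76, 6, 9, 4, 68], [0, 9, 2, 3, 45, 6, 9, 1, 28], [0, 11, 2, 3, 46, 6, 9, 7, 28], [0, 10, 2, 3, 47, 6, 9,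
 4, 28], [0, 11, 2, 3, 48, 6, 9, 7, 52], [0, 10, 2, 3, 49, 6, 9, 4, 52], [0, 9, 2, 3, 50, 6, 9, 1, 52], [0, 10, 2, 3,
 51, 6, 9, 4, 40], [0, 9, 2, 3, 52, 6, 9, 1, 40], [0, 11, 2, 3, 53, 6, 9, 7, 40]])]

theorem fst14 : ce14.map Prod.fst = reps14 := by decide +kernel

theorem chk14 : chkL (M1L :: M2L :: reps15) ce14 = true := by decide +kernel

end Pool.Agent.LibTR43
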