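import Pool.Agent.LibTR43.Reps

/-!
[TR43] Certificate for the extensions of the representatives with `15` points (see `chkE` in `Enum.lean`).
-/

set_option autoImplicit false
set_option maxRecDepth 100000

namespace Pool.Agent.LibTR43

/-- the certificate -/
def ce15 : List (List ℕ × List (List ℕ)) :=
  [([1, 3, 4, 5, 9, 10, 11, 12, 13, 14, 15, 16, 17, 27, 28], [[2, 1, 3, 9, 27, 1, 3, 9, 27], [0, 1, 9, 24, 56, 1, 24, 3,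
 56], [0, 1, 18, 12, 27, 1, 12, 6, 27], [0, 1, 18, 13, 27, 1, 14, 6, 27], [0, 1, 18, 12, 56, 1, 12, 6, 56], [0, 1, 9,
 24, 27, 1, 24, 3, 27], [0, 1, 18, 13, 56, 1, 14, 6, 56], [0, 1, 3, 24, 56, 1, 3, 24, 56], [0, 1, 6, 12, 27, 1, 6,
 12, 27], [0, 1, 6, 13, 27, 1, 6, 14, 27], [0, 1, 6, 18, 56, 1, 6, 18, 56], [0, 1, 3, 9, 27, 1, 3, 9, 27], [0, 1, 3,
 10, 27, 1, 3, 11, 27], [0, 1, 3, 18, 56, 1, 3, 18, 56], [0, 1, 6, 9, 27, 1, 6, 9, 27], [0, 1, 6, 10, 27, 1, 6, 11,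
 27], [0, 1, 6, 12, 56, 1, 6, 12, 56], [0, 1, 3, 24, 27, 1, 3, 24, 27], [0, 1, 6, 13, 56, 1, 6, 14, 56], [0, 1, 6, 9,
 56, 1, 6, 9, 56], [0, 1, 3, 18, 27, 1, 3, 18, 27], [0, 1, 6, 10, 56, 1, 6, 11, 56], [0, 1, 3, 9, 56, 1, 3, 9, 56],
 [0, 1, 6, 18, 27, 1, 6, 18, 27], [0, 1, 3, 10, 56, 1, 3, 11, 56]]), ([1, 3, 4, 5, 9, 10, 11, 12, 13, 14, 15, 16, 27,
 28, 29], [[2, 1, 3, 9, 27, 1, 3, 9, 27], [0, 1, 9, 24, 56, 1, 24, 3, 56], [0, 1, 18, 12, 27, 1, 12, 6, 27], [0, 1,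
 9, 24, 54, 1, 24, 3, 54], [0, 1, 18, 12, 56, 1, 12, 6, 56], [0, 1, 9, 24, 27, 1, 24, 3, 27], [0, 1, 18, 12, 54, 1,
 12, 6, 54], [0, 1, 3, 24, 56, 1, 3, 24, 56], [0, 1, 6, 12, 27, 1, 6, 12, 27], [0, 1, 3, 24, 54, 1, 3, 24, 54], [0,
 1, 6, 18, 56, 1, 6, 18, 56], [0, 1, 3, 9, 27, 1, 3, 9, 27], [0, 1, 6, 18, 54, 1, 6, 18, 54], [0, 1, 3, 18, 56, 1, 3,
 18, 56], [0, 1, 6, 9, 27, 1, 6, 9, 27], [0, 1, 3, 18, 54, 1, 3, 18, 54], [0, 1, 6, 12, 56, 1, 6, 12, 56], [0, 1, 3,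
 24, 27, 1, 3, 24, 27], [0, 1, 6, 12, 54, 1, 6, 12, 54], [0, 1, 6, 9, 56, 1, 6, 9, 56], [0, 1, 3, 18, 27, 1, 3, 18,
 27], [0, 1, 6, 9, 54, 1, 6, 9, 54], [0, 1, 3, 9, 56, 1, 3, 9, 56], [0, 1, 6, 18, 27, 1, 6, 18, 27], [0, 1, 3, 9, 54,
 1, 3, 9, 54]]), ([1, 3, 4, 9, 10, 11, 12, 13, 14, 15, 16, 17, 27, 32, 34], [[2, 5, 1, 9, 27, 3, 4, 9, 27], [0, 1, 9,
 24, 27, 1, 24, 3, 27], [0, 1, 9, 24, 54, 1, 24, 3, 54], [0, 1, 9, 24, 32, 1, 24, 3, 40], [0, 1, 9, 24, 61, 1, 24, 3,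
 67], [0, 1, 9, 24, 59, 1, 24, 3, 80], [0, 1, 9, 24, 34, 1, 24, 3, 53], [0, 9, 2, 3, 72, 6, 9, 1, 56], [0, 10, 2, 3,
 74, 6, 9, 4, 56], [0, 11, 2, 3, 73, 6, 9, 7, 56], [0, 10, 2, 3, 78, 6, 9, 4, 80], [0, 11, 2, 3, 80, 6, 9, 7, 80],
 [0, 9, 2, 3, 79, 6, 9, 1, 80], [0, 11, 2, 3, 75, 6, 9, 7, 68], [0, 9, 2, 3, 77, 6, 9, 1, 68], [0, 10, 2, 3, 76, 6,
 9, 4, 68], [0, 9, 2, 3, 45, 6, 9, 1, 28], [0, 11, 2, 3, 46, 6, 9, 7, 28], [0, 10, 2, 3, 47, 6, 9, 4, 28], [0, 11, 2,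
 3, 48, 6, 9, 7, 52], [0, 10, 2, 3, 49, 6, 9, 4, 52], [0, 9, 2, 3, 50, 6, 9, 1, 52], [0, 10, 2, 3, 51, 6, 9, 4, 40],
 [0, 9, 2, 3, 52, 6, 9, 1, 40], [0, 11, 2, 3, 53, 6, 9, 7, 40]])]

theorem fst15 : ce15.map Prod.fst = reps15 := by decide +kernel

theorem chk15 : chkL (M1L :: M2L :: reps16) ce15 = true := by decide +kernel

end Pool.Agent.LibTR43
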