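import Pool.Agent.LibTR43.Reps

/-!
[TR43] Certificate for the extensions of the representatives with `16` points (see `chkE` in `Enum.lean`).
-/

set_option autoImplicit false
set_option maxRecDepth 100000

namespace Pool.Agent.LibTR43

/-- the certificate -/
def ce16 : List (List ℕ × List (List ℕ)) :=
  [([1, 3, 4, 5, 9, 10, 11, 12, 13, 14, 15, 16, 17, 27, 28, 29], [[0, 1, 9, 24, 56, 1, 24, 3, 56], [0, 1, 18, 12, 27, 1,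
 12, 6, 27], [0, 1, 9, 24, 54, 1, 24, 3, 54], [0, 1, 18, 12, 56, 1, 12, 6, 56], [0, 1, 9, 24, 27, 1, 24, 3, 27], [0,
 1, 18, 12, 54, 1, 12, 6, 54], [0, 1, 3, 24, 56, 1, 3, 24, 56], [0, 1, 6, 12, 27, 1, 6, 12, 27], [0, 1, 3, 24, 54, 1,
 3, 24, 54], [0, 1, 6, 18, 56, 1, 6, 18, 56], [0, 1, 3, 9, 27, 1, 3, 9, 27], [0, 1, 6, 18, 54, 1, 6, 18, 54], [0, 1,
 3, 18, 56, 1, 3, 18, 56], [0, 1, 6, 9, 27, 1, 6, 9, 27], [0, 1, 3, 18, 54, 1, 3, 18, 54], [0, 1, 6, 12, 56, 1, 6,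
 12, 56], [0, 1, 3, 24, 27, 1, 3, 24, 27], [0, 1, 6, 12, 54, 1, 6, 12, 54], [0, 1, 6, 9, 56, 1, 6, 9, 56], [0, 1, 3,
 18, 27, 1, 3, 18, 27], [0, 1, 6, 9, 54, 1, 6, 9, 54], [0, 1, 3, 9, 56, 1, 3, 9, 56], [0, 1, 6, 18, 27, 1, 6, 18,
 27], [0, 1, 3, 9, 54, 1, 3, 9, 54]])]

theorem fst16 : ce16.map Prod.fst = reps16 := by decide +kernel

theorem chk16 : chkL (M1L :: M2L :: []) ce16 = true := by decide +kernel

end Pool.Agent.LibTR43
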