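import Pool.Agent.LibTR43.Reps

/-!
[TR43] Certificate for the extensions of the representatives with `4` points (see `chkE` in `Enum.lean`).
-/

set_option autoImplicit false
set_option maxRecDepth 100000

namespace Pool.Agent.LibTR43

/-- the certificate -/
def ce4 : List (List ℕ × List (List ℕ)) :=
  [([1, 3, 9, 27], [[2, 1, 3, 9, 27, 1, 3, 9, 27], [2, 1, 6, 9, 27, 1, 6, 9, 27], [2, 1, 9, 3, 27, 1, 9, 3, 27], [2, 1,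
 18, 3, 27, 1, 9, 6, 27], [2, 3, 9, 1, 27, 9, 1, 3, 27], [3, 1, 3, 9, 27, 1, 3, 9, 27], [3, 1, 6, 18, 27, 1, 6, 18,
 27], [2, 3, 18, 1, 27, 9, 1, 6, 27], [3, 1, 6, 9, 27, 1, 6, 9, 27], [3, 1, 3, 18, 27, 1, 3, 18, 27], [2, 1, 27, 3,
 9, 1, 9, 27, 3], [2, 1, 54, 3, 9, 1, 9, 27, 6], [2, 3, 27, 1, 9, 9, 1, 27, 3], [3, 1, 3, 27, 9, 1, 3, 27, 9], [3, 1,
 6, 54, 9, 1, 6, 27, 18], [2, 3, 54, 1, 9, 9, 1, 27, 6], [3, 1, 6, 27, 9, 1, 6, 27, 9], [3, 1, 3, 54, 9, 1, 3, 27,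
 18], [2, 9, 27, 1, 3, 9, 27, 1, 3], [3, 1, 9, 27, 3, 1, 27, 3, 9], [3, 1, 18, 54, 3, 1, 27, 6, 18], [3, 3, 9, 27, 1,
 27, 1, 3, 9], [4, 1, 3, 9, 27, 1, 3, 9, 27], [4, 1, 6, 18, 54, 1, 6, 18, 54], [3, 3, 18, 54, 1, 27, 1, 6, 18], [4,
 1, 6, 9, 27, 1, 6, 9, 27], [4, 1, 3, 18, 54, 1, 3, 18, 54], [2, 9, 54, 1, 3, 9, 27, 1, 6], [3, 1, 18, 27, 3, 1, 27,
 6, 9], [3, 1, 9, 54, 3, 1, 27, 3, 18], [3, 3, 18, 27, 1, 27, 1, 6, 9], [4, 1, 3, 18, 27, 1, 3, 18, 27], [4, 1, 6, 9,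
 54, 1, 6, 9, 54], [3, 3, 9, 54, 1, 27, 1, 3, 18], [4, 1, 6, 18, 27, 1, 6, 18, 27], [4, 1, 3, 9, 54, 1, 3, 9, 54]])]

theorem fst4 : ce4.map Prod.fst = reps4 := by decide +kernel

theorem chk4 : chkL (M1L :: M2L :: reps5) ce4 = true := by decide +kernel

end Pool.Agent.LibTR43
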