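import Pool.Agent.LibTR43.Reps

/-!
[TR43] Certificate for the extensions of the representatives with `5` points (see `chkE` in `Enum.lean`).
-/

set_option autoImplicit false
set_option maxRecDepth 100000

namespace Pool.Agent.LibTR43

/-- the certificate -/
def ce5 : List (List ℕ × List (List ℕ)) :=
  [([1, 3, 4, 9, 27], [[2, 1, 3, 9, 27, 1, 3, 9, 27], [3, 1, 3, 9, 27, 1, 3, 9, 27], [3, 1, 3, 18, 27, 1, 3, 18, 27],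
 [3, 3, 1, 9, 27, 3, 1, 9, 27], [3, 4, 2, 9, 27, 6, 4, 9, 27], [4, 1, 6, 18, 27, 1, 6, 18, 27], [3, 3, 1, 18, 27, 3,
 1, 18, 27], [4, 1, 6, 9, 27, 1, 6, 9, 27], [3, 4, 2, 18, 27, 6, 4, 18, 27], [3, 1, 3, 27, 9, 1, 3, 27, 9], [3, 1, 3,
 54, 9, 1, 3, 27, 18], [3, 3, 1, 27, 9, 3, 1, 27, 9], [3, 4, 2, 27, 9, 6, 4, 27, 9], [4, 1, 6, 54, 9, 1, 6, 27, 18],
 [3, 3, 1, 54, 9, 3, 1, 27, 18], [4, 1, 6, 27, 9, 1, 6, 27, 9], [3, 4, 2, 54, 9, 6, 4, 27, 18], [5, 1, 9, 27, 3, 1,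
 27, 3, 9], [6, 1, 9, 27, 3, 1, 27, 3, 9], [6, 1, 18, 54, 3, 1, 27, 6, 18], [6, 3, 9, 27, 1, 27, 1, 3, 9], [6, 4, 9,
 27, 2, 54, 28, 3, 9], [7, 1, 6, 18, 54, 1, 6, 18, 54], [6, 3, 18, 54, 1, 27, 1, 6, 18], [7, 1, 6, 9, 27, 1, 6, 9,
 27], [6, 4, 18, 54, 2, 54, 28, 6, 18], [5, 1, 18, 27, 3, 1, 27, 6, 9], [6, 1, 18, 27, 3, 1, 27, 6, 9], [6, 1, 9, 54,
 3, 1, 27, 3, 18], [6, 3, 18, 27, 1, 27, 1, 6, 9], [6, 4, 18, 27, 2, 54, 28, 6, 9], [7, 1, 6, 9, 54, 1, 6, 9, 54],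
 [6, 3, 9, 54, 1, 27, 1, 3, 18], [7, 1, 6, 18, 27, 1, 6, 18, 27], [6, 4, 9, 54, 2, 54, 28, 3, 18]]), ([1, 3, 9, 13,
 27], [[3, 4, 2, 9, 27, 6, 4, 9, 27], [4, 1, 3, 9, 27, 1, 3, 9, 27], [3, 10, 2, 3, 27, 6, 9, 4, 27], [4, 1, 9, 3, 27,
 1, 9, 3, 27], [3, 12, 1, 6, 27, 3, 18, 10, 27], [4, 1, 26, 3, 27, 1, 9, 26, 27], [4, 3, 9, 1, 27, 9, 1, 3, 27], [4,
 3, 26, 1, 27, 9, 1, 26, 27], [4, 9, 26, 1, 27, 9, 26, 1, 27], [6, 1, 3, 9, 27, 1, 3, 9, 27], [6, 1, 3, 9, 54, 1, 3,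
 9, 54], [6, 3, 1, 9, 27, 3, 1, 9, 27], [8, 1, 3, 9, 27, 1, 3, 9, 27], [9, 1, 6, 18, 54, 1, 6, 18, 54], [6, 3, 1, 9,
 54, 3, 1, 9, 54], [9, 1, 6, 18, 27, 1, 6, 18, 27], [8, 1, 3, 9, 54, 1, 3, 9, 54], [6, 9, 1, 3, 27, 3, 9, 1, 27], [8,
 1, 9, 3, 27, 1, 9, 3, 27], [9, 1, 18, 6, 54, 1, 18, 6, 54], [8, 1, 26, 3, 54, 1, 9, 26, 54], [6, 13, 2, 6, 27, 6,
 18, 13, 27], [9, 1, 13, 6, 27, 1, 18, 14, 27], [9, 3, 18, 2, 54, 18, 1, 6, 54], [9, 3, 13, 2, 27, 18, 1, 14, 27],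
 [9, 9, 13, 2, 54, 18, 14, 1, 54], [6, 9, 1, 3, 54, 3, 9, 1, 54], [9, 1, 18, 6, 27, 1, 18, 6, 27], [8, 1, 9, 3, 54,
 1, 9, 3, 54], [9, 3, 18, 2, 27, 18, 1, 6, 27], [9, 9, 13, 2, 27, 18, 14, 1, 27], [9, 3, 13, 2, 54, 18, 1, 14, 54],
 [8, 1, 26, 3, 27, 1, 9, 26, 27], [9, 1, 13, 6, 54, 1, 18, 14, 54], [6, 13, 2, 6, 54, 6, 18, 13, 54]]), ([1, 3, 9,
 27, 40], [[6, 4, 9, 27, 2, 54, 28, 3, 9], [7, 1, 3, 9, 27, 1, 3, 9, 27], [6, 10, 3, 27, 2, 54, 3, 28, 9], [7, 1, 9,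
 3, 27, 1, 9, 3, 27], [6, 12, 1, 27, 6, 3, 54, 28, 9], [6, 13, 2, 6, 27, 6, 18, 13, 27], [9, 1, 25, 3, 54, 1, 9, 25,
 54], [7, 3, 9, 1, 27, 9, 1, 3, 27], [9, 3, 23, 1, 54, 9, 1, 25, 54], [9, 9, 17, 1, 54, 9, 25, 1, 54], [6, 28, 3, 9,
 2, 54, 3, 9, 28], [7, 1, 27, 3, 9, 1, 9, 27, 3], [6, 30, 1, 9, 6, 3, 54, 9, 28], [6, 31, 2, 6, 9, 6, 18, 27, 13],
 [9, 1, 61, 3, 18, 1, 9, 54, 25], [7, 3, 27, 1, 9, 9, 1, 27, 3], [9, 3, 59, 1, 18, 9, 1, 54, 25], [9, 27, 35, 1, 18,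
 9, 25, 54, 1], [6, 36, 1, 3, 18, 3, 9, 54, 28], [6, 37, 2, 18, 3, 6, 27, 18, 13], [9, 1, 38, 3, 18, 1, 9, 54, 31],
 [6, 39, 6, 18, 1, 27, 6, 18, 13], [7, 1, 80, 3, 9, 1, 9, 27, 80], [9, 3, 42, 1, 18, 9, 1, 54, 31], [7, 3, 80, 1, 9,
 9, 1, 27, 80], [9, 40, 44, 2, 9, 18, 14, 27, 62], [7, 9, 27, 1, 3, 9, 27, 1, 3], [9, 9, 65, 1, 6, 9, 54, 1, 25], [9,
 27, 47, 1, 6, 9, 54, 25, 1], [9, 9, 48, 1, 6, 9, 54, 1, 31], [7, 9, 80, 1, 3, 9, 27, 1, 80], [9, 40, 50, 2, 3, 18,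
 27, 14, 62], [9, 27, 66, 1, 6, 9, 54, 31, 1], [9, 40, 68, 2, 3, 18, 27, 62, 14], [7, 27, 80, 1, 3, 9, 27, 80, 1]])]

theorem fst5 : ce5.map Prod.fst = reps5 := by decide +kernel

theorem chk5 : chkL (M1L :: M2L :: reps6) ce5 = true := by decide +kernel

end Pool.Agent.LibTR43
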