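import Pool.Agent.LibTR43.C5
import Pool.Agent.LibTR43.D4
import Pool.Agent.LibTR43.D5

/-!
[TR43 F1] Assembly in rank at most four (cites C2, C5, D4, D5, `H67Tern/Minors.lean`: `minor_nice`, `Ternary.minor`; `E01.excluded`, `E02.excluded`). `hE` is the enumeration.
`not_nc1`: `M1` is not negatively correlated: `E01.excluded` says that it is not in `InT` (it is ternary: `ternary_colMat`), so some minor `N` is not negatively correlated, but proper minors are balanced, so `N = M1`
(`IsMinor` and not strict: `isStrictMinor_iff_isMinor_ne`); transport by `negCorr_iso` (`iso_symm`).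
`balanced_of_free`: let `N ≤m M`, `N = M ／ C ＼ D` with `C` independent, `D` coindependent. If `C ≠ ∅`: `N.eRank ≤ 3` (a basis of `N` together with `C` is a basis of `M`: `minor_isBase`), `N` is ternary and finite: D4, D5.
If `C = ∅`: `N = M ↾ (M.E \ D)` (`contract_empty`, `delete_eq_restrict`), simple, `Free` (`restrict_restrict_eq`), rank `≤ 4`; rank `4`: C5; rank `≤ 3`: D4, D5.
`balanced_iff1`: conversely a restriction isomorphic to `M1`, `M2` is a minor which is not negatively correlated. Minors isomorphic to `M1` (rank 4): if `N = M ／ C ＼ D` is isomorphic to `M1` and `M` has rank `≤ 4`, then `Balanced M` fails as well.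
`excluded_iff1`: (→) `M` is not balanced, so not `Free`: `X ⊆ M.E` with `M ↾ X` isomorphic to `M1` or `M2`; if `X ≠ M.E` it is a proper minor, so balanced, against `not_nc`; so `X = M.E`. (←) `M` is not negatively correlated by `not_nc`. Let `N' <m M`,
`N' = M ／ C ＼ D`: negatively correlated by rank `≤ 3` if `C ≠ ∅`; if `C = ∅` then `D ≠ ∅` and `N' = M ↾ (M.E \ D)` has fewer than `8` elements (`iso_card`), so it is `Free` and `balanced_of_free` applies.
-/

set_option autoImplicit false

namespace Pool.Agent.LibTR43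

open Pool.Agent.H67Tern Set Matroid

/-- the enumeration -/
def EN : Prop := ∀ n, 4 ≤ n → ∃ Rs, Cov n Rs ∧ (∀ R ∈ Rs, Good n R) ∧ (17 ≤ n → Rs = [])

private theorem F1_not_nc_col {A : List (List ℕ)} (h : ExcludedMinor (colMat 4 A)) : ¬ NegCorr (colMat 4 A) := by
  intro hn
  apply h.1
  refine ⟨ternary_colMat 4 A, fun N hN => ?_⟩
  by_cases hne : N = colMat 4 A
  · rw [hne]; exact hn
  · exact (h.2 N (isStrictMinor_iff_isMinor_ne.mpr ⟨hN, hne⟩)).2 N IsMinor.refl

theorem not_nc {α : Type*} {N : Matroid α} (h : Isomorphic N M1 ∨ Isomorphic N M2) : ¬ NegCorr N := by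
  intro hn
  rcases h with h | h
  · exact F1_not_nc_col E01.excluded (negCorr_iso (iso_symm h) hn)
  · exact F1_not_nc_col E02.excluded (negCorr_iso (iso_symm h) hn)

private theorem F1_finite {α : Type*} {M N : Matroid α} [M.Finite] (h : N ≤m M) : N.Finite :=
  ⟨M.ground_finite.subset h.subset⟩

private theorem F1_negCorr_le3 {α : Type*} {M : Matroid α} [M.Finite] (ht : Ternary M) (hr : M.eRank ≤ 3) :
    NegCorr M := by
  rcases eq_or_lt_of_le hr with h | h
  · exact negCorr_eq3 ht h
  · apply negCorr_le2 ht
    have : M.eRank < (2 : ℕ∞) + 1 := by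
      have h3 : (2 : ℕ∞) + 1 = 3 := by norm_num
      rw [h3]; exact h
    exact Order.le_of_lt_add_one this

private theorem F1_rank_contract {α : Type*} {M : Matroid α} {C D : Set α} (hC : M.Indep C) (hD : M.Coindep D)
    (hCD : Disjoint C D) : (M ／ C ＼ D).eRank + C.encard = M.eRank := by
  obtain ⟨B, hB⟩ := (M ／ C ＼ D).exists_isBase
  have h := (minor_isBase hC hD hCD B).mp hB
  rw [← hB.encard_eq_eRank, ← h.1.encard_eq_eRank, encard_union_eq h.2.1]

/-- a minor of rank at most three is negatively correlated, if something is contracted -/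
private theorem F1_contract {α : Type*} {M : Matroid α} [M.Finite] (ht : Ternary M) (hr : M.eRank ≤ 4)
    {C D : Set α} (hC : M.Indep C) (hD : M.Coindep D) (hCD : Disjoint C D) (hne : C ≠ ∅) :
    NegCorr (M ／ C ＼ D) := by
  have hm : M ／ C ＼ D ≤m M := contract_delete_isMinor M C D
  have := F1_finite hm
  apply F1_negCorr_le3 (ht.minor hm)
  have h := F1_rank_contract hC hD hCD
  have h1 : 1 ≤ C.encard := by
    rw [one_le_encard_iff_nonempty]
    exact nonempty_iff_ne_empty.mpr hne
  have h2 : (M ／ C ＼ D).eRank + 1 ≤ 3 + 1 := by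
    calc (M ／ C ＼ D).eRank + 1 ≤ (M ／ C ＼ D).eRank + C.encard := by gcongr
      _ = M.eRank := h
      _ ≤ 4 := hr
      _ = 3 + 1 := by norm_num
  exact (ENat.add_le_add_iff_right (by simp)).mp h2

private theorem F1_simple_restrict {α : Type*} {M : Matroid α} (hs : Simple M) {X : Set α} (hX : X ⊆ M.E) :
    Simple (M ↾ X) := by
  intro e he f hf
  rw [restrict_ground_eq] at he hf
  rw [restrict_indep_iff]
  refine ⟨hs e (hX he) f (hX hf), ?_⟩
  rintro x (rfl | hx)
  · exact he
  · rw [mem_singleton_iff.mp hx]; exact hf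

private theorem F1_free_restrict {α : Type*} {M : Matroid α} (hF : Free M) {X : Set α} (hX : X ⊆ M.E) :
    Free (M ↾ X) := by
  intro Y hY
  rw [restrict_ground_eq] at hY
  rw [restrict_restrict_eq M hY]
  exact hF Y (hY.trans hX)

private theorem F1_negCorr_free (hE : EN) {α : Type*} {M : Matroid α} [M.Finite] (ht : Ternary M)
    (hs : Simple M) (hr : M.eRank ≤ 4) (hF : Free M) : NegCorr M := by
  rcases eq_or_lt_of_le hr with h | h
  · exact (negCorr_rank4 hE ht hs h hF).1
  · apply F1_negCorr_le3 ht
    have : M.eRank < (3 : ℕ∞) + 1 := by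
      have h3 : (3 : ℕ∞) + 1 = 4 := by norm_num
      rw [h3]; exact h
    exact Order.le_of_lt_add_one this

private theorem F1_delete {α : Type*} {M : Matroid α} {D : Set α} : M ／ (∅ : Set α) ＼ D = M ↾ (M.E \ D) := by
  rw [contract_empty, delete_eq_restrict]

private theorem F1_restrict_minor {α : Type*} {M : Matroid α} {X : Set α} (hX : X ⊆ M.E) : M ↾ X ≤m M := by
  have h := contract_delete_isMinor M ∅ (M.E \ X)
  rwa [F1_delete, sdiff_sdiff_right_self, inter_eq_self_of_subset_right hX] at h

theorem balanced_of_free (hE : EN) {α : Type*} {M : Matroid α} [M.Finite] (ht : Ternary M) (hs : Simple M)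
    (hr : M.eRank ≤ 4) (hF : Free M) : Balanced M := by
  intro N hN
  have := F1_finite hN
  obtain ⟨C, D, hC, hD, hCD, rfl⟩ := minor_nice hN
  by_cases hne : C = ∅
  · subst hne
    rw [F1_delete] at hN ⊢
    have : (M ↾ (M.E \ D)).Finite := F1_finite hN
    have hX : M.E \ D ⊆ M.E := sdiff_subset
    apply F1_negCorr_free hE (ht.minor hN) (F1_simple_restrict hs hX) _ (F1_free_restrict hF hX)
    rw [eRank_restrict]
    exact (M.eRk_le_eRank _).trans hr
  · exact F1_contract ht hr hC hD hCD hne

private theorem F1_free_of_balanced {α : Type*} {M : Matroid α} (hB : Balanced M) : Free M := by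
  intro X hX
  exact ⟨fun h => not_nc (Or.inl h) (hB _ (F1_restrict_minor hX)),
    fun h => not_nc (Or.inr h) (hB _ (F1_restrict_minor hX))⟩

private theorem F1_card3 {α : Type*} {M : Matroid α} [M.Finite] (ht : Ternary M) (hs : Simple M)
    (hr : M.eRank ≤ 3) : M.E.ncard ≤ 13 := by
  obtain ⟨v, hv⟩ := exists_rep ht (r := 3) hr
  have h1 : ∀ e ∈ M.E, v e ≠ 0 := by
    intro e he
    have h := hs e he e he
    rw [hv _ (by rintro x (rfl | hx); exacts [he, by rw [mem_singleton_iff.mp hx]; exact he])] at h
    exact h.ne_zero (by simp)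
  have h2 : ∀ e ∈ M.E, ∀ f ∈ M.E, e ≠ f → ∀ s : ZMod 3, v e ≠ s • v f := by
    intro e he f hf hef s hsf
    have h := hs e he f hf
    rw [hv _ (by rintro x (rfl | hx); exacts [he, by rw [mem_singleton_iff.mp hx]; exact hf])] at h
    rw [linearIndepOn_pair_iff _ hef (h1 e he)] at h
    by_cases h0 : s = 0
    · exact h1 e he (by rw [hsf, h0, zero_smul])
    · apply h s⁻¹
      rw [hsf, smul_smul, inv_mul_cancel₀ h0, one_smul]
  let F : M.E × Bool → {w : Fin 3 → ZMod 3 // w ≠ 0} := fun p =>
    ⟨(if p.2 then (1 : ZMod 3) else -1) • v p.1, by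
      intro h
      rcases smul_eq_zero.mp h with h | h
      · split_ifs at h <;> revert h <;> decide
      · exact h1 _ p.1.2 h⟩
  have hF : Function.Injective F := by
    rintro ⟨e, a⟩ ⟨f, b⟩ h
    have h3 : (if a then (1 : ZMod 3) else -1) • v e = (if b then (1 : ZMod 3) else -1) • v f :=
      congrArg Subtype.val h
    have hef : e = f := by
      by_contra hne
      have hne' : (e : α) ≠ f := fun h => hne (Subtype.ext h)
      apply h2 e e.2 f f.2 hne' ((if a then (1 : ZMod 3) else -1) * (if b then (1 : ZMod 3) else -1))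
      rw [mul_smul, ← h3, smul_smul]
      have : (if a then (1 : ZMod 3) else -1) * (if a then (1 : ZMod 3) else -1) = 1 := by
        split_ifs <;> decide
      rw [this, one_smul]
    subst hef
    have hab : (if a then (1 : ZMod 3) else -1) = (if b then (1 : ZMod 3) else -1) :=
      smul_left_injective _ (h1 e e.2) h3
    have : a = b := by
      revert hab
      cases a <;> cases b <;> decide
    rw [this]
  have : Finite M.E := M.ground_finite
  have h4 := Nat.card_le_card_of_injective F hF
  rw [Nat.card_prod, Nat.card_coe_set_eq, Nat.card_eq_fintype_card, Nat.card_eq_fintype_card,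
    Fintype.card_bool, Fintype.card_subtype_compl] at h4
  simp only [Fintype.card_pi, ZMod.card, Finset.prod_const, Finset.card_univ, Fintype.card_fin,
    Fintype.card_subtype_eq] at h4
  omega

theorem card_le (hE : EN) {α : Type*} {M : Matroid α} [M.Finite] (ht : Ternary M) (hs : Simple M)
    (hr : M.eRank ≤ 4) (hB : Balanced M) : M.E.ncard ≤ 16 := by
  rcases eq_or_lt_of_le hr with h | h
  · exact (negCorr_rank4 hE ht hs h (F1_free_of_balanced hB)).2
  · have : M.eRank < (3 : ℕ∞) + 1 := by
      have h3 : (3 : ℕ∞) + 1 = 4 := by norm_num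
      rw [h3]; exact h
    exact (F1_card3 ht hs (Order.le_of_lt_add_one this)).trans (by norm_num)

theorem balanced_iff1 (hE : EN) {α : Type*} {M : Matroid α} [M.Finite] (ht : Ternary M) (hs : Simple M)
    (hr : M.eRank ≤ 4) : Balanced M ↔ ∀ N, N ≤m M → ¬ Isomorphic N M1 ∧ ¬ Isomorphic N M2 := by
  constructor
  · intro hB N hN
    exact ⟨fun h => not_nc (Or.inl h) (hB N hN), fun h => not_nc (Or.inr h) (hB N hN)⟩
  · intro h
    exact balanced_of_free hE ht hs hr fun X hX => h _ (F1_restrict_minor hX)

private theorem F1_card8 {α : Type*} {M : Matroid α} (h : Isomorphic M M1 ∨ Isomorphic M M2) :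
    M.E.ncard = 8 := by
  rcases h with h | h
  · rw [iso_card h, colMat_E, ncard_univ, Nat.card_eq_fintype_card, Fintype.card_fin]; rfl
  · rw [iso_card h, colMat_E, ncard_univ, Nat.card_eq_fintype_card, Fintype.card_fin]; rfl

theorem excluded_iff1 (hE : EN) {α : Type*} {M : Matroid α} [M.Finite] (ht : Ternary M) (hs : Simple M)
    (hr : M.eRank ≤ 4) : ExcludedMinor M ↔ Isomorphic M M1 ∨ Isomorphic M M2 := by
  constructor
  · rintro ⟨h1, h2⟩
    have hnF : ¬ Free M := fun hF => h1 ⟨ht, balanced_of_free hE ht hs hr hF⟩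
    unfold Free at hnF
    push Not at hnF
    obtain ⟨X, hX, hX2⟩ := hnF
    have hiso : Isomorphic (M ↾ X) M1 ∨ Isomorphic (M ↾ X) M2 := by
      by_contra hcon
      rw [not_or] at hcon
      exact hcon.2 (hX2 hcon.1)
    by_cases hXE : X = M.E
    · rw [hXE, restrict_ground_eq_self] at hiso
      exact hiso
    · exfalso
      have hlt : M ↾ X <m M := isStrictMinor_iff_isMinor_ne.mpr ⟨F1_restrict_minor hX, by
        intro h
        apply hXE
        have := congrArg Matroid.E h
        rwa [restrict_ground_eq] at this⟩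
      exact not_nc hiso ((h2 _ hlt).2 _ IsMinor.refl)
  · intro h
    refine ⟨fun hT => not_nc h (hT.2 M IsMinor.refl), fun N' hN' => ⟨ht.minor hN'.isMinor, ?_⟩⟩
    intro N hN
    have hlt : N <m M := hN.trans_isStrictMinor hN'
    have hss := hlt.ssubset
    obtain ⟨C, D, hC, hD, hCD, rfl⟩ := minor_nice hlt.isMinor
    by_cases hne : C = ∅
    · subst hne
      rw [F1_delete] at hlt hss ⊢
      have hX : M.E \ D ⊆ M.E := sdiff_subset
      have : (M ↾ (M.E \ D)).Finite := F1_finite hlt.isMinor
      rw [restrict_ground_eq] at hss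
      have hc8 := F1_card8 h
      have hcl : (M.E \ D).ncard < 8 := by
        rw [← hc8]
        exact ncard_lt_ncard hss M.ground_finite
      have hF : Free (M ↾ (M.E \ D)) := by
        intro Y hY
        rw [restrict_ground_eq] at hY
        have hY8 : Y.ncard < 8 := lt_of_le_of_lt (ncard_le_ncard hY (M.ground_finite.subset hX)) hcl
        have key : ∀ hi : Isomorphic ((M ↾ (M.E \ D)) ↾ Y) M1 ∨ Isomorphic ((M ↾ (M.E \ D)) ↾ Y) M2, False := by
          intro hi
          have := F1_card8 hi
          rw [restrict_ground_eq] at this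
          omega
        exact ⟨fun hi => key (Or.inl hi), fun hi => key (Or.inr hi)⟩
      apply F1_negCorr_free hE (ht.minor hlt.isMinor) (F1_simple_restrict hs hX) _ hF
      rw [eRank_restrict]
      exact (M.eRk_le_eRank _).trans hr
    · exact F1_contract ht hr hC hD hCD hne

end Pool.Agent.LibTR43
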