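import Pool.Agent.LibTR43.Nc10a1
import Pool.Agent.LibTR43.Nc10a2
import Pool.Agent.LibTR43.Nc10a3

/-!
[TR43] Negative correlation for representatives with `10` points: (codes, masks of the bases, numbers `b_e`).
-/

set_option autoImplicit false
set_option maxRecDepth 100000

namespace Pool.Agent.LibTR43

/-- the data -/
def nd10a : List (List ℕ × List ℕ × List ℕ) :=
  [nd10a_1, nd10a_2, nd10a_3, nd10a_4, nd10a_5, nd10a_6, nd10a_7, nd10a_8, nd10a_9, nd10a_10, nd10a_11, nd10a_12,
    nd10a_13, nd10a_14, nd10a_15, nd10a_16, nd10a_17, nd10a_18, nd10a_19, nd10a_20, nd10a_21, nd10a_22]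

theorem ok10a : nd10a.all (goodChk 10) = true := by
  simp only [nd10a, List.all_cons, List.all_nil, ok10a_1, ok10a_2, ok10a_3, ok10a_4, ok10a_5, ok10a_6, ok10a_7,
    ok10a_8, ok10a_9, ok10a_10, ok10a_11, ok10a_12, ok10a_13, ok10a_14, ok10a_15, ok10a_16, ok10a_17, ok10a_18,
    ok10a_19, ok10a_20, ok10a_21, ok10a_22, Bool.and_self]

end Pool.Agent.LibTR43
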