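import Pool.Agent.LibTR43.Nc10b1
import Pool.Agent.LibTR43.Nc10b2
import Pool.Agent.LibTR43.Nc10b3

/-!
[TR43] Negative correlation for representatives with `10` points: (codes, masks of the bases, numbers `b_e`).
-/

set_option autoImplicit false
set_option maxRecDepth 100000

namespace Pool.Agent.LibTR43

/-- the data -/
def nd10b : List (List ℕ × List ℕ × List ℕ) :=
  [nd10b_1, nd10b_2, nd10b_3, nd10b_4, nd10b_5, nd10b_6, nd10b_7, nd10b_8, nd10b_9, nd10b_10, nd10b_11, nd10b_12,
    nd10b_13, nd10b_14, nd10b_15, nd10b_16, nd10b_17, nd10b_18, nd10b_19, nd10b_20, nd10b_21, nd10b_22]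

theorem ok10b : nd10b.all (goodChk 10) = true := by
  simp only [nd10b, List.all_cons, List.all_nil, ok10b_1, ok10b_2, ok10b_3, ok10b_4, ok10b_5, ok10b_6, ok10b_7,
    ok10b_8, ok10b_9, ok10b_10, ok10b_11, ok10b_12, ok10b_13, ok10b_14, ok10b_15, ok10b_16, ok10b_17, ok10b_18,
    ok10b_19, ok10b_20, ok10b_21, ok10b_22, Bool.and_self]

end Pool.Agent.LibTR43
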