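import Pool.Agent.LibTR43.Nc10c1
import Pool.Agent.LibTR43.Nc10c2
import Pool.Agent.LibTR43.Nc10c3

/-!
[TR43] Negative correlation for representatives with `10` points: (codes, masks of the bases, numbers `b_e`).
-/

set_option autoImplicit false
set_option maxRecDepth 100000

namespace Pool.Agent.LibTR43

/-- the data -/
def nd10c : List (List ℕ × List ℕ × List ℕ) :=
  [nd10c_1, nd10c_2, nd10c_3, nd10c_4, nd10c_5, nd10c_6, nd10c_7, nd10c_8, nd10c_9, nd10c_10, nd10c_11, nd10c_12,
    nd10c_13, nd10c_14, nd10c_15, nd10c_16, nd10c_17, nd10c_18, nd10c_19, nd10c_20, nd10c_21, nd10c_22]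

theorem ok10c : nd10c.all (goodChk 10) = true := by
  simp only [nd10c, List.all_cons, List.all_nil, ok10c_1, ok10c_2, ok10c_3, ok10c_4, ok10c_5, ok10c_6, ok10c_7,
    ok10c_8, ok10c_9, ok10c_10, ok10c_11, ok10c_12, ok10c_13, ok10c_14, ok10c_15, ok10c_16, ok10c_17, ok10c_18,
    ok10c_19, ok10c_20, ok10c_21, ok10c_22, Bool.and_self]

end Pool.Agent.LibTR43
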