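import Pool.Agent.LibTR43.Nc10d1
import Pool.Agent.LibTR43.Nc10d2
import Pool.Agent.LibTR43.Nc10d3

/-!
[TR43] Negative correlation for representatives with `10` points: (codes, masks of the bases, numbers `b_e`).
-/

set_option autoImplicit false
set_option maxRecDepth 100000

namespace Pool.Agent.LibTR43

/-- the data -/
def nd10d : List (List ℕ × List ℕ × List ℕ) :=
  [nd10d_1, nd10d_2, nd10d_3, nd10d_4, nd10d_5, nd10d_6, nd10d_7, nd10d_8, nd10d_9, nd10d_10, nd10d_11, nd10d_12,
    nd10d_13, nd10d_14, nd10d_15, nd10d_16, nd10d_17, nd10d_18, nd10d_19, nd10d_20, nd10d_21]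

theorem ok10d : nd10d.all (goodChk 10) = true := by
  simp only [nd10d, List.all_cons, List.all_nil, ok10d_1, ok10d_2, ok10d_3, ok10d_4, ok10d_5, ok10d_6, ok10d_7,
    ok10d_8, ok10d_9, ok10d_10, ok10d_11, ok10d_12, ok10d_13, ok10d_14, ok10d_15, ok10d_16, ok10d_17, ok10d_18,
    ok10d_19, ok10d_20, ok10d_21, Bool.and_self]

end Pool.Agent.LibTR43
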