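import Pool.Agent.LibTR43.Nc11a1
import Pool.Agent.LibTR43.Nc11a2

/-!
[TR43] Negative correlation for representatives with `11` points: (codes, masks of the bases, numbers `b_e`).
-/

set_option autoImplicit false
set_option maxRecDepth 100000

namespace Pool.Agent.LibTR43

/-- the data -/
def nd11a : List (List ℕ × List ℕ × List ℕ) :=
  [nd11a_1, nd11a_2, nd11a_3, nd11a_4, nd11a_5, nd11a_6, nd11a_7, nd11a_8, nd11a_9, nd11a_10, nd11a_11, nd11a_12,
    nd11a_13, nd11a_14]

theorem ok11a : nd11a.all (goodChk 11) = true := by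
  simp only [nd11a, List.all_cons, List.all_nil, ok11a_1, ok11a_2, ok11a_3, ok11a_4, ok11a_5, ok11a_6, ok11a_7,
    ok11a_8, ok11a_9, ok11a_10, ok11a_11, ok11a_12, ok11a_13, ok11a_14, Bool.and_self]

end Pool.Agent.LibTR43
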