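import Pool.Agent.LibTR43.Nc11b1
import Pool.Agent.LibTR43.Nc11b2

/-!
[TR43] Negative correlation for representatives with `11` points: (codes, masks of the bases, numbers `b_e`).
-/

set_option autoImplicit false
set_option maxRecDepth 100000

namespace Pool.Agent.LibTR43

/-- the data -/
def nd11b : List (List ℕ × List ℕ × List ℕ) :=
  [nd11b_1, nd11b_2, nd11b_3, nd11b_4, nd11b_5, nd11b_6, nd11b_7, nd11b_8, nd11b_9, nd11b_10, nd11b_11, nd11b_12,
    nd11b_13, nd11b_14]

theorem ok11b : nd11b.all (goodChk 11) = true := by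
  simp only [nd11b, List.all_cons, List.all_nil, ok11b_1, ok11b_2, ok11b_3, ok11b_4, ok11b_5, ok11b_6, ok11b_7,
    ok11b_8, ok11b_9, ok11b_10, ok11b_11, ok11b_12, ok11b_13, ok11b_14, Bool.and_self]

end Pool.Agent.LibTR43
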