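import Pool.Agent.LibTR43.Nc11c1
import Pool.Agent.LibTR43.Nc11c2

/-!
[TR43] Negative correlation for representatives with `11` points: (codes, masks of the bases, numbers `b_e`).
-/

set_option autoImplicit false
set_option maxRecDepth 100000

namespace Pool.Agent.LibTR43

/-- the data -/
def nd11c : List (List ℕ × List ℕ × List ℕ) :=
  [nd11c_1, nd11c_2, nd11c_3, nd11c_4, nd11c_5, nd11c_6, nd11c_7, nd11c_8, nd11c_9, nd11c_10, nd11c_11, nd11c_12,
    nd11c_13, nd11c_14]

theorem ok11c : nd11c.all (goodChk 11) = true := by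
  simp only [nd11c, List.all_cons, List.all_nil, ok11c_1, ok11c_2, ok11c_3, ok11c_4, ok11c_5, ok11c_6, ok11c_7,
    ok11c_8, ok11c_9, ok11c_10, ok11c_11, ok11c_12, ok11c_13, ok11c_14, Bool.and_self]

end Pool.Agent.LibTR43
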