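import Pool.Agent.LibTR43.Nc11d1
import Pool.Agent.LibTR43.Nc11d2

/-!
[TR43] Negative correlation for representatives with `11` points: (codes, masks of the bases, numbers `b_e`).
-/

set_option autoImplicit false
set_option maxRecDepth 100000

namespace Pool.Agent.LibTR43

/-- the data -/
def nd11d : List (List ℕ × List ℕ × List ℕ) :=
  [nd11d_1, nd11d_2, nd11d_3, nd11d_4, nd11d_5, nd11d_6, nd11d_7, nd11d_8, nd11d_9, nd11d_10, nd11d_11]

theorem ok11d : nd11d.all (goodChk 11) = true := by
  simp only [nd11d, List.all_cons, List.all_nil, ok11d_1, ok11d_2, ok11d_3, ok11d_4, ok11d_5, ok11d_6, ok11d_7,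
    ok11d_8, ok11d_9, ok11d_10, ok11d_11, Bool.and_self]

end Pool.Agent.LibTR43
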