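import Pool.Agent.LibTR43.Nc12c1
import Pool.Agent.LibTR43.Nc12c2
import Pool.Agent.LibTR43.Nc12c3

/-!
[TR43] Negative correlation for representatives with `12` points: (codes, masks of the bases, numbers `b_e`).
-/

set_option autoImplicit false
set_option maxRecDepth 100000

namespace Pool.Agent.LibTR43

/-- the data -/
def nd12c : List (List ℕ × List ℕ × List ℕ) :=
  [nd12c_1, nd12c_2, nd12c_3, nd12c_4, nd12c_5, nd12c_6, nd12c_7, nd12c_8]

theorem ok12c : nd12c.all (goodChk 12) = true := by
  simp only [nd12c, List.all_cons, List.all_nil, ok12c_1, ok12c_2, ok12c_3, ok12c_4, ok12c_5, ok12c_6, ok12c_7,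
    ok12c_8, Bool.and_self]

end Pool.Agent.LibTR43
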