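import Pool.Agent.LibTR43.Nc13a1
import Pool.Agent.LibTR43.Nc13a2

/-!
[TR43] Negative correlation for representatives with `13` points: (codes, masks of the bases, numbers `b_e`).
-/

set_option autoImplicit false
set_option maxRecDepth 100000

namespace Pool.Agent.LibTR43

/-- the data -/
def nd13a : List (List ℕ × List ℕ × List ℕ) :=
  [nd13a_1, nd13a_2, nd13a_3, nd13a_4, nd13a_5, nd13a_6]

theorem ok13a : nd13a.all (goodChk 13) = true := by
  simp only [nd13a, List.all_cons, List.all_nil, ok13a_1, ok13a_2, ok13a_3, ok13a_4, ok13a_5, ok13a_6,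
    Bool.and_self]

end Pool.Agent.LibTR43
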