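import Pool.Agent.LibTR43.Nc13b1
import Pool.Agent.LibTR43.Nc13b2

/-!
[TR43] Negative correlation for representatives with `13` points: (codes, masks of the bases, numbers `b_e`).
-/

set_option autoImplicit false
set_option maxRecDepth 100000

namespace Pool.Agent.LibTR43

/-- the data -/
def nd13b : List (List ℕ × List ℕ × List ℕ) :=
  [nd13b_1, nd13b_2, nd13b_3, nd13b_4, nd13b_5, nd13b_6]

theorem ok13b : nd13b.all (goodChk 13) = true := by
  simp only [nd13b, List.all_cons, List.all_nil, ok13b_1, ok13b_2, ok13b_3, ok13b_4, ok13b_5, ok13b_6,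
    Bool.and_self]

end Pool.Agent.LibTR43
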