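import Pool.Agent.LibTR43.Nc14a1
import Pool.Agent.LibTR43.Nc14a2
import Pool.Agent.LibTR43.Nc14a3

/-!
[TR43] Negative correlation for representatives with `14` points: (codes, masks of the bases, numbers `b_e`).
-/

set_option autoImplicit false
set_option maxRecDepth 100000

namespace Pool.Agent.LibTR43

/-- the data -/
def nd14a : List (List ℕ × List ℕ × List ℕ) :=
  [nd14a_1, nd14a_2, nd14a_3, nd14a_4, nd14a_5, nd14a_6]

theorem ok14a : nd14a.all (goodChk 14) = true := by
  simp only [nd14a, List.all_cons, List.all_nil, ok14a_1, ok14a_2, ok14a_3, ok14a_4, ok14a_5, ok14a_6,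
    Bool.and_self]

end Pool.Agent.LibTR43
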