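import Pool.Agent.LibTR43.Nc15a1
import Pool.Agent.LibTR43.Nc15a2
import Pool.Agent.LibTR43.Nc15a3

/-!
[TR43] Negative correlation for representatives with `15` points: (codes, masks of the bases, numbers `b_e`).
-/

set_option autoImplicit false
set_option maxRecDepth 100000

namespace Pool.Agent.LibTR43

/-- the data -/
def nd15a : List (List ℕ × List ℕ × List ℕ) :=
  [nd15a_1, nd15a_2, nd15a_3]

theorem ok15a : nd15a.all (goodChk 15) = true := by
  simp only [nd15a, List.all_cons, List.all_nil, ok15a_1, ok15a_2, ok15a_3, Bool.and_self]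

end Pool.Agent.LibTR43
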