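import Pool.Agent.LibTR43.Nc16a1

/-!
[TR43] Negative correlation for representatives with `16` points: (codes, masks of the bases, numbers `b_e`).
-/

set_option autoImplicit false
set_option maxRecDepth 100000

namespace Pool.Agent.LibTR43

/-- the data -/
def nd16a : List (List ℕ × List ℕ × List ℕ) :=
  [nd16a_1]

theorem ok16a : nd16a.all (goodChk 16) = true := by
  simp only [nd16a, List.all_cons, List.all_nil, ok16a_1, Bool.and_self]

end Pool.Agent.LibTR43
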