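import Pool.Agent.LibTR43.B2

/-!
[TR43] Negative correlation for representatives with `4` points: (codes, masks of the bases, numbers `b_e`).
-/

set_option autoImplicit false
set_option maxRecDepth 100000

namespace Pool.Agent.LibTR43

/-- entry 1 -/
def nd4a_1 : List ℕ × List ℕ × List ℕ :=
  ([1, 3, 9, 27], [15], [1, 1, 1, 1])

theorem ok4a_1 : goodChk 4 nd4a_1 = true := by decide +kernel

/-- the data -/
def nd4a : List (List ℕ × List ℕ × List ℕ) :=
  [nd4a_1]

theorem ok4a : nd4a.all (goodChk 4) = true := by
  simp only [nd4a, List.all_cons, List.all_nil, ok4a_1, Bool.and_self]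

end Pool.Agent.LibTR43
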