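import Pool.Agent.LibTR43.B2

/-!
[TR43] Negative correlation for representatives with `6` points: (codes, masks of the bases, numbers `b_e`).
-/

set_option autoImplicit false
set_option maxRecDepth 100000

namespace Pool.Agent.LibTR43

/-- entry 1 -/
def nd6a_1 : List ℕ × List ℕ × List ℕ :=
  ([1, 3, 4, 5, 9, 27], [51, 53, 54, 57, 58, 60], [3, 3, 3, 3, 6, 6])

theorem ok6a_1 : goodChk 6 nd6a_1 = true := by decide +kernel

/-- entry 2 -/
def nd6a_2 : List ℕ × List ℕ × List ℕ :=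
  ([1, 3, 4, 9, 10, 27], [43, 45, 46, 51, 53, 54, 58, 60], [4, 5, 5, 5, 5, 8])

theorem ok6a_2 : goodChk 6 nd6a_2 = true := by decide +kernel

/-- entry 3 -/
def nd6a_3 : List ℕ × List ℕ × List ℕ :=
  ([1, 3, 5, 9, 13, 27], [43, 45, 46, 51, 53, 54, 57, 58, 60], [5, 5, 5, 6, 6, 9])

theorem ok6a_3 : goodChk 6 nd6a_3 = true := by decide +kernel

/-- entry 4 -/
def nd6a_4 : List ℕ × List ℕ × List ℕ :=
  ([1, 3, 9, 12, 27, 28], [23, 27, 29, 39, 43, 45, 54, 58, 60], [6, 6, 6, 6, 6, 6])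

theorem ok6a_4 : goodChk 6 nd6a_4 = true := by decide +kernel

/-- entry 5 -/
def nd6a_5 : List ℕ × List ℕ × List ℕ :=
  ([1, 3, 9, 13, 27, 28], [23, 27, 29, 30, 39, 43, 45, 46, 54, 58, 60], [6, 8, 8, 8, 7, 7])

theorem ok6a_5 : goodChk 6 nd6a_5 = true := by decide +kernel

/-- entry 6 -/
def nd6a_6 : List ℕ × List ℕ × List ℕ :=
  ([1, 3, 5, 9, 27, 40], [27, 29, 30, 43, 45, 46, 51, 53, 54, 57, 58, 60], [7, 7, 7, 9, 9, 9])

theorem ok6a_6 : goodChk 6 nd6a_6 = true := by decide +kernel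

/-- entry 7 -/
def nd6a_7 : List ℕ × List ℕ × List ℕ :=
  ([1, 3, 9, 13, 27, 31], [23, 27, 29, 30, 39, 43, 45, 46, 53, 54, 57, 58], [8, 8, 8, 8, 8, 8])

theorem ok6a_7 : goodChk 6 nd6a_7 = true := by decide +kernel

/-- entry 8 -/
def nd6a_8 : List ℕ × List ℕ × List ℕ :=
  ([1, 3, 9, 14, 27, 31], [23, 27, 29, 30, 39, 43, 45, 46, 53, 54, 57, 58, 60], [8, 8, 9, 9, 9, 9])

theorem ok6a_8 : goodChk 6 nd6a_8 = true := by decide +kernel

/-- the data -/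
def nd6a : List (List ℕ × List ℕ × List ℕ) :=
  [nd6a_1, nd6a_2, nd6a_3, nd6a_4, nd6a_5, nd6a_6, nd6a_7, nd6a_8]

theorem ok6a : nd6a.all (goodChk 6) = true := by
  simp only [nd6a, List.all_cons, List.all_nil, ok6a_1, ok6a_2, ok6a_3, ok6a_4, ok6a_5, ok6a_6, ok6a_7, ok6a_8,
    Bool.and_self]

end Pool.Agent.LibTR43
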