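import Pool.Agent.LibTR43.B2

/-!
[TR43] Negative correlation for representatives with `7` points: (codes, masks of the bases, numbers `b_e`).
-/

set_option autoImplicit false
set_option maxRecDepth 100000

namespace Pool.Agent.LibTR43

/-- entry 1 -/
def nd7a_1 : List ℕ × List ℕ × List ℕ :=
  ([1, 3, 4, 5, 9, 10, 27], [83, 85, 86, 89, 90, 92, 99, 101, 102, 105, 106, 108, 114, 116, 120], [6, 7, 7, 7, 9, 9,
 15])

theorem ok7a_1 : goodChk 7 nd7a_1 = true := by decide +kernel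

/-- entry 2 -/
def nd7a_2 : List ℕ × List ℕ × List ℕ :=
  ([1, 3, 9, 12, 15, 27, 28], [39, 43, 45, 51, 53, 57, 71, 75, 77, 83, 85, 89, 102, 106, 108, 114, 116, 120], [12,
 9, 9, 9, 9, 12, 12])

theorem ok7a_2 : goodChk 7 nd7a_2 = true := by decide +kernel

/-- entry 3 -/
def nd7a_3 : List ℕ × List ℕ × List ℕ :=
  ([1, 3, 9, 13, 27, 28, 29], [23, 27, 29, 30, 39, 43, 45, 46, 54, 58, 60, 71, 75, 77, 78, 86, 90, 92, 102, 106,
 108], [9, 15, 15, 15, 10, 10, 10])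

theorem ok7a_3 : goodChk 7 nd7a_3 = true := by decide +kernel

/-- entry 4 -/
def nd7a_4 : List ℕ × List ℕ × List ℕ :=
  ([1, 3, 4, 9, 10, 12, 27], [75, 77, 78, 83, 85, 86, 90, 92, 99, 101, 102, 105, 108, 113, 114, 116, 120], [8, 8, 9,
 8, 9, 9, 17])

theorem ok7a_4 : goodChk 7 nd7a_4 = true := by decide +kernel

/-- entry 5 -/
def nd7a_5 : List ℕ × List ℕ × List ℕ :=
  ([1, 3, 5, 9, 10, 12, 27], [75, 77, 78, 83, 85, 86, 90, 92, 99, 101, 102, 105, 108, 113, 114, 120], [8, 8, 8, 8,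
 8, 8, 16])

theorem ok7a_5 : goodChk 7 nd7a_5 = true := by decide +kernel

/-- entry 6 -/
def nd7a_6 : List ℕ × List ℕ × List ℕ :=
  ([1, 3, 4, 9, 10, 27, 28], [43, 45, 46, 51, 53, 54, 58, 60, 75, 77, 78, 83, 85, 86, 90, 92, 106, 108, 114, 116],
 [8, 12, 12, 12, 12, 12, 12])

theorem ok7a_6 : goodChk 7 nd7a_6 = true := by decide +kernel

/-- entry 7 -/
def nd7a_7 : List ℕ × List ℕ × List ℕ :=
  ([1, 3, 4, 9, 12, 27, 28], [43, 45, 46, 51, 53, 54, 57, 60, 75, 77, 78, 83, 85, 86, 89, 92, 106, 108, 114, 116,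
 120], [10, 10, 12, 13, 13, 13, 13])

theorem ok7a_7 : goodChk 7 nd7a_7 = true := by decide +kernel

/-- entry 8 -/
def nd7a_8 : List ℕ × List ℕ × List ℕ :=
  ([1, 3, 5, 9, 13, 27, 28], [43, 45, 46, 51, 53, 54, 57, 58, 60, 75, 77, 78, 83, 85, 86, 89, 90, 92, 106, 108, 114,
 116, 120], [10, 12, 12, 15, 15, 14, 14])

theorem ok7a_8 : goodChk 7 nd7a_8 = true := by decide +kernel

/-- entry 9 -/
def nd7a_9 : List ℕ × List ℕ × List ℕ :=
  ([1, 3, 9, 13, 27, 28, 30], [23, 27, 29, 30, 39, 43, 45, 46, 54, 58, 60, 71, 75, 77, 78, 85, 89, 92, 101, 102,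
 105, 106, 108, 116, 120], [13, 13, 17, 17, 12, 14, 14])

theorem ok7a_9 : goodChk 7 nd7a_9 = true := by decide +kernel

/-- entry 10 -/
def nd7a_10 : List ℕ × List ℕ × List ℕ :=
  ([1, 3, 9, 14, 27, 28, 30], [23, 27, 29, 30, 39, 43, 45, 46, 54, 58, 60, 71, 75, 77, 78, 85, 89, 92, 101, 102,
 105, 106, 116, 120], [13, 13, 16, 16, 12, 13, 13])

theorem ok7a_10 : goodChk 7 nd7a_10 = true := by decide +kernel

/-- entry 11 -/
def nd7a_11 : List ℕ × List ℕ × List ℕ :=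
  ([1, 3, 9, 13, 14, 15, 27], [71, 75, 77, 78, 83, 85, 86, 90, 92, 99, 101, 105, 106, 108, 113, 114, 116, 120], [9,
 9, 9, 9, 9, 9, 18])

theorem ok7a_11 : goodChk 7 nd7a_11 = true := by decide +kernel

/-- entry 12 -/
def nd7a_12 : List ℕ × List ℕ × List ℕ :=
  ([1, 3, 5, 9, 13, 27, 31], [43, 45, 46, 51, 53, 54, 57, 58, 60, 75, 77, 78, 83, 85, 86, 89, 90, 92, 105, 106, 108,
 113, 114, 116], [12, 12, 12, 15, 15, 15, 15])

theorem ok7a_12 : goodChk 7 nd7a_12 = true := by decide +kernel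

/-- entry 13 -/
def nd7a_13 : List ℕ × List ℕ × List ℕ :=
  ([1, 3, 9, 13, 15, 27, 28], [39, 43, 45, 46, 51, 53, 57, 58, 60, 71, 75, 77, 78, 83, 85, 89, 90, 92, 102, 106,
 108, 114, 116, 120], [12, 13, 13, 15, 13, 15, 15])

theorem ok7a_13 : goodChk 7 nd7a_13 = true := by decide +kernel

/-- entry 14 -/
def nd7a_14 : List ℕ × List ℕ × List ℕ :=
  ([1, 3, 9, 11, 13, 27, 31], [39, 43, 46, 51, 53, 54, 57, 58, 60, 71, 75, 78, 83, 85, 86, 89, 90, 92, 101, 102,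
 105, 106, 108, 113, 114, 120], [13, 15, 13, 14, 15, 17, 17])

theorem ok7a_14 : goodChk 7 nd7a_14 = true := by decide +kernel

/-- entry 15 -/
def nd7a_15 : List ℕ × List ℕ × List ℕ :=
  ([1, 3, 9, 14, 16, 27, 31], [39, 43, 45, 46, 51, 53, 54, 57, 58, 71, 75, 77, 78, 83, 85, 86, 89, 90, 101, 102,
 105, 106, 108, 113, 114, 116, 120], [15, 15, 14, 14, 14, 18, 18])

theorem ok7a_15 : goodChk 7 nd7a_15 = true := by decide +kernel

/-- entry 16 -/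
def nd7a_16 : List ℕ × List ℕ × List ℕ :=
  ([1, 3, 9, 15, 27, 29, 40], [23, 27, 29, 39, 43, 45, 54, 58, 60, 71, 75, 77, 83, 85, 86, 89, 90, 92, 99, 101, 102,
 105, 106, 108, 114, 116, 120], [15, 15, 15, 15, 15, 15, 18])

theorem ok7a_16 : goodChk 7 nd7a_16 = true := by decide +kernel

/-- entry 17 -/
def nd7a_17 : List ℕ × List ℕ × List ℕ :=
  ([1, 3, 9, 14, 27, 31, 36], [23, 27, 29, 30, 39, 43, 45, 46, 53, 54, 57, 58, 60, 71, 75, 77, 78, 83, 89, 90, 99,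
 101, 102, 105, 108, 113, 114, 120], [17, 16, 15, 17, 15, 17, 15])

theorem ok7a_17 : goodChk 7 nd7a_17 = true := by decide +kernel

/-- entry 18 -/
def nd7a_18 : List ℕ × List ℕ × List ℕ :=
  ([1, 3, 9, 13, 27, 31, 37], [23, 27, 29, 30, 39, 43, 45, 46, 53, 54, 57, 58, 71, 75, 77, 78, 83, 86, 89, 92, 99,
 101, 105, 106, 108, 113, 114, 116, 120], [17, 16, 16, 17, 16, 17, 17])

theorem ok7a_18 : goodChk 7 nd7a_18 = true := by decide +kernel

/-- entry 19 -/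
def nd7a_19 : List ℕ × List ℕ × List ℕ :=
  ([1, 3, 9, 14, 27, 31, 37], [23, 27, 29, 30, 39, 43, 45, 46, 53, 54, 57, 58, 60, 71, 75, 77, 78, 83, 86, 89, 90,
 92, 99, 101, 105, 106, 108, 113, 114, 116], [17, 17, 17, 18, 17, 17, 17])

theorem ok7a_19 : goodChk 7 nd7a_19 = true := by decide +kernel

/-- the data -/
def nd7a : List (List ℕ × List ℕ × List ℕ) :=
  [nd7a_1, nd7a_2, nd7a_3, nd7a_4, nd7a_5, nd7a_6, nd7a_7, nd7a_8, nd7a_9, nd7a_10, nd7a_11, nd7a_12, nd7a_13,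
    nd7a_14, nd7a_15, nd7a_16, nd7a_17, nd7a_18, nd7a_19]

theorem ok7a : nd7a.all (goodChk 7) = true := by
  simp only [nd7a, List.all_cons, List.all_nil, ok7a_1, ok7a_2, ok7a_3, ok7a_4, ok7a_5, ok7a_6, ok7a_7, ok7a_8,
    ok7a_9, ok7a_10, ok7a_11, ok7a_12, ok7a_13, ok7a_14, ok7a_15, ok7a_16, ok7a_17, ok7a_18, ok7a_19, Bool.and_self]

end Pool.Agent.LibTR43
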