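import Pool.Agent.LibTR43.B3

/-!
[TR43] Negative correlation for representatives with `8` points: (codes, masks of the bases, numbers `b_e`).
-/

set_option autoImplicit false
set_option maxRecDepth 100000

namespace Pool.Agent.LibTR43

/-- entry 15 -/
def nd8a_15 : List ℕ × List ℕ × List ℕ :=
  ([1, 3, 4, 9, 14, 27, 28, 30], [43, 45, 46, 51, 53, 54, 57, 58, 60, 75, 77, 78, 83, 85, 86, 89, 90, 92, 106, 108,
 114, 116, 120, 139, 141, 142, 147, 149, 150, 153, 154, 156, 169, 172, 177, 180, 184, 201, 202, 204, 209, 210, 212,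
 232, 240], [19, 19, 21, 28, 28, 21, 22, 22])

theorem ok8a_15 : goodChk 8 nd8a_15 = true := by decide +kernel

/-- entry 16 -/
def nd8a_16 : List ℕ × List ℕ × List ℕ :=
  ([1, 3, 9, 11, 12, 13, 27, 31], [71, 75, 78, 83, 85, 89, 90, 92, 99, 101, 102, 105, 106, 108, 114, 116, 120, 135,
 139, 142, 147, 149, 153, 154, 156, 163, 165, 166, 169, 170, 172, 178, 180, 184, 197, 198, 201, 202, 204, 209, 210,
 212, 225, 226, 232, 240], [20, 22, 20, 22, 20, 22, 29, 29])

theorem ok8a_16 : goodChk 8 nd8a_16 = true := by decide +kernel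

/-- entry 17 -/
def nd8a_17 : List ℕ × List ℕ × List ℕ :=
  ([1, 3, 9, 10, 12, 14, 27, 31], [71, 75, 78, 83, 85, 89, 90, 92, 99, 101, 102, 105, 106, 108, 114, 116, 120, 135,
 139, 142, 147, 149, 153, 154, 156, 163, 165, 166, 169, 170, 172, 178, 180, 184, 197, 198, 201, 202, 204, 209, 210,
 212, 216, 225, 226, 228, 240], [20, 22, 21, 22, 21, 22, 30, 30])

theorem ok8a_17 : goodChk 8 nd8a_17 = true := by decide +kernel

/-- entry 18 -/
def nd8a_18 : List ℕ × List ℕ × List ℕ :=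
  ([1, 3, 5, 9, 10, 12, 27, 28], [75, 77, 78, 83, 85, 86, 90, 92, 99, 101, 102, 105, 108, 113, 114, 120, 139, 141,
 142, 147, 149, 150, 154, 156, 163, 165, 166, 169, 172, 177, 178, 184, 202, 204, 210, 212, 226, 228, 232, 240], [16,
 19, 19, 19, 19, 20, 24, 24])

theorem ok8a_18 : goodChk 8 nd8a_18 = true := by decide +kernel

/-- entry 19 -/
def nd8a_19 : List ℕ × List ℕ × List ℕ :=
  ([1, 3, 5, 9, 13, 27, 28, 30], [43, 45, 46, 51, 53, 54, 57, 58, 60, 75, 77, 78, 83, 85, 86, 89, 90, 92, 106, 108,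
 114, 116, 120, 139, 141, 142, 147, 149, 150, 153, 154, 156, 169, 172, 177, 180, 184, 201, 202, 209, 210, 216, 232,
 240], [19, 19, 19, 28, 28, 21, 21, 21])

theorem ok8a_19 : goodChk 8 nd8a_19 = true := by decide +kernel

/-- entry 20 -/
def nd8a_20 : List ℕ × List ℕ × List ℕ :=
  ([1, 3, 9, 10, 12, 13, 27, 31], [71, 75, 78, 83, 85, 89, 90, 92, 99, 101, 102, 105, 108, 114, 116, 120, 135, 139,
 142, 147, 149, 153, 154, 156, 163, 165, 166, 169, 172, 178, 180, 184, 197, 198, 201, 202, 204, 209, 210, 212, 216,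
 225, 226, 232, 240], [20, 20, 20, 21, 21, 20, 29, 29])

theorem ok8a_20 : goodChk 8 nd8a_20 = true := by decide +kernel

/-- entry 21 -/
def nd8a_21 : List ℕ × List ℕ × List ℕ :=
  ([1, 3, 9, 13, 27, 28, 30, 36], [23, 27, 29, 30, 39, 43, 45, 46, 54, 58, 60, 71, 75, 77, 78, 85, 89, 92, 101, 102,
 105, 106, 108, 116, 120, 135, 139, 141, 142, 147, 153, 154, 163, 166, 169, 170, 172, 178, 184, 195, 197, 201, 202,
 204, 209, 216, 225, 226, 228, 240], [25, 25, 25, 30, 20, 25, 25, 25])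

theorem ok8a_21 : goodChk 8 nd8a_21 = true := by decide +kernel

/-- entry 22 -/
def nd8a_22 : List ℕ × List ℕ × List ℕ :=
  ([1, 3, 9, 10, 12, 27, 28, 30], [39, 43, 46, 51, 53, 57, 58, 60, 71, 75, 78, 83, 85, 89, 90, 92, 102, 106, 114,
 116, 120, 135, 139, 142, 147, 149, 153, 154, 156, 165, 169, 172, 177, 184, 197, 198, 201, 202, 204, 209, 210, 212,
 228, 232, 240], [21, 21, 21, 24, 24, 21, 24, 24])

theorem ok8a_22 : goodChk 8 nd8a_22 = true := by decide +kernel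

/-- entry 23 -/
def nd8a_23 : List ℕ × List ℕ × List ℕ :=
  ([1, 3, 9, 11, 12, 27, 28, 30], [39, 43, 46, 51, 53, 57, 58, 60, 71, 75, 78, 83, 85, 89, 90, 92, 102, 106, 114,
 116, 120, 135, 139, 142, 147, 149, 153, 154, 156, 165, 169, 172, 177, 184, 197, 198, 201, 202, 204, 209, 210, 212,
 216, 228, 232, 240], [21, 21, 21, 25, 25, 21, 25, 25])

theorem ok8a_23 : goodChk 8 nd8a_23 = true := by decide +kernel

/-- entry 24 -/
def nd8a_24 : List ℕ × List ℕ × List ℕ :=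
  ([1, 3, 9, 11, 13, 27, 28, 30], [39, 43, 46, 51, 53, 54, 57, 58, 60, 71, 75, 78, 83, 85, 86, 89, 90, 92, 102, 106,
 114, 116, 120, 135, 139, 142, 147, 149, 150, 153, 154, 156, 165, 169, 172, 177, 180, 184, 197, 198, 201, 202, 204,
 209, 210, 212, 228, 232, 240], [21, 24, 25, 24, 28, 23, 25, 26])

theorem ok8a_24 : goodChk 8 nd8a_24 = true := by decide +kernel

/-- entry 25 -/
def nd8a_25 : List ℕ × List ℕ × List ℕ :=
  ([1, 3, 9, 12, 14, 27, 31, 36], [39, 43, 45, 51, 53, 54, 58, 60, 71, 75, 77, 83, 85, 86, 90, 92, 101, 102, 105,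
 106, 108, 113, 114, 116, 120, 135, 139, 141, 147, 149, 150, 154, 156, 163, 169, 177, 178, 184, 195, 197, 198, 201,
 202, 204, 209, 212, 216, 225, 226, 232, 240], [26, 24, 23, 23, 26, 26, 30, 26])

theorem ok8a_25 : goodChk 8 nd8a_25 = true := by decide +kernel

/-- entry 26 -/
def nd8a_26 : List ℕ × List ℕ × List ℕ :=
  ([1, 3, 9, 13, 14, 15, 27, 28], [71, 75, 77, 78, 83, 85, 86, 90, 92, 99, 101, 105, 106, 108, 113, 114, 116, 120,
 135, 139, 141, 142, 147, 149, 150, 154, 156, 163, 165, 169, 170, 172, 177, 178, 180, 184, 198, 202, 204, 210, 212,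
 226, 228, 232, 240], [18, 22, 22, 21, 21, 22, 27, 27])

theorem ok8a_26 : goodChk 8 nd8a_26 = true := by decide +kernel

/-- entry 27 -/
def nd8a_27 : List ℕ × List ℕ × List ℕ :=
  ([1, 3, 9, 11, 13, 27, 29, 31], [39, 43, 46, 51, 53, 54, 57, 58, 60, 71, 75, 78, 83, 85, 86, 89, 90, 92, 102, 106,
 114, 116, 120, 135, 139, 142, 147, 149, 150, 153, 154, 156, 165, 166, 169, 170, 172, 177, 178, 184, 197, 198, 201,
 202, 204, 209, 210, 212, 228, 232, 240], [21, 27, 25, 25, 28, 25, 25, 28])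

theorem ok8a_27 : goodChk 8 nd8a_27 = true := by decide +kernel

/-- entry 28 -/
def nd8a_28 : List ℕ × List ℕ × List ℕ :=
  ([1, 3, 9, 10, 14, 27, 31, 36], [39, 43, 46, 51, 53, 54, 57, 58, 60, 71, 75, 78, 83, 85, 86, 89, 90, 92, 101, 102,
 105, 106, 108, 113, 114, 116, 135, 139, 142, 147, 149, 150, 153, 154, 156, 163, 170, 177, 178, 184, 195, 197, 198,
 201, 202, 204, 209, 212, 216, 225, 226, 232, 240], [25, 28, 23, 25, 28, 26, 30, 27])

theorem ok8a_28 : goodChk 8 nd8a_28 = true := by decide +kernel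

end Pool.Agent.LibTR43
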