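import Pool.Agent.LibTR43.B3

/-!
[TR43] Negative correlation for representatives with `8` points: (codes, masks of the bases, numbers `b_e`).
-/

set_option autoImplicit false
set_option maxRecDepth 100000

namespace Pool.Agent.LibTR43

/-- entry 29 -/
def nd8a_29 : List ℕ × List ℕ × List ℕ :=
  ([1, 3, 9, 13, 17, 27, 28, 30], [39, 43, 45, 46, 51, 53, 54, 57, 58, 71, 75, 77, 78, 83, 85, 86, 89, 90, 102, 106,
 108, 114, 116, 120, 135, 139, 141, 142, 147, 149, 150, 153, 154, 165, 169, 172, 177, 180, 184, 197, 198, 201, 202,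
 204, 209, 210, 212, 216, 228, 232, 240], [24, 24, 26, 26, 26, 24, 27, 27])

theorem ok8a_29 : goodChk 8 nd8a_29 = true := by decide +kernel

/-- entry 30 -/
def nd8a_30 : List ℕ × List ℕ × List ℕ :=
  ([1, 3, 9, 14, 27, 30, 31, 37], [23, 27, 29, 30, 39, 43, 45, 46, 53, 57, 60, 71, 75, 77, 78, 85, 86, 89, 90, 92,
 102, 106, 108, 116, 120, 135, 139, 141, 142, 147, 150, 153, 154, 156, 163, 165, 166, 169, 170, 177, 180, 184, 195,
 197, 201, 202, 204, 209, 210, 212, 226, 228, 232, 240], [26, 26, 29, 30, 26, 24, 26, 29])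

theorem ok8a_30 : goodChk 8 nd8a_30 = true := by decide +kernel

/-- entry 31 -/
def nd8a_31 : List ℕ × List ℕ × List ℕ :=
  ([1, 3, 9, 14, 16, 27, 28, 30], [39, 43, 45, 46, 51, 53, 54, 57, 58, 71, 75, 77, 78, 83, 85, 86, 89, 90, 102, 106,
 108, 114, 116, 120, 135, 139, 141, 142, 147, 149, 150, 153, 154, 165, 169, 172, 177, 180, 184, 197, 198, 201, 202,
 209, 210, 228, 232, 240], [24, 24, 24, 24, 24, 24, 24, 24])

theorem ok8a_31 : goodChk 8 nd8a_31 = true := by decide +kernel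

/-- entry 32 -/
def nd8a_32 : List ℕ × List ℕ × List ℕ :=
  ([1, 3, 9, 13, 14, 15, 27, 31], [71, 75, 77, 78, 83, 85, 86, 90, 92, 99, 101, 105, 106, 108, 113, 114, 116, 120,
 135, 139, 141, 142, 147, 149, 150, 154, 156, 163, 165, 169, 170, 172, 177, 178, 180, 184, 197, 198, 201, 202, 209,
 210, 212, 216, 225, 226, 228, 232], [22, 22, 22, 22, 22, 22, 30, 30])

theorem ok8a_32 : goodChk 8 nd8a_32 = true := by decide +kernel

/-- entry 33 -/
def nd8a_33 : List ℕ × List ℕ × List ℕ :=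
  ([1, 3, 5, 9, 13, 17, 27, 31], [75, 77, 78, 83, 85, 86, 89, 90, 92, 99, 101, 102, 105, 106, 108, 113, 114, 116,
 139, 141, 142, 147, 149, 150, 153, 154, 156, 163, 165, 166, 169, 170, 172, 177, 178, 180, 201, 202, 204, 209, 210,
 212, 225, 226, 228], [21, 21, 21, 21, 21, 21, 27, 27])

theorem ok8a_33 : goodChk 8 nd8a_33 = true := by decide +kernel

/-- entry 34 -/
def nd8a_34 : List ℕ × List ℕ × List ℕ :=
  ([1, 3, 9, 14, 16, 27, 29, 31], [39, 43, 45, 46, 51, 53, 54, 57, 58, 71, 75, 77, 78, 83, 85, 86, 89, 90, 102, 106,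
 108, 114, 116, 120, 135, 139, 141, 142, 147, 149, 150, 153, 154, 165, 166, 169, 170, 172, 177, 178, 180, 184, 197,
 198, 201, 202, 209, 210, 228, 232, 240], [24, 27, 25, 25, 25, 27, 24, 27])

theorem ok8a_34 : goodChk 8 nd8a_34 = true := by decide +kernel

/-- entry 35 -/
def nd8a_35 : List ℕ × List ℕ × List ℕ :=
  ([1, 3, 5, 9, 13, 27, 31, 37], [43, 45, 46, 51, 53, 54, 57, 58, 60, 75, 77, 78, 83, 85, 86, 89, 90, 92, 105, 106,
 108, 113, 114, 116, 139, 141, 142, 147, 149, 150, 153, 154, 156, 163, 165, 166, 170, 172, 177, 180, 184, 195, 197,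
 198, 201, 204, 209, 210, 216, 225, 226, 228, 232, 240], [25, 24, 25, 28, 28, 28, 28, 30])

theorem ok8a_35 : goodChk 8 nd8a_35 = true := by decide +kernel

/-- entry 36 -/
def nd8a_36 : List ℕ × List ℕ × List ℕ :=
  ([1, 3, 9, 13, 15, 27, 29, 31], [39, 43, 45, 46, 51, 53, 57, 58, 60, 71, 75, 77, 78, 83, 85, 89, 90, 92, 102, 106,
 108, 114, 116, 120, 135, 139, 141, 142, 147, 149, 153, 154, 156, 165, 166, 169, 170, 177, 178, 180, 184, 197, 198,
 201, 202, 204, 209, 210, 212, 228, 232, 240], [24, 24, 26, 28, 26, 26, 26, 28])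

theorem ok8a_36 : goodChk 8 nd8a_36 = true := by decide +kernel

/-- entry 37 -/
def nd8a_37 : List ℕ × List ℕ × List ℕ :=
  ([1, 3, 9, 13, 14, 27, 32, 37], [39, 43, 45, 46, 51, 53, 54, 58, 60, 71, 75, 77, 78, 83, 85, 86, 90, 92, 101, 102,
 105, 106, 108, 113, 114, 120, 135, 139, 141, 142, 147, 149, 150, 154, 156, 163, 166, 169, 172, 177, 178, 180, 184,
 195, 197, 198, 201, 202, 209, 212, 216, 225, 226, 228, 232, 240], [26, 28, 28, 26, 26, 30, 30, 30])

theorem ok8a_37 : goodChk 8 nd8a_37 = true := by decide +kernel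

/-- entry 38 -/
def nd8a_38 : List ℕ × List ℕ × List ℕ :=
  ([1, 3, 9, 13, 14, 27, 31, 37], [39, 43, 45, 46, 51, 53, 54, 58, 60, 71, 75, 77, 78, 83, 85, 86, 90, 92, 101, 102,
 105, 106, 113, 114, 116, 120, 135, 139, 141, 142, 147, 149, 150, 154, 156, 163, 166, 169, 172, 177, 178, 180, 184,
 195, 197, 201, 202, 204, 209, 210, 212, 216, 225, 226, 228, 232], [26, 28, 28, 26, 27, 29, 30, 30])

theorem ok8a_38 : goodChk 8 nd8a_38 = true := by decide +kernel

/-- entry 39 -/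
def nd8a_39 : List ℕ × List ℕ × List ℕ :=
  ([1, 3, 9, 13, 17, 27, 32, 34], [39, 43, 45, 46, 51, 53, 54, 57, 58, 71, 75, 77, 78, 83, 85, 86, 89, 90, 101, 102,
 105, 106, 108, 113, 114, 116, 120, 135, 139, 141, 142, 147, 149, 150, 153, 154, 165, 166, 169, 170, 172, 177, 178,
 180, 184, 197, 198, 201, 202, 204, 209, 210, 212, 216], [27, 27, 27, 27, 27, 27, 27, 27])

theorem ok8a_39 : goodChk 8 nd8a_39 = true := by decide +kernel

/-- entry 40 -/
def nd8a_40 : List ℕ × List ℕ × List ℕ :=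
  ([1, 3, 9, 13, 27, 31, 37, 39], [23, 27, 29, 30, 39, 43, 45, 46, 53, 54, 57, 58, 71, 75, 77, 78, 83, 86, 89, 92,
 99, 101, 105, 106, 108, 113, 114, 116, 120, 135, 139, 141, 142, 147, 149, 154, 156, 163, 166, 169, 170, 172, 177,
 178, 180, 184, 197, 198, 201, 202, 204, 209, 210, 212, 216, 225, 226, 228, 240], [29, 29, 29, 30, 29, 30, 30, 30])

theorem ok8a_40 : goodChk 8 nd8a_40 = true := by decide +kernel

/-- entry 41 -/
def nd8a_41 : List ℕ × List ℕ × List ℕ :=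
  ([1, 3, 9, 16, 27, 32, 37, 39], [23, 27, 29, 30, 39, 43, 45, 46, 53, 54, 57, 58, 71, 75, 77, 78, 83, 86, 89, 92,
 99, 101, 102, 106, 108, 113, 114, 116, 120, 135, 139, 141, 142, 147, 149, 153, 154, 156, 163, 166, 169, 172, 177,
 178, 180, 184, 197, 198, 201, 202, 209, 210, 212, 216, 225, 226, 228, 232], [29, 29, 29, 29, 29, 29, 29, 29])

theorem ok8a_41 : goodChk 8 nd8a_41 = true := by decide +kernel

/-- entry 42 -/
def nd8a_42 : List ℕ × List ℕ × List ℕ :=
  ([1, 3, 9, 17, 27, 35, 37, 39], [23, 27, 29, 30, 39, 43, 45, 46, 53, 54, 57, 58, 71, 75, 77, 78, 83, 86, 89, 90,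
 92, 99, 101, 102, 105, 108, 113, 114, 116, 120, 135, 139, 141, 142, 147, 149, 153, 154, 156, 163, 165, 166, 170,
 172, 177, 178, 180, 184, 197, 198, 201, 202, 204, 209, 210, 212, 225, 226, 232, 240], [30, 30, 30, 30, 30, 30, 30,
 30])

theorem ok8a_42 : goodChk 8 nd8a_42 = true := by decide +kernel

end Pool.Agent.LibTR43
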