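import Pool.Agent.LibTR43.Nc8a1
import Pool.Agent.LibTR43.Nc8a2
import Pool.Agent.LibTR43.Nc8a3

/-!
[TR43] Negative correlation for representatives with `8` points: (codes, masks of the bases, numbers `b_e`).
-/

set_option autoImplicit false
set_option maxRecDepth 100000

namespace Pool.Agent.LibTR43

/-- the data -/
def nd8a : List (List ℕ × List ℕ × List ℕ) :=
  [nd8a_1, nd8a_2, nd8a_3, nd8a_4, nd8a_5, nd8a_6, nd8a_7, nd8a_8, nd8a_9, nd8a_10, nd8a_11, nd8a_12, nd8a_13,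
    nd8a_14, nd8a_15, nd8a_16, nd8a_17, nd8a_18, nd8a_19, nd8a_20, nd8a_21, nd8a_22, nd8a_23, nd8a_24, nd8a_25,
    nd8a_26, nd8a_27, nd8a_28, nd8a_29, nd8a_30, nd8a_31, nd8a_32, nd8a_33, nd8a_34, nd8a_35, nd8a_36, nd8a_37,
    nd8a_38, nd8a_39, nd8a_40, nd8a_41, nd8a_42]

theorem ok8a : nd8a.all (goodChk 8) = true := by
  simp only [nd8a, List.all_cons, List.all_nil, ok8a_1, ok8a_2, ok8a_3, ok8a_4, ok8a_5, ok8a_6, ok8a_7, ok8a_8,
    ok8a_9, ok8a_10, ok8a_11, ok8a_12, ok8a_13, ok8a_14, ok8a_15, ok8a_16, ok8a_17, ok8a_18, ok8a_19, ok8a_20,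
    ok8a_21, ok8a_22, ok8a_23, ok8a_24, ok8a_25, ok8a_26, ok8a_27, ok8a_28, ok8a_29, ok8a_30, ok8a_31, ok8a_32,
    ok8a_33, ok8a_34, ok8a_35, ok8a_36, ok8a_37, ok8a_38, ok8a_39, ok8a_40, ok8a_41, ok8a_42, Bool.and_self]

end Pool.Agent.LibTR43
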