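import Pool.Agent.LibTR43.Nc9a1
import Pool.Agent.LibTR43.Nc9a2
import Pool.Agent.LibTR43.Nc9a3

/-!
[TR43] Negative correlation for representatives with `9` points: (codes, masks of the bases, numbers `b_e`).
-/

set_option autoImplicit false
set_option maxRecDepth 100000

namespace Pool.Agent.LibTR43

/-- the data -/
def nd9a : List (List ℕ × List ℕ × List ℕ) :=
  [nd9a_1, nd9a_2, nd9a_3, nd9a_4, nd9a_5, nd9a_6, nd9a_7, nd9a_8, nd9a_9, nd9a_10, nd9a_11, nd9a_12, nd9a_13,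
    nd9a_14, nd9a_15, nd9a_16, nd9a_17, nd9a_18, nd9a_19, nd9a_20, nd9a_21, nd9a_22, nd9a_23, nd9a_24, nd9a_25,
    nd9a_26, nd9a_27, nd9a_28, nd9a_29, nd9a_30, nd9a_31, nd9a_32, nd9a_33, nd9a_34, nd9a_35]

theorem ok9a : nd9a.all (goodChk 9) = true := by
  simp only [nd9a, List.all_cons, List.all_nil, ok9a_1, ok9a_2, ok9a_3, ok9a_4, ok9a_5, ok9a_6, ok9a_7, ok9a_8,
    ok9a_9, ok9a_10, ok9a_11, ok9a_12, ok9a_13, ok9a_14, ok9a_15, ok9a_16, ok9a_17, ok9a_18, ok9a_19, ok9a_20,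
    ok9a_21, ok9a_22, ok9a_23, ok9a_24, ok9a_25, ok9a_26, ok9a_27, ok9a_28, ok9a_29, ok9a_30, ok9a_31, ok9a_32,
    ok9a_33, ok9a_34, ok9a_35, Bool.and_self]

end Pool.Agent.LibTR43
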