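import Pool.Agent.LibTR43.Nc9b1
import Pool.Agent.LibTR43.Nc9b2
import Pool.Agent.LibTR43.Nc9b3

/-!
[TR43] Negative correlation for representatives with `9` points: (codes, masks of the bases, numbers `b_e`).
-/

set_option autoImplicit false
set_option maxRecDepth 100000

namespace Pool.Agent.LibTR43

/-- the data -/
def nd9b : List (List ℕ × List ℕ × List ℕ) :=
  [nd9b_1, nd9b_2, nd9b_3, nd9b_4, nd9b_5, nd9b_6, nd9b_7, nd9b_8, nd9b_9, nd9b_10, nd9b_11, nd9b_12, nd9b_13,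
    nd9b_14, nd9b_15, nd9b_16, nd9b_17, nd9b_18, nd9b_19, nd9b_20, nd9b_21, nd9b_22, nd9b_23, nd9b_24, nd9b_25,
    nd9b_26, nd9b_27, nd9b_28, nd9b_29, nd9b_30, nd9b_31, nd9b_32, nd9b_33, nd9b_34, nd9b_35]

theorem ok9b : nd9b.all (goodChk 9) = true := by
  simp only [nd9b, List.all_cons, List.all_nil, ok9b_1, ok9b_2, ok9b_3, ok9b_4, ok9b_5, ok9b_6, ok9b_7, ok9b_8,
    ok9b_9, ok9b_10, ok9b_11, ok9b_12, ok9b_13, ok9b_14, ok9b_15, ok9b_16, ok9b_17, ok9b_18, ok9b_19, ok9b_20,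
    ok9b_21, ok9b_22, ok9b_23, ok9b_24, ok9b_25, ok9b_26, ok9b_27, ok9b_28, ok9b_29, ok9b_30, ok9b_31, ok9b_32,
    ok9b_33, ok9b_34, ok9b_35, Bool.and_self]

end Pool.Agent.LibTR43
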