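import Pool.Agent.LibTR43.A3
import Pool.Agent.LibTR43.F1
import Pool.Agent.LibTR43.En4
import Pool.Agent.LibTR43.En5
import Pool.Agent.LibTR43.En6
import Pool.Agent.LibTR43.En7
import Pool.Agent.LibTR43.En8
import Pool.Agent.LibTR43.En9
import Pool.Agent.LibTR43.En10
import Pool.Agent.LibTR43.En11
import Pool.Agent.LibTR43.En12
import Pool.Agent.LibTR43.En13
import Pool.Agent.LibTR43.En14
import Pool.Agent.LibTR43.En15
import Pool.Agent.LibTR43.En16
import Pool.Agent.LibTR43.Nc4a
import Pool.Agent.LibTR43.Nc5a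
import Pool.Agent.LibTR43.Nc6a
import Pool.Agent.LibTR43.Nc7a
import Pool.Agent.LibTR43.Nc8a
import Pool.Agent.LibTR43.Nc9a
import Pool.Agent.LibTR43.Nc9b
import Pool.Agent.LibTR43.Nc10a
import Pool.Agent.LibTR43.Nc10b
import Pool.Agent.LibTR43.Nc10c
import Pool.Agent.LibTR43.Nc10d
import Pool.Agent.LibTR43.Nc11a
import Pool.Agent.LibTR43.Nc11b
import Pool.Agent.LibTR43.Nc11c
import Pool.Agent.LibTR43.Nc11d
import Pool.Agent.LibTR43.Nc12a
import Pool.Agent.LibTR43.Nc12b
import Pool.Agent.LibTR43.Nc12c
import Pool.Agent.LibTR43.Nc12d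
import Pool.Agent.LibTR43.Nc13a
import Pool.Agent.LibTR43.Nc13b
import Pool.Agent.LibTR43.Nc14a
import Pool.Agent.LibTR43.Nc15a
import Pool.Agent.LibTR43.Nc16a

/-!
[TR43] The enumeration.
-/

set_option autoImplicit false
set_option maxRecDepth 100000

namespace Pool.Agent.LibTR43

private theorem good4 : ∀ R ∈ reps4, Good 4 R := by
  have h : reps4 = (nd4a).map Prod.fst := by decide +kernel
  intro R hR
  rw [h, List.mem_map] at hR
  obtain ⟨x, hx, rfl⟩ := hR
  exact good_sound (List.all_eq_true.1 ok4a x hx)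

private theorem good5 : ∀ R ∈ reps5, Good 5 R := by
  have h : reps5 = (nd5a).map Prod.fst := by decide +kernel
  intro R hR
  rw [h, List.mem_map] at hR
  obtain ⟨x, hx, rfl⟩ := hR
  exact good_sound (List.all_eq_true.1 ok5a x hx)

private theorem good6 : ∀ R ∈ reps6, Good 6 R := by
  have h : reps6 = (nd6a).map Prod.fst := by decide +kernel
  intro R hR
  rw [h, List.mem_map] at hR
  obtain ⟨x, hx, rfl⟩ := hR
  exact good_sound (List.all_eq_true.1 ok6a x hx)

private theorem good7 : ∀ R ∈ reps7, Good 7 R := by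
  have h : reps7 = (nd7a).map Prod.fst := by decide +kernel
  intro R hR
  rw [h, List.mem_map] at hR
  obtain ⟨x, hx, rfl⟩ := hR
  exact good_sound (List.all_eq_true.1 ok7a x hx)

private theorem good8 : ∀ R ∈ reps8, Good 8 R := by
  have h : reps8 = (nd8a).map Prod.fst := by decide +kernel
  intro R hR
  rw [h, List.mem_map] at hR
  obtain ⟨x, hx, rfl⟩ := hR
  exact good_sound (List.all_eq_true.1 ok8a x hx)

private theorem good9 : ∀ R ∈ reps9, Good 9 R := by
  have h : reps9 = (nd9a ++ nd9b).map Prod.fst := by decide +kernel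
  intro R hR
  rw [h, List.mem_map] at hR
  obtain ⟨x, hx, rfl⟩ := hR
  simp only [List.mem_append, or_assoc] at hx
  rcases hx with hx | hx
  · exact good_sound (List.all_eq_true.1 ok9a x hx)
  · exact good_sound (List.all_eq_true.1 ok9b x hx)

private theorem good10 : ∀ R ∈ reps10, Good 10 R := by
  have h : reps10 = (nd10a ++ nd10b ++ nd10c ++ nd10d).map Prod.fst := by decide +kernel
  intro R hR
  rw [h, List.mem_map] at hR
  obtain ⟨x, hx, rfl⟩ := hR
  simp only [List.mem_append, or_assoc] at hx
  rcases hx with hx | hx | hx | hx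
  · exact good_sound (List.all_eq_true.1 ok10a x hx)
  · exact good_sound (List.all_eq_true.1 ok10b x hx)
  · exact good_sound (List.all_eq_true.1 ok10c x hx)
  · exact good_sound (List.all_eq_true.1 ok10d x hx)

private theorem good11 : ∀ R ∈ reps11, Good 11 R := by
  have h : reps11 = (nd11a ++ nd11b ++ nd11c ++ nd11d).map Prod.fst := by decide +kernel
  intro R hR
  rw [h, List.mem_map] at hR
  obtain ⟨x, hx, rfl⟩ := hR
  simp only [List.mem_append, or_assoc] at hx
  rcases hx with hx | hx | hx | hx
  · exact good_sound (List.all_eq_true.1 ok11a x hx)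
  · exact good_sound (List.all_eq_true.1 ok11b x hx)
  · exact good_sound (List.all_eq_true.1 ok11c x hx)
  · exact good_sound (List.all_eq_true.1 ok11d x hx)

private theorem good12 : ∀ R ∈ reps12, Good 12 R := by
  have h : reps12 = (nd12a ++ nd12b ++ nd12c ++ nd12d).map Prod.fst := by decide +kernel
  intro R hR
  rw [h, List.mem_map] at hR
  obtain ⟨x, hx, rfl⟩ := hR
  simp only [List.mem_append, or_assoc] at hx
  rcases hx with hx | hx | hx | hx
  · exact good_sound (List.all_eq_true.1 ok12a x hx)
  · exact good_sound (List.all_eq_true.1 ok12b x hx)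
  · exact good_sound (List.all_eq_true.1 ok12c x hx)
  · exact good_sound (List.all_eq_true.1 ok12d x hx)

private theorem good13 : ∀ R ∈ reps13, Good 13 R := by
  have h : reps13 = (nd13a ++ nd13b).map Prod.fst := by decide +kernel
  intro R hR
  rw [h, List.mem_map] at hR
  obtain ⟨x, hx, rfl⟩ := hR
  simp only [List.mem_append, or_assoc] at hx
  rcases hx with hx | hx
  · exact good_sound (List.all_eq_true.1 ok13a x hx)
  · exact good_sound (List.all_eq_true.1 ok13b x hx)

private theorem good14 : ∀ R ∈ reps14, Good 14 R := by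
  have h : reps14 = (nd14a).map Prod.fst := by decide +kernel
  intro R hR
  rw [h, List.mem_map] at hR
  obtain ⟨x, hx, rfl⟩ := hR
  exact good_sound (List.all_eq_true.1 ok14a x hx)

private theorem good15 : ∀ R ∈ reps15, Good 15 R := by
  have h : reps15 = (nd15a).map Prod.fst := by decide +kernel
  intro R hR
  rw [h, List.mem_map] at hR
  obtain ⟨x, hx, rfl⟩ := hR
  exact good_sound (List.all_eq_true.1 ok15a x hx)

private theorem good16 : ∀ R ∈ reps16, Good 16 R := by
  have h : reps16 = (nd16a).map Prod.fst := by decide +kernel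
  intro R hR
  rw [h, List.mem_map] at hR
  obtain ⟨x, hx, rfl⟩ := hR
  exact good_sound (List.all_eq_true.1 ok16a x hx)

private theorem cov4 : Cov 4 (ce4.map Prod.fst) := by
  rw [fst4]
  exact cov_base

private theorem cov5 : Cov 5 (ce5.map Prod.fst) := by
  rw [fst5]
  exact cov_step (by norm_num) cov4 chk4

private theorem cov6 : Cov 6 (ce6.map Prod.fst) := by
  rw [fst6]
  exact cov_step (by norm_num) cov5 chk5

private theorem cov7 : Cov 7 (ce7.map Prod.fst) := by
  rw [fst7]
  exact cov_step (by norm_num) cov6 chk6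

private theorem cov8 : Cov 8 (ce8.map Prod.fst) := by
  rw [fst8]
  exact cov_step (by norm_num) cov7 chk7

private theorem cov9 : Cov 9 (ce9.map Prod.fst) := by
  rw [fst9]
  exact cov_step (by norm_num) cov8 chk8

private theorem cov10 : Cov 10 (ce10.map Prod.fst) := by
  rw [fst10]
  exact cov_step (by norm_num) cov9 chk9

private theorem cov11 : Cov 11 (ce11.map Prod.fst) := by
  rw [fst11]
  exact cov_step (by norm_num) cov10 chk10

private theorem cov12 : Cov 12 (ce12.map Prod.fst) := by
  rw [fst12]
  exact cov_step (by norm_num) cov11 chk11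

private theorem cov13 : Cov 13 (ce13.map Prod.fst) := by
  rw [fst13]
  exact cov_step (by norm_num) cov12 chk12

private theorem cov14 : Cov 14 (ce14.map Prod.fst) := by
  rw [fst14]
  exact cov_step (by norm_num) cov13 chk13

private theorem cov15 : Cov 15 (ce15.map Prod.fst) := by
  rw [fst15]
  exact cov_step (by norm_num) cov14 chk14

private theorem cov16 : Cov 16 (ce16.map Prod.fst) := by
  rw [fst16]
  exact cov_step (by norm_num) cov15 chk15

private theorem cov17 : Cov 17 [] := cov_step (by norm_num) cov16 chk16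

/-- the enumeration -/
theorem en : EN := by
  intro n hn
  by_cases h17 : 17 ≤ n
  · exact ⟨[], cov_top cov17 h17, by simp, fun _ => rfl⟩
  · have h16 : n ≤ 16 := by omega
    interval_cases n
    · exact ⟨reps4, fst4 ▸ cov4, good4, fun h => absurd h h17⟩
    · exact ⟨reps5, fst5 ▸ cov5, good5, fun h => absurd h h17⟩
    · exact ⟨reps6, fst6 ▸ cov6, good6, fun h => absurd h h17⟩
    · exact ⟨reps7, fst7 ▸ cov7, good7, fun h => absurd h h17⟩
    · exact ⟨reps8, fst8 ▸ cov8, good8, fun h => absurd h h17⟩
    · exact ⟨reps9, fst9 ▸ cov9, good9, fun h => absurd h h17⟩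
    · exact ⟨reps10, fst10 ▸ cov10, good10, fun h => absurd h h17⟩
    · exact ⟨reps11, fst11 ▸ cov11, good11, fun h => absurd h h17⟩
    · exact ⟨reps12, fst12 ▸ cov12, good12, fun h => absurd h h17⟩
    · exact ⟨reps13, fst13 ▸ cov13, good13, fun h => absurd h h17⟩
    · exact ⟨reps14, fst14 ▸ cov14, good14, fun h => absurd h h17⟩
    · exact ⟨reps15, fst15 ▸ cov15, good15, fun h => absurd h h17⟩
    · exact ⟨reps16, fst16 ▸ cov16, good16, fun h => absurd h h17⟩

end Pool.Agent.LibTR43
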