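import Pool.Agent.H67Tern.Iso

set_option autoImplicit false

/-!
# Ternary simple matroids of rank four: the Boolean check of the enumeration

A vector of `GF(3)^4` is coded by the number `c = v_0 + 3 v_1 + 9 v_2 + 27 v_3 < 81`. A set of vectors closed under
negation is coded by the mask `∑ 2 ^ c`.
-/

namespace Pool.Agent.LibTR43

open Pool.Agent.H67Tern

/-- the digits of a code -/
def dig (c : ℕ) : List ℕ := [c % 3, c / 3 % 3, c / 9 % 3, c / 27 % 3]

/-- the vector with code `c` -/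
def dec (c : ℕ) : Fin 4 → ZMod 3 := vec 4 (dig c)

/-- the code of the negative -/
def ngc (c : ℕ) : ℕ :=
  Nat.add (2 * (c % 3) % 3) (Nat.add (3 * (2 * (c / 3 % 3) % 3)) (Nat.add (9 * (2 * (c / 9 % 3) % 3))
    (27 * (2 * (c / 27 % 3) % 3))))

/-- the digits of a code, packed in base `32` -/
def pk (c : ℕ) : ℕ :=
  Nat.add (Nat.mod c 3) (Nat.add (Nat.mul 32 (Nat.mod (Nat.div c 3) 3))
    (Nat.add (Nat.mul 1024 (Nat.mod (Nat.div c 9) 3)) (Nat.mul 32768 (Nat.mod (Nat.div c 27) 3))))

/-- the code of a packed vector -/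
def upk (x : ℕ) : ℕ :=
  Nat.add (Nat.mod (Nat.mod x 32) 3) (Nat.add (Nat.mul 3 (Nat.mod (Nat.mod (Nat.div x 32) 32) 3))
    (Nat.add (Nat.mul 9 (Nat.mod (Nat.mod (Nat.div x 1024) 32) 3))
      (Nat.mul 27 (Nat.mod (Nat.mod (Nat.div x 32768) 32) 3))))

/-- the code of the image of the vector `c` under the linear map with columns `a₀, …, a₃` (packed) -/
def img (a₀ a₁ a₂ a₃ c : ℕ) : ℕ :=
  force (Nat.add (Nat.mul (Nat.mod c 3) a₀) (Nat.add (Nat.mul (Nat.mod (Nat.div c 3) 3) a₁)
    (Nat.add (Nat.mul (Nat.mod (Nat.div c 9) 3) a₂) (Nat.mul (Nat.mod (Nat.div c 27) 3) a₃)))) upk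

/-- the bit number `c` of the mask `m` -/
def bit (m c : ℕ) : Bool := Nat.beq (Nat.mod (Nat.div m (Nat.pow 2 c)) 2) 1

/-- all vectors of the list are mapped into the set `m` -/
def allIn (m a₀ a₁ a₂ a₃ : ℕ) : List ℕ → Bool :=
  List.rec (motive := fun _ => Bool) true (fun c _ ih => (bit m (img a₀ a₁ a₂ a₃ c)) && ih)

/-- one entry of the certificate: `[k, h₀, h₁, h₂, h₃, g₀, g₁, g₂, g₃]`, the linear map `h` maps the list number `k`
into the set `m`, and `g` is its inverse -/
def chkE (m : ℕ) (tg : List (List ℕ)) : List ℕ → Bool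
  | [k, h₀, h₁, h₂, h₃, g₀, g₁, g₂, g₃] =>
    force (pk h₀) fun a₀ => force (pk h₁) fun a₁ => force (pk h₂) fun a₂ => force (pk h₃) fun a₃ =>
      Nat.beq (img a₀ a₁ a₂ a₃ g₀) 1 && (Nat.beq (img a₀ a₁ a₂ a₃ g₁) 3 && (Nat.beq (img a₀ a₁ a₂ a₃ g₂) 9 &&
        (Nat.beq (img a₀ a₁ a₂ a₃ g₃) 27 && (tg[k]?).elim false (allIn m a₀ a₁ a₂ a₃))))
  | _ => false

/-- the forty codes of the points (one of `c` and `-c`) -/
def pts : List ℕ := (List.range 81).filter fun c => Nat.blt c (ngc c)

/-- the mask of a list of codes and their negatives -/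
def msk (R : List ℕ) : ℕ := R.foldr (fun c m => Nat.lor (2 ^ c) (Nat.lor (2 ^ ngc c) m)) 0

/-- check of all extensions of the set with mask `m` by a point of the list `ps` -/
def chkR (m : ℕ) (tg : List (List ℕ)) : List ℕ → List (List ℕ) → Bool :=
  List.rec (motive := fun _ => List (List ℕ) → Bool) (fun _ => true)
    (fun p _ ih es => bif bit m p then ih es else
      List.rec (motive := fun _ => Bool) false
        (fun e es' _ => (force (Nat.lor m (Nat.lor (2 ^ p) (2 ^ ngc p))) fun m' => chkE m' tg e) && ih es') es)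

/-- check of one level: `ce` is the list of pairs (representative, certificate) -/
def chkL (tg : List (List ℕ)) (ce : List (List ℕ × List (List ℕ))) : Bool :=
  ce.all fun x => force (msk x.1) fun m => chkR m tg pts x.2

end Pool.Agent.LibTR43
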