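import Pool.Agent.LibTR43.Defs

/-!
[TR43 G1] The dual of a ternary matroid is ternary. `M` finite, `v : α → W` represents `M` (on `M.E`). `K` = the space of the `c : M.E → ZMod 3` (or finitely supported functions) with `∑ c_e v_e = 0`; the dual is represented by
`e ↦ (c ↦ c_e) ∈ Module.Dual K` (`0` for `e ∉ M.E`). `I ⊆ M.E` is independent in `M✶` iff `M.E \ I` spans `M` (`Matroid.coindep_iff_...`, `Coindep`: `dual_indep_iff_exists`, `coindep_iff_compl_spanning`),
iff for every `e ∈ I`, `v e ∈ span (v '' (M.E \ I))` (closure in `M` is span: `linearIndepOn` and `Indep.mem_closure_iff`), iff for all `e ∈ I` there is `c ∈ K` with `c_e = 1`, `c_f = 0` for `f ∈ I \ {e}`, iff the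
functionals `c_e`, `e ∈ I`, are linearly independent on `K` (a finite family of functionals is linearly independent iff the evaluation map to `ZMod 3 ^ I` is surjective; if a combination `∑ λ_e c_e = 0` on `K`, evaluate at the `c` above;
conversely if the image is a proper subspace of `ZMod 3 ^ I` some nonzero functional vanishes on it: `Submodule.exists_le_ker_of_lt_top` or `exists_dual_forall_apply_eq_zero`).
-/

set_option autoImplicit false

namespace Pool.Agent.LibTR43

open Pool.Agent.H67Tern Set Matroid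

private theorem g1_span {α W : Type*} [AddCommGroup W] [Module (ZMod 3) W] {M : Matroid α} {v : α → W}
    (hv : ∀ I : Set α, I ⊆ M.E → (M.Indep I ↔ LinearIndepOn (ZMod 3) v I)) {X : Set α} (hX : X ⊆ M.E) :
    (∃ B, M.IsBase B ∧ B ⊆ X) ↔ ∀ x ∈ M.E, v x ∈ Submodule.span (ZMod 3) (v '' X) := by
  have key : ∀ B ⊆ M.E, M.Indep B → ∀ x ∈ M.E, x ∉ B →
      (¬ M.Indep (insert x B) ↔ v x ∈ Submodule.span (ZMod 3) (v '' B)) := by
    intro B hB hBi x hx hxB
    rw [hv _ (Set.insert_subset hx hB), linearIndepOn_insert hxB]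
    constructor
    · intro h
      by_contra hn
      exact h ⟨(hv _ hB).1 hBi, hn⟩
    · intro h h'
      exact h'.2 h
  constructor
  · rintro ⟨B, hB, hBX⟩ x hx
    refine Submodule.span_mono (Set.image_mono hBX) ?_
    by_cases hxB : x ∈ B
    · exact Submodule.subset_span ⟨x, hxB, rfl⟩
    · exact (key B hB.subset_ground hB.indep x hx hxB).1 (hB.insert_dep ⟨hx, hxB⟩).not_indep
  · intro h
    obtain ⟨B, hB⟩ := M.exists_isBasis X hX
    have hBE : B ⊆ M.E := hB.subset.trans hX
    have h1 : v '' X ⊆ Submodule.span (ZMod 3) (v '' B) := by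
      rintro _ ⟨x, hx, rfl⟩
      by_cases hxB : x ∈ B
      · exact Submodule.subset_span ⟨x, hxB, rfl⟩
      · exact (key B hBE hB.indep x (hX hx) hxB).1 (hB.insert_dep ⟨hx, hxB⟩).not_indep
    have h2 : Submodule.span (ZMod 3) (v '' X) ≤ Submodule.span (ZMod 3) (v '' B) :=
      Submodule.span_le.2 h1
    refine ⟨B, ?_, hB.subset⟩
    refine hB.indep.isBase_of_forall_insert ?_
    rintro x ⟨hx, hxB⟩
    exact (key B hBE hB.indep x hx hxB).2 (h2 (h x hx))

private theorem g1_quot {n : ℕ} (L : Submodule (ZMod 3) (Fin n → ZMod 3)) (I : Set (Fin n)) :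
    LinearIndepOn (ZMod 3) (fun i : Fin n => L.mkQ (Pi.single i 1)) I ↔
      ∀ c ∈ L, (∀ i ∉ I, c i = 0) → c = 0 := by
  classical
  have hsum : ∀ c : Fin n → ZMod 3, ∀ t : Finset (Fin n), (∀ i ∉ t, c i = 0) →
      ∑ i ∈ t, c i • L.mkQ (Pi.single i 1) = L.mkQ c := by
    intro c t ht
    have h1 : ∑ i ∈ t, c i • L.mkQ (Pi.single i (1 : ZMod 3)) =
        ∑ i, c i • L.mkQ (Pi.single i (1 : ZMod 3)) := by
      refine Finset.sum_subset (Finset.subset_univ t) ?_
      intro i _ hi
      rw [ht i hi, zero_smul]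
    rw [h1]
    simp only [← map_smul, ← map_sum]
    congr 1
    funext i
    simp [Finset.sum_apply, Pi.single_apply]
  refine linearIndepOn_iff'.trans ?_
  constructor
  · intro h c hc hcI
    funext i
    by_cases hi : i ∈ I
    · refine h (Finset.univ.filter (· ∈ I)) c (by simp) ?_ i (by simpa using hi)
      rw [hsum c _ (by simpa using hcI)]
      simpa using hc
    · exact hcI i hi
  · intro h t g ht hs i hi
    let c : Fin n → ZMod 3 := fun i => if i ∈ t then g i else 0
    have hct : ∀ i ∉ t, c i = 0 := fun i hi => if_neg hi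
    have h1 : ∑ i ∈ t, c i • L.mkQ (Pi.single i 1) = ∑ i ∈ t, g i • L.mkQ (Pi.single i 1) := by
      refine Finset.sum_congr rfl fun i hi => ?_
      have : c i = g i := if_pos hi
      rw [this]
    rw [hsum c t hct, hs] at h1
    have h2 : c ∈ L := by simpa using h1
    have h3 := h c h2 (fun i hi => hct i fun hit => hi (ht hit))
    have h4 : c i = 0 := by rw [h3]; rfl
    have h5 : c i = g i := if_pos hi
    rw [← h5, h4]

theorem ternary_dual {α : Type*} {M : Matroid α} [M.Finite] (h : Ternary M) : Ternary M✶ := by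
  classical
  obtain ⟨W, _, _, v, hv⟩ := h
  have : Finite M.E := M.ground_finite.to_subtype
  obtain ⟨n, ⟨e⟩⟩ := Finite.exists_equiv_fin M.E
  let j : Fin n → α := fun i => (e.symm i : α)
  have hj : Function.Injective j := fun a b hab => e.symm.injective (Subtype.val_injective hab)
  have hjE : ∀ i, j i ∈ M.E := fun i => (e.symm i).2
  have hjs : ∀ x (hx : x ∈ M.E), j (e ⟨x, hx⟩) = x := fun x hx => by
    change ((e.symm (e ⟨x, hx⟩) : M.E) : α) = x
    rw [e.symm_apply_apply]
  let Φ : Module.Dual (ZMod 3) W →ₗ[ZMod 3] (Fin n → ZMod 3) :=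
    LinearMap.pi fun i => Module.Dual.eval (ZMod 3) W (v (j i))
  have hΦ : ∀ f i, Φ f i = f (v (j i)) := fun _ _ => rfl
  let L : Submodule (ZMod 3) (Fin n → ZMod 3) := LinearMap.range Φ
  let v' : α → (Fin n → ZMod 3) ⧸ L := fun x =>
    if hx : x ∈ M.E then L.mkQ (Pi.single (e ⟨x, hx⟩) 1) else 0
  have hv' : v' ∘ j = fun i : Fin n => L.mkQ (Pi.single i 1) := by
    funext i
    change (if hx : j i ∈ M.E then L.mkQ (Pi.single (e ⟨j i, hx⟩) 1) else 0) = _
    rw [dif_pos (hjE i)]
    have : e ⟨j i, hjE i⟩ = i := e.apply_symm_apply i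
    rw [this]
  refine ⟨(Fin n → ZMod 3) ⧸ L, inferInstance, inferInstance, v', ?_⟩
  intro I hI
  rw [dual_ground] at hI
  have hII : I = j '' (j ⁻¹' I) := by
    ext x
    constructor
    · intro hx
      exact ⟨e ⟨x, hI hx⟩, by rw [Set.mem_preimage, hjs]; exact hx, hjs _ _⟩
    · rintro ⟨i, hi, rfl⟩
      exact hi
  have h1 : LinearIndepOn (ZMod 3) v' I ↔
      LinearIndepOn (ZMod 3) (fun i : Fin n => L.mkQ (Pi.single i 1)) (j ⁻¹' I) := by
    rw [← hv']
    constructor
    · intro h
      rw [hII] at h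
      exact h.comp_of_image hj.injOn
    · intro h
      rw [hII]
      exact h.image_of_comp
  have h2 : M✶.Indep I ↔ ∀ x ∈ M.E, v x ∈ Submodule.span (ZMod 3) (v '' (M.E \ I)) := by
    rw [← g1_span hv Set.sdiff_subset, dual_indep_iff_exists hI]
    constructor
    · rintro ⟨B, hB, hd⟩
      exact ⟨B, hB, fun x hx => ⟨hB.subset_ground hx, fun hxI => Set.disjoint_left.1 hd hxI hx⟩⟩
    · rintro ⟨B, hB, hd⟩
      exact ⟨B, hB, Set.disjoint_left.2 fun x hx hxB => (hd hxB).2 hx⟩
  rw [h1, g1_quot, h2]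
  constructor
  · rintro h _ ⟨f, rfl⟩ hc
    have h3 : v '' (M.E \ I) ⊆ LinearMap.ker f := by
      rintro _ ⟨x, ⟨hx, hxI⟩, rfl⟩
      have := hc (e ⟨x, hx⟩) (by rw [Set.mem_preimage, hjs]; exact hxI)
      rw [hΦ, hjs] at this
      exact this
    have h4 : Submodule.span (ZMod 3) (v '' (M.E \ I)) ≤ LinearMap.ker f := Submodule.span_le.2 h3
    funext i
    rw [hΦ]
    exact h4 (h _ (hjE i))
  · intro h x hx
    by_contra hn
    obtain ⟨f, hf1, hf2⟩ := Submodule.exists_dual_map_eq_bot_of_notMem hn inferInstance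
    have h3' := LinearMap.le_ker_iff_map.2 hf2
    have h3 : ∀ w ∈ Submodule.span (ZMod 3) (v '' (M.E \ I)), f w = 0 := fun w hw => h3' hw
    have h4 := h (Φ f) ⟨f, rfl⟩ (by
      intro i hi
      rw [hΦ]
      exact h3 _ (Submodule.subset_span ⟨j i, ⟨hjE i, hi⟩, rfl⟩))
    apply hf1
    have h5 : Φ f (e ⟨x, hx⟩) = 0 := by rw [h4]; rfl
    rw [hΦ, hjs] at h5
    exact h5

end Pool.Agent.LibTR43
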