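import Pool.Agent.LibTR43.C2

/-!
[TR43 G2] Duality. `B` is a basis of `M✶` iff `M.E \ B` is a basis of `M` (`Matroid.dual_isBase_iff`). `nb_dual`: `nb M✶ U V = nb M V U` for `U, V ⊆ M.E` (complementation). `negCorr_dual`: with `b = nb ∅ ∅`, `b_e`, `b_f`, `b_ef`, the numbers of bases of `M✶`
containing `e`, `f`, both are `b - b_e`, `b - b_f`, `b - b_e - b_f + b_ef`, and `(b - b_e)(b - b_f) - (b - b_e - b_f + b_ef) b = b_e b_f - b_ef b` (finite sets of bases; compare `nb_split` in `H67Tern/Main.lean`).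
`minor_dual`: `N ≤m M ↔ N✶ ≤m M✶` (`Matroid.IsMinor`, `dual_contract`, `dual_delete`; maybe in Mathlib). `iso_dual`: the same bijection, complements. `self_dual`: `M1`, `M2` are isomorphic to their duals: `M1✶`: the bases of `M1✶` are the complements of the bases of `M1`;
-/

set_option autoImplicit false

namespace Pool.Agent.LibTR43

open Pool.Agent.H67Tern Set Matroid

private theorem base_fin {α : Type*} (M : Matroid α) [M.Finite] (U V : Set α) :
    {B : Set α | M.IsBase B ∧ U ⊆ B ∧ Disjoint V B}.Finite :=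
  (M.ground_finite.finite_subsets).subset fun _ hB => hB.1.subset_ground

private theorem nb_spl {α : Type*} (M : Matroid α) [M.Finite] (U V : Set α) (x : α) :
    nb M U V = nb M (insert x U) V + nb M U (insert x V) := by
  unfold nb
  rw [← Set.ncard_union_eq _ (base_fin M _ _) (base_fin M _ _)]
  · congr 1
    ext B
    simp only [Set.mem_ofPred_eq, Set.mem_union, Set.insert_subset_iff, Set.disjoint_insert_left]
    tauto
  · rw [Set.disjoint_left]
    rintro B ⟨-, h1, -⟩ ⟨-, -, h2⟩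
    rw [Set.disjoint_insert_left] at h2
    exact h2.1 (h1 (Set.mem_insert _ _))

private theorem nb_dl {α : Type*} (M : Matroid α) (U V : Set α) (hU : U ⊆ M.E) (hV : V ⊆ M.E) :
    nb M✶ U V = nb M V U := by
  unfold nb
  refine Set.ncard_congr (fun B _ => M.E \ B) ?_ ?_ ?_
  · rintro B ⟨h1, h2, h3⟩
    rw [dual_isBase_iff'] at h1
    exact ⟨h1.1, fun x hx => ⟨hV hx, fun hB => Set.disjoint_left.1 h3 hx hB⟩,
      Set.disjoint_left.2 fun x hx hB => hB.2 (h2 hx)⟩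
  · rintro B B' ⟨h1, -, -⟩ ⟨h1', -, -⟩ h
    have e1 : B ⊆ M.E := ((dual_isBase_iff').1 h1).2
    have e2 : B' ⊆ M.E := ((dual_isBase_iff').1 h1').2
    have h' : M.E \ B = M.E \ B' := h
    rw [← Set.sdiff_sdiff_cancel_left e1, h', Set.sdiff_sdiff_cancel_left e2]
  · rintro B ⟨h1, h2, h3⟩
    have e1 : B ⊆ M.E := h1.subset_ground
    refine ⟨M.E \ B, ⟨?_, ?_, ?_⟩, Set.sdiff_sdiff_cancel_left e1⟩
    · rw [dual_isBase_iff', Set.sdiff_sdiff_cancel_left e1]
      exact ⟨h1, Set.sdiff_subset⟩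
    · exact fun x hx => ⟨hU hx, fun hB => Set.disjoint_left.1 h3 hx hB⟩
    · exact Set.disjoint_left.2 fun x hx hB => hB.2 (h2 hx)

theorem negCorr_dual {α : Type*} {M : Matroid α} [M.Finite] (h : NegCorr M) : NegCorr M✶ := by
  intro e he f hf hef
  rw [dual_ground] at he hf
  have h0 := h e he f hf hef
  have hef' : ({e, f} : Set α) ⊆ M.E := by
    rintro x (rfl | rfl)
    · exact he
    · exact hf
  have he1 : ({e} : Set α) ⊆ M.E := Set.singleton_subset_iff.2 he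
  have hf1 : ({f} : Set α) ⊆ M.E := Set.singleton_subset_iff.2 hf
  rw [nb_dl M _ _ hef' (Set.empty_subset _), nb_dl M _ _ (Set.empty_subset _) (Set.empty_subset _),
    nb_dl M _ _ he1 (Set.empty_subset _), nb_dl M _ _ hf1 (Set.empty_subset _)]
  have s1 := nb_spl M ∅ ∅ e
  have s2 := nb_spl M ∅ ∅ f
  have s3 := nb_spl M ∅ {f} e
  have s4 := nb_spl M {e} ∅ f
  rw [insert_empty_eq] at s1 s2 s4
  rw [insert_empty_eq] at s3
  have c1 : ({f, e} : Set α) = {e, f} := Set.pair_comm f e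
  rw [show (insert f {e} : Set α) = {e, f} from c1] at s4
  have s3' : nb M ∅ {f} = nb M {e} {f} + nb M ∅ {e, f} := s3
  have k1 : (nb M ∅ ∅ : ℤ) = nb M {e} ∅ + nb M ∅ {e} := by exact_mod_cast s1
  have k2 : (nb M ∅ ∅ : ℤ) = nb M {f} ∅ + nb M ∅ {f} := by exact_mod_cast s2
  have k3 : (nb M ∅ {f} : ℤ) = nb M {e} {f} + nb M ∅ {e, f} := by exact_mod_cast s3'
  have k4 : (nb M {e} ∅ : ℤ) = nb M {e, f} ∅ + nb M {e} {f} := by exact_mod_cast s4
  have h0' : (nb M {e, f} ∅ : ℤ) * nb M ∅ ∅ ≤ nb M {e} ∅ * nb M {f} ∅ := by exact_mod_cast h0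
  have goal : (nb M ∅ {e, f} : ℤ) * nb M ∅ ∅ ≤ nb M ∅ {e} * nb M ∅ {f} := by
    have g1 : (nb M ∅ {e} : ℤ) = nb M ∅ ∅ - nb M {e} ∅ := by linarith
    have g2 : (nb M ∅ {f} : ℤ) = nb M ∅ ∅ - nb M {f} ∅ := by linarith
    have g3 : (nb M ∅ {e, f} : ℤ) = nb M ∅ ∅ - nb M {e} ∅ - nb M {f} ∅ + nb M {e, f} ∅ := by linarith
    rw [g1, g2, g3]
    nlinarith
  exact_mod_cast goal

theorem minor_dual {α : Type*} {M N : Matroid α} (h : N ≤m M) : N✶ ≤m M✶ := by
  obtain ⟨C, D, -, -, hCD, rfl⟩ := h.exists_eq_contract_delete_disjoint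
  refine ⟨D, C, ?_⟩
  rw [dual_contract_delete, contract_delete_comm _ hCD.symm]

theorem balanced_dual {α : Type*} {M : Matroid α} [M.Finite] (h : Balanced M) : Balanced M✶ := by
  intro N hN
  have h1 : N✶ ≤m M := by
    have := minor_dual hN
    rwa [dual_dual] at this
  have : N✶.Finite := ⟨M.ground_finite.subset h1.subset⟩
  have h2 := negCorr_dual (h _ h1)
  rwa [dual_dual] at h2

theorem iso_dual {α β : Type*} {M : Matroid α} {N : Matroid β} (h : Isomorphic M N) : Isomorphic M✶ N✶ := by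
  obtain ⟨φ, hφ⟩ := h
  refine ⟨φ, fun B => ?_⟩
  have e1 : M.E \ (Subtype.val '' B) = Subtype.val '' (Bᶜ : Set M.E) := by
    ext x
    constructor
    · rintro ⟨hx, hxB⟩
      exact ⟨⟨x, hx⟩, fun h => hxB ⟨⟨x, hx⟩, h, rfl⟩, rfl⟩
    · rintro ⟨y, hy, rfl⟩
      refine ⟨y.2, ?_⟩
      rintro ⟨z, hz, hzy⟩
      exact hy (Subtype.val_injective hzy ▸ hz)
  have e2 : N.E \ (Subtype.val '' (φ '' B)) = Subtype.val '' (φ '' (Bᶜ : Set M.E)) := by
    ext x
    constructor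
    · rintro ⟨hx, hxB⟩
      refine ⟨⟨x, hx⟩, ⟨φ.symm ⟨x, hx⟩, fun h => hxB ⟨⟨x, hx⟩, ⟨_, h, φ.apply_symm_apply _⟩, rfl⟩,
        φ.apply_symm_apply _⟩, rfl⟩
    · rintro ⟨y, ⟨w, hw, rfl⟩, rfl⟩
      refine ⟨(φ w).2, ?_⟩
      rintro ⟨z, ⟨u, hu, rfl⟩, hzy⟩
      have := φ.injective (Subtype.val_injective hzy)
      exact hw (this ▸ hu)
  have b1 : (Subtype.val '' B : Set α) ⊆ M.E := by
    rintro _ ⟨y, -, rfl⟩
    exact y.2
  have b2 : (Subtype.val '' (φ '' B) : Set β) ⊆ N.E := by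
    rintro _ ⟨y, -, rfl⟩
    exact y.2
  change M✶.IsBase (Subtype.val '' B) ↔ N✶.IsBase (Subtype.val '' (φ '' B))
  rw [dual_isBase_iff b1, dual_isBase_iff b2, e1, e2]
  exact hφ Bᶜ

end Pool.Agent.LibTR43
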