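import Pool.Agent.LibTR43.C2

/-!
[TR43 G3] `M1` and `M2` are isomorphic to their duals. The bases of `M✶` are the complements of the bases of `M` (`Matroid.dual_isBase_iff`). For `M1 = colMat 4 E01.A` on `Fin 8`: find a permutation `φ` of `{0, …, 7}` which maps the masks of the
bases (`E01.L`, `E01.hL : baseList 4 A = L`) to the complements `255 - s` (search by computer: 40320 permutations), and check it in Lean on the masks (`isBase_iff`, `mem_baseList`, `toSet`, `toSet_ofBits` in `H67Tern/Main.lean`; `decide +kernel` for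
`∀ s < 256, s ∈ L ↔ φ(s) ∉ ...` as a Boolean check). Same for `E02`.
-/

set_option autoImplicit false
set_option maxRecDepth 100000

namespace Pool.Agent.LibTR43

open Pool.Agent.H67Tern Set Matroid

private def g3m (p : List ℕ) (s : ℕ) : ℕ :=
  (List.range 8).foldl (fun t i => t + if s.testBit i then 2 ^ (p.getD i 0) else 0) 0

private theorem g3_compl : ∀ s < 256, ∀ i : Fin 8, (255 - s).testBit i = !s.testBit i := by decide +kernel

private theorem g3_core (M : Matroid (Fin 8)) (hE : M.E = Set.univ) (L : List ℕ)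
    (hL : ∀ s < 256, (M.IsBase (toSet 8 s) ↔ s ∈ L)) (σ : Equiv.Perm (Fin 8)) (p : List ℕ)
    (h1 : ∀ s < 256, g3m p s < 256 ∧ (∀ i : Fin 8, (g3m p s).testBit (σ i) = s.testBit i) ∧
      (255 - s ∈ L ↔ g3m p s ∈ L)) : Isomorphic M✶ M := by
  classical
  have key : ∀ B : Set (Fin 8), M.IsBase Bᶜ ↔ M.IsBase (σ '' B) := by
    intro B
    have hB := toSet_ofBits B
    set s := Nat.ofBits (fun i : Fin 8 => decide (i ∈ B)) with hs
    have hs256 : s < 256 := by
      have := Nat.ofBits_lt_two_pow (fun i : Fin 8 => decide (i ∈ B))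
      rw [← hs] at this
      norm_num at this
      exact this
    obtain ⟨h2, h3, h4⟩ := h1 s hs256
    have e1 : Bᶜ = toSet 8 (255 - s) := by
      rw [← hB]
      ext i
      simp only [toSet, Set.mem_compl_iff, Set.mem_setOf_eq]
      rw [g3_compl s hs256 i]
      cases s.testBit i <;> simp
    have e2 : σ '' B = toSet 8 (g3m p s) := by
      ext j
      simp only [Set.mem_image, toSet, Set.mem_setOf_eq]
      constructor
      · rintro ⟨i, hi, rfl⟩
        rw [h3 i]
        rw [← hB] at hi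
        exact hi
      · intro hj
        refine ⟨σ.symm j, ?_, by simp⟩
        rw [← hB]
        show s.testBit (σ.symm j) = true
        rw [← h3 (σ.symm j)]
        simpa using hj
    rw [e1, e2, hL _ (by omega), hL _ h2, h4]
  let φ : (M✶).E ≃ M.E :=
    (Equiv.setCongr (show (M✶).E = Set.univ from hE)).trans ((Equiv.Set.univ (Fin 8)).trans
      (σ.trans ((Equiv.Set.univ (Fin 8)).symm.trans (Equiv.setCongr hE.symm))))
  have hφ : ∀ x (hx : x ∈ (M✶).E), ((φ ⟨x, hx⟩ : M.E) : Fin 8) = σ x := fun x hx => rfl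
  refine ⟨φ, fun B => ?_⟩
  have h5 : Subtype.val '' (φ '' B) = σ '' (Subtype.val '' B) := by
    ext y
    constructor
    · rintro ⟨_, ⟨x, hx, rfl⟩, rfl⟩
      exact ⟨x, ⟨x, hx, rfl⟩, (hφ x x.2).symm⟩
    · rintro ⟨_, ⟨x, hx, rfl⟩, rfl⟩
      exact ⟨φ x, ⟨x, hx, rfl⟩, hφ x x.2⟩
  rw [h5, ← key, Matroid.dual_isBase_iff (by rw [hE]; exact Set.subset_univ _), hE,
    Set.compl_eq_univ_diff]

private theorem g3_isBase {A : List (List ℕ)} (hA : ∀ w ∈ A, w.length = 4) {L : List ℕ}
    (hL : baseList 4 A = L) (hne : L ≠ []) (s : ℕ) (hs : s < 2 ^ A.length) :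
    (colMat 4 A).IsBase (toSet A.length s) ↔ s ∈ L := by
  rw [isBase_iff hA (by rw [hL]; exact hne), ← hL, mem_baseList hA]
  exact ⟨fun h => ⟨hs, h⟩, fun h => h.2⟩

private def g3s1 : Equiv.Perm (Fin 8) where
  toFun := ![7, 4, 5, 6, 1, 2, 3, 0]
  invFun := ![7, 4, 5, 6, 1, 2, 3, 0]
  left_inv := by decide
  right_inv := by decide

private def g3s2 : Equiv.Perm (Fin 8) where
  toFun := ![7, 3, 2, 4, 6, 5, 1, 0]
  invFun := ![7, 6, 2, 1, 3, 5, 4, 0]
  left_inv := by decide
  right_inv := by decide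

theorem self_dual1 : Isomorphic M1✶ M1 := by
  refine g3_core M1 (colMat_E _ _) E01.L (fun s hs => ?_) g3s1 [7, 4, 5, 6, 1, 2, 3, 0] ?_
  · exact g3_isBase E01.hA E01.hL (by decide) s hs
  · decide +kernel

theorem self_dual2 : Isomorphic M2✶ M2 := by
  refine g3_core M2 (colMat_E _ _) E02.L (fun s hs => ?_) g3s2 [7, 3, 2, 4, 6, 5, 1, 0] ?_
  · exact g3_isBase E02.hA E02.hL (by decide) s hs
  · decide +kernel

end Pool.Agent.LibTR43
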