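import Pool.Agent.LibTR43.F1
import Pool.Agent.LibTR43.G1
import Pool.Agent.LibTR43.G2
import Pool.Agent.LibTR43.G3

/-!
[TR43 H1] The final theorems: rank or corank at most four (cites F1, G1, G2, G3). For `M✶` simple of rank `≤ 4` apply F1 to `M✶` (finite, ternary by G1): `Balanced M ↔ Balanced M✶` (`balanced_dual`, `M✶✶ = M`), `N ≤m M ↔ N✶ ≤m M✶`, and `Isomorphic N M1 ↔ Isomorphic N✶ M1`
(`iso_dual`, `self_dual1`, `iso_trans`). `ExcludedMinor M ↔ ExcludedMinor M✶` in the same way (`InT M ↔ InT M✶` for finite matroids; minors of finite matroids are finite).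
-/

set_option autoImplicit false

namespace Pool.Agent.LibTR43

open Pool.Agent.H67Tern Set Matroid

private theorem H1_bal {α : Type*} {M : Matroid α} [M.Finite] : Balanced M✶ ↔ Balanced M :=
  ⟨fun h => by
    have h2 := balanced_dual h
    rwa [dual_dual] at h2, balanced_dual⟩

private theorem H1_ter {α : Type*} {M : Matroid α} [M.Finite] : Ternary M✶ ↔ Ternary M :=
  ⟨fun h => by
    have h2 := ternary_dual h
    rwa [dual_dual] at h2, ternary_dual⟩

private theorem H1_inT {α : Type*} {M : Matroid α} [M.Finite] : InT M✶ ↔ InT M :=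
  and_congr H1_ter H1_bal

private theorem H1_iso1 {α : Type*} {N : Matroid α} : Isomorphic N✶ M1 ↔ Isomorphic N M1 :=
  ⟨fun h => by
    have h2 := iso_trans (iso_dual h) self_dual1
    rwa [dual_dual] at h2, fun h => iso_trans (iso_dual h) self_dual1⟩

private theorem H1_iso2 {α : Type*} {N : Matroid α} : Isomorphic N✶ M2 ↔ Isomorphic N M2 :=
  ⟨fun h => by
    have h2 := iso_trans (iso_dual h) self_dual2
    rwa [dual_dual] at h2, fun h => iso_trans (iso_dual h) self_dual2⟩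

private theorem H1_fin {α : Type*} {M N : Matroid α} [hM : M.Finite] (h : N ≤m M) : N.Finite :=
  ⟨hM.ground_finite.subset h.subset⟩

private theorem H1_strict {α : Type*} {M N : Matroid α} (h : N <m M) : N✶ <m M✶ := by
  rw [isStrictMinor_iff_isMinor_ne] at h ⊢
  refine ⟨minor_dual h.1, fun h2 => h.2 ?_⟩
  have h3 := congrArg Matroid.dual h2
  rwa [dual_dual, dual_dual] at h3

private theorem H1_exc_aux {α : Type*} {M : Matroid α} [M.Finite] (h : ExcludedMinor M) :
    ExcludedMinor M✶ := by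
  refine ⟨fun h2 => h.1 (H1_inT.mp h2), fun N hN => ?_⟩
  haveI : N.Finite := H1_fin hN.isMinor
  have h3 := H1_strict hN
  rw [dual_dual] at h3
  exact H1_inT.mp (h.2 _ h3)

private theorem H1_exc {α : Type*} {M : Matroid α} [M.Finite] : ExcludedMinor M✶ ↔ ExcludedMinor M :=
  ⟨fun h => by
    have h2 := H1_exc_aux h
    rwa [dual_dual] at h2, H1_exc_aux⟩

theorem main_balanced (hE : EN) {α : Type*} {M : Matroid α} [M.Finite] (ht : Ternary M)
    (h : (Simple M ∧ M.eRank ≤ 4) ∨ (Simple M✶ ∧ M✶.eRank ≤ 4)) :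
    Balanced M ↔ ∀ N, N ≤m M → ¬ Isomorphic N M1 ∧ ¬ Isomorphic N M2 := by
  rcases h with ⟨hs, hr⟩ | ⟨hs, hr⟩
  · exact balanced_iff1 hE ht hs hr
  · rw [← H1_bal, balanced_iff1 hE (H1_ter.mpr ht) hs hr]
    constructor
    · intro h N hN
      have h2 := h N✶ (minor_dual hN)
      exact ⟨fun h3 => h2.1 (H1_iso1.mpr h3), fun h3 => h2.2 (H1_iso2.mpr h3)⟩
    · intro h N hN
      have h1 := minor_dual hN
      rw [dual_dual] at h1
      have h2 := h N✶ h1
      exact ⟨fun h3 => h2.1 (H1_iso1.mpr h3), fun h3 => h2.2 (H1_iso2.mpr h3)⟩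

theorem main_excluded (hE : EN) {α : Type*} {M : Matroid α} [M.Finite] (ht : Ternary M)
    (h : (Simple M ∧ M.eRank ≤ 4) ∨ (Simple M✶ ∧ M✶.eRank ≤ 4)) :
    ExcludedMinor M ↔ Isomorphic M M1 ∨ Isomorphic M M2 := by
  rcases h with ⟨hs, hr⟩ | ⟨hs, hr⟩
  · exact excluded_iff1 hE ht hs hr
  · rw [← H1_exc, excluded_iff1 hE (H1_ter.mpr ht) hs hr, H1_iso1, H1_iso2]

theorem main_card (hE : EN) {α : Type*} {M : Matroid α} [M.Finite] (ht : Ternary M)
    (h : (Simple M ∧ M.eRank ≤ 4) ∨ (Simple M✶ ∧ M✶.eRank ≤ 4)) (hB : Balanced M) : M.E.ncard ≤ 16 := by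
  rcases h with ⟨hs, hr⟩ | ⟨hs, hr⟩
  · exact card_le hE ht hs hr hB
  · have h1 := card_le hE (H1_ter.mpr ht) hs hr (H1_bal.mpr hB)
    rwa [dual_ground] at h1

end Pool.Agent.LibTR43
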