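import Pool.Agent.LibTR43.Enum

set_option autoImplicit false

/-!
# Ternary simple matroids of rank four: the Boolean check of negative correlation
-/

namespace Pool.Agent.LibTR43

open Pool.Agent.H67Tern

/-- the numbers `< 2 ^ n` with exactly `k` binary digits `1`, in increasing order -/
def masks : ℕ → ℕ → List ℕ
  | _, 0 => [0]
  | 0, _ + 1 => []
  | n + 1, k + 1 => masks n (k + 1) ++ (masks n k).map (fun s => s + 2 ^ n)

/-- the masks of the bases of the matroid with columns `A` -/
def bl4 (A : List (List ℕ)) : List ℕ :=
  (masks A.length 4).filter fun s => indepF 4 (sel A s)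

/-- count of the members of `L` with the bit `e` -/
def c1 (L : List ℕ) (e : ℕ) : ℕ := L.countP fun s => bit s e

/-- count of the members of `L` with the bits `e` and `f` -/
def c2 (L : List ℕ) (e f : ℕ) : ℕ := L.countP fun s => bit s e && bit s f

/-- the inequalities of negative correlation; `bs` is the list of the numbers `b_e` -/
def ncL (L bs : List ℕ) : Bool :=
  (List.range bs.length).all fun f => (Nat.beq (c1 L f) (bs.getD f 0)) &&
    (List.range f).all fun e =>
      Nat.ble (Nat.mul (c2 L e f) L.length) (Nat.mul (bs.getD e 0) (bs.getD f 0))

end Pool.Agent.LibTR43
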