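import Pool.Agent.LibTR43.B3

/-!
[TR43] Negative correlation for representatives with `12` points: (codes, masks of the bases, numbers `b_e`).
-/

set_option autoImplicit false
set_option maxRecDepth 100000

namespace Pool.Agent.LibTR43

/-- entry 1 -/
def nd12a_1 : List ℕ × List ℕ × List ℕ :=
  ([1, 3, 4, 5, 9, 10, 11, 12, 13, 14, 15, 27], [2067, 2069, 2070, 2073, 2074, 2076, 2083, 2085, 2086, 2089, 2090,
 2092, 2098, 2100, 2104, 2115, 2117, 2118, 2121, 2122, 2124, 2130, 2132, 2136, 2146, 2148, 2152, 2179, 2181, 2182,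
 2185, 2186, 2188, 2193, 2196, 2200, 2209, 2210, 2212, 2224, 2241, 2242, 2248, 2256, 2272, 2307, 2309, 2310, 2313,
 2314, 2316, 2321, 2322, 2328, 2337, 2340, 2344, 2352, 2369, 2370, 2372, 2384, 2400, 2434, 2436, 2440, 2448, 2464,
 2496, 2563, 2565, 2566, 2569, 2570, 2572, 2577, 2578, 2580, 2593, 2594, 2600, 2608, 2625, 2628, 2632, 2640, 2656,
 2690, 2692, 2696, 2704, 2720, 2752, 2818, 2820, 2824, 2832, 2848, 2880, 3075, 3077, 3078, 3081, 3082, 3084, 3089,
 3092, 3096, 3105, 3106, 3112, 3120, 3137, 3138, 3140, 3152, 3168, 3201, 3204, 3208, 3232, 3264, 3329, 3330, 3332,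
 3344, 3360, 3456, 3585, 3586, 3592, 3600, 3648, 3712, 3840], [36, 37, 37, 37, 37, 37, 37, 37, 37, 37, 36, 135])

theorem ok12a_1a : goodA 12 nd12a_1 = true := by decide +kernel

theorem ok12a_1b : goodB nd12a_1 = true := by decide +kernel

theorem ok12a_1c0 : ([0, 1, 2, 3, 4, 5, 6] : List ℕ).all
    (ncP nd12a_1.2.1 nd12a_1.2.2) = true := by decide +kernel

theorem ok12a_1c1 : ([7, 8, 9] : List ℕ).all
    (ncP nd12a_1.2.1 nd12a_1.2.2) = true := by decide +kernel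

theorem ok12a_1c2 : ([10, 11] : List ℕ).all
    (ncP nd12a_1.2.1 nd12a_1.2.2) = true := by decide +kernel

theorem ok12a_1 : goodChk 12 nd12a_1 = true := by
  refine goodChk_of ok12a_1a ok12a_1b (ncL_chunks [[0, 1, 2, 3, 4, 5, 6], [7, 8, 9],
    [10, 11]] (by decide +kernel) ?_)
  intro c hc
  simp only [List.mem_cons, List.not_mem_nil, or_false] at hc
  rcases hc with rfl | rfl | rfl
  · exact ok12a_1c0
  · exact ok12a_1c1
  · exact ok12a_1c2

/-- entry 2 -/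
def nd12a_2 : List ℕ × List ℕ × List ℕ :=
  ([1, 3, 4, 5, 9, 10, 11, 12, 13, 14, 27, 28], [1043, 1045, 1046, 1049, 1050, 1052, 1059, 1061, 1062, 1065, 1066,
 1068, 1074, 1076, 1080, 1091, 1093, 1094, 1097, 1098, 1100, 1106, 1108, 1112, 1122, 1124, 1128, 1155, 1157, 1158,
 1161, 1162, 1164, 1169, 1172, 1176, 1185, 1186, 1188, 1200, 1217, 1218, 1224, 1232, 1248, 1283, 1285, 1286, 1289,
 1290, 1292, 1297, 1298, 1304, 1313, 1316, 1320, 1328, 1345, 1346, 1348, 1360, 1376, 1410, 1412, 1416, 1424, 1440,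
 1472, 1539, 1541, 1542, 1545, 1546, 1548, 1553, 1554, 1556, 1569, 1570, 1576, 1584, 1601, 1604, 1608, 1616, 1632,
 1666, 1668, 1672, 1680, 1696, 1728, 1794, 1796, 1800, 1808, 1824, 1856, 2067, 2069, 2070, 2073, 2074, 2076, 2083,
 2085, 2086, 2089, 2090, 2092, 2098, 2100, 2104, 2115, 2117, 2118, 2121, 2122, 2124, 2130, 2132, 2136, 2146, 2148,
 2152, 2179, 2181, 2182, 2185, 2186, 2188, 2193, 2196, 2200, 2209, 2210, 2212, 2224, 2241, 2242, 2248, 2256, 2272,
 2307, 2309, 2310, 2313, 2314, 2316, 2321, 2322, 2328, 2337, 2340, 2344, 2352, 2369, 2370, 2372, 2384, 2400, 2434,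
 2436, 2440, 2448, 2464, 2496, 2563, 2565, 2566, 2569, 2570, 2572, 2577, 2578, 2580, 2593, 2594, 2600, 2608, 2625,
 2628, 2632, 2640, 2656, 2690, 2692, 2696, 2704, 2720, 2752, 2818, 2820, 2824, 2832, 2848, 2880, 3090, 3092, 3096,
 3106, 3108, 3112, 3138, 3140, 3144, 3202, 3204, 3208, 3216, 3232, 3264, 3330, 3332, 3336, 3344, 3360, 3392, 3586,
 3588, 3592, 3600, 3616, 3648], [54, 66, 66, 66, 66, 66, 66, 66, 66, 66, 126, 126])

theorem ok12a_2a : goodA 12 nd12a_2 = true := by decide +kernel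

theorem ok12a_2b : goodB nd12a_2 = true := by decide +kernel

theorem ok12a_2c0 : ([0, 1, 2, 3, 4, 5, 6] : List ℕ).all
    (ncP nd12a_2.2.1 nd12a_2.2.2) = true := by decide +kernel

theorem ok12a_2c1 : ([7, 8, 9] : List ℕ).all
    (ncP nd12a_2.2.1 nd12a_2.2.2) = true := by decide +kernel

theorem ok12a_2c2 : ([10, 11] : List ℕ).all
    (ncP nd12a_2.2.1 nd12a_2.2.2) = true := by decide +kernel

theorem ok12a_2 : goodChk 12 nd12a_2 = true := by
  refine goodChk_of ok12a_2a ok12a_2b (ncL_chunks [[0, 1, 2, 3, 4, 5, 6], [7, 8, 9],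
    [10, 11]] (by decide +kernel) ?_)
  intro c hc
  simp only [List.mem_cons, List.not_mem_nil, or_false] at hc
  rcases hc with rfl | rfl | rfl
  · exact ok12a_2c0
  · exact ok12a_2c1
  · exact ok12a_2c2

/-- entry 3 -/
def nd12a_3 : List ℕ × List ℕ × List ℕ :=
  ([1, 3, 4, 5, 9, 10, 12, 13, 15, 16, 27, 28], [1043, 1045, 1046, 1049, 1050, 1052, 1059, 1061, 1062, 1065, 1066,
 1068, 1074, 1076, 1080, 1091, 1093, 1094, 1097, 1098, 1100, 1105, 1108, 1112, 1121, 1122, 1124, 1136, 1155, 1157,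
 1158, 1161, 1162, 1164, 1169, 1170, 1176, 1185, 1188, 1192, 1200, 1218, 1220, 1224, 1232, 1248, 1283, 1285, 1286,
 1289, 1290, 1292, 1297, 1300, 1304, 1313, 1314, 1320, 1328, 1345, 1348, 1352, 1376, 1409, 1410, 1412, 1424, 1440,
 1472, 1539, 1541, 1542, 1545, 1546, 1548, 1553, 1554, 1556, 1569, 1572, 1576, 1584, 1601, 1602, 1608, 1616, 1632,
 1665, 1668, 1672, 1680, 1728, 1794, 1796, 1800, 1808, 1824, 1856, 1920, 2067, 2069, 2070, 2073, 2074, 2076, 2083,
 2085, 2086, 2089, 2090, 2092, 2098, 2100, 2104, 2115, 2117, 2118, 2121, 2122, 2124, 2129, 2132, 2136, 2145, 2146,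
 2148, 2160, 2179, 2181, 2182, 2185, 2186, 2188, 2193, 2194, 2200, 2209, 2212, 2216, 2224, 2242, 2244, 2248, 2256,
 2272, 2307, 2309, 2310, 2313, 2314, 2316, 2321, 2324, 2328, 2337, 2338, 2344, 2352, 2369, 2372, 2376, 2400, 2433,
 2434, 2436, 2448, 2464, 2496, 2563, 2565, 2566, 2569, 2570, 2572, 2577, 2578, 2580, 2593, 2596, 2600, 2608, 2625,
 2626, 2632, 2640, 2656, 2689, 2692, 2696, 2704, 2752, 2818, 2820, 2824, 2832, 2848, 2880, 2944, 3090, 3092, 3096,
 3106, 3108, 3112, 3138, 3140, 3144, 3152, 3168, 3202, 3204, 3208, 3216, 3232, 3330, 3332, 3336, 3344, 3360, 3392,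
 3456, 3586, 3588, 3592, 3600, 3616, 3648, 3712], [60, 60, 66, 66, 67, 67, 67, 67, 67, 67, 129, 129])

theorem ok12a_3a : goodA 12 nd12a_3 = true := by decide +kernel

theorem ok12a_3b : goodB nd12a_3 = true := by decide +kernel

theorem ok12a_3c0 : ([0, 1, 2, 3, 4, 5, 6] : List ℕ).all
    (ncP nd12a_3.2.1 nd12a_3.2.2) = true := by decide +kernel

theorem ok12a_3c1 : ([7, 8, 9] : List ℕ).all
    (ncP nd12a_3.2.1 nd12a_3.2.2) = true := by decide +kernel

theorem ok12a_3c2 : ([10, 11] : List ℕ).all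
    (ncP nd12a_3.2.1 nd12a_3.2.2) = true := by decide +kernel

theorem ok12a_3 : goodChk 12 nd12a_3 = true := by
  refine goodChk_of ok12a_3a ok12a_3b (ncL_chunks [[0, 1, 2, 3, 4, 5, 6], [7, 8, 9],
    [10, 11]] (by decide +kernel) ?_)
  intro c hc
  simp only [List.mem_cons, List.not_mem_nil, or_false] at hc
  rcases hc with rfl | rfl | rfl
  · exact ok12a_3c0
  · exact ok12a_3c1
  · exact ok12a_3c2

end Pool.Agent.LibTR43
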