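import Pool.Agent.LibTR43.B3

/-!
[TR43] Negative correlation for representatives with `12` points: (codes, masks of the bases, numbers `b_e`).
-/

set_option autoImplicit false
set_option maxRecDepth 100000

namespace Pool.Agent.LibTR43

/-- entry 7 -/
def nd12d_7 : List ℕ × List ℕ × List ℕ :=
  ([1, 3, 4, 9, 14, 16, 27, 32, 34, 38, 40, 42], [75, 77, 78, 83, 85, 86, 89, 90, 92, 99, 101, 102, 105, 106, 108,
 113, 114, 116, 139, 141, 142, 147, 149, 150, 153, 154, 156, 163, 165, 166, 169, 170, 172, 177, 178, 180, 201, 202,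
 204, 209, 210, 212, 225, 226, 228, 267, 269, 270, 275, 277, 278, 281, 282, 284, 291, 293, 294, 297, 298, 300, 305,
 306, 308, 329, 330, 332, 337, 338, 340, 353, 354, 356, 393, 394, 396, 401, 402, 404, 417, 418, 420, 523, 525, 526,
 531, 533, 534, 537, 538, 540, 547, 549, 550, 553, 554, 556, 561, 562, 564, 579, 581, 582, 586, 588, 593, 596, 600,
 609, 610, 616, 624, 643, 645, 646, 649, 652, 657, 658, 664, 674, 676, 680, 688, 705, 706, 708, 712, 720, 736, 771,
 773, 774, 777, 778, 786, 788, 792, 801, 804, 808, 816, 833, 834, 836, 840, 848, 864, 897, 898, 900, 904, 912, 928,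
 1035, 1037, 1038, 1043, 1045, 1046, 1049, 1050, 1052, 1059, 1061, 1062, 1065, 1066, 1068, 1073, 1074, 1076, 1091,
 1093, 1094, 1097, 1098, 1106, 1108, 1112, 1121, 1124, 1128, 1136, 1155, 1157, 1158, 1162, 1164, 1169, 1172, 1176,
 1185, 1186, 1192, 1200, 1217, 1218, 1220, 1224, 1232, 1248, 1283, 1285, 1286, 1289, 1292, 1297, 1298, 1304, 1314,
 1316, 1320, 1328, 1345, 1346, 1348, 1352, 1360, 1376, 1409, 1410, 1412, 1416, 1424, 1440, 1545, 1546, 1548, 1553,
 1554, 1556, 1569, 1570, 1572, 1601, 1602, 1604, 1608, 1616, 1632, 1665, 1666, 1668, 1672, 1680, 1696, 1793, 1794,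
 1796, 1800, 1808, 1824, 2059, 2061, 2062, 2067, 2069, 2070, 2073, 2074, 2076, 2083, 2085, 2086, 2089, 2090, 2092,
 2097, 2098, 2100, 2115, 2117, 2118, 2121, 2124, 2129, 2130, 2136, 2146, 2148, 2152, 2160, 2179, 2181, 2182, 2185,
 2186, 2194, 2196, 2200, 2209, 2212, 2216, 2224, 2241, 2242, 2244, 2248, 2256, 2272, 2307, 2309, 2310, 2314, 2316,
 2321, 2324, 2328, 2337, 2338, 2344, 2352, 2369, 2370, 2372, 2376, 2384, 2400, 2433, 2434, 2436, 2440, 2448, 2464,
 2569, 2570, 2572, 2577, 2578, 2580, 2593, 2594, 2596, 2625, 2626, 2628, 2632, 2640, 2656, 2689, 2690, 2692, 2696,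
 2704, 2720, 2817, 2818, 2820, 2824, 2832, 2848, 3081, 3082, 3084, 3089, 3090, 3092, 3105, 3106, 3108, 3137, 3138,
 3140, 3144, 3152, 3168, 3201, 3202, 3204, 3208, 3216, 3232, 3329, 3330, 3332, 3336, 3344, 3360], [126, 126, 126,
 126, 126, 126, 126, 126, 126, 126, 126, 126])

theorem ok12d_7a : goodA 12 nd12d_7 = true := by decide +kernel

theorem ok12d_7b : goodB nd12d_7 = true := by decide +kernel

theorem ok12d_7c0 : ([0, 1, 2, 3, 4, 5, 6] : List ℕ).all
    (ncP nd12d_7.2.1 nd12d_7.2.2) = true := by decide +kernel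

theorem ok12d_7c1 : ([7, 8, 9] : List ℕ).all
    (ncP nd12d_7.2.1 nd12d_7.2.2) = true := by decide +kernel

theorem ok12d_7c2 : ([10, 11] : List ℕ).all
    (ncP nd12d_7.2.1 nd12d_7.2.2) = true := by decide +kernel

theorem ok12d_7 : goodChk 12 nd12d_7 = true := by
  refine goodChk_of ok12d_7a ok12d_7b (ncL_chunks [[0, 1, 2, 3, 4, 5, 6], [7, 8, 9],
    [10, 11]] (by decide +kernel) ?_)
  intro c hc
  simp only [List.mem_cons, List.not_mem_nil, or_false] at hc
  rcases hc with rfl | rfl | rfl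
  · exact ok12d_7c0
  · exact ok12d_7c1
  · exact ok12d_7c2

end Pool.Agent.LibTR43
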