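import Pool.Agent.LibTR43.Nc12d1
import Pool.Agent.LibTR43.Nc12d2
import Pool.Agent.LibTR43.Nc12d3

/-!
[TR43] Negative correlation for representatives with `12` points: (codes, masks of the bases, numbers `b_e`).
-/

set_option autoImplicit false
set_option maxRecDepth 100000

namespace Pool.Agent.LibTR43

/-- the data -/
def nd12d : List (List ℕ × List ℕ × List ℕ) :=
  [nd12d_1, nd12d_2, nd12d_3, nd12d_4, nd12d_5, nd12d_6, nd12d_7]

theorem ok12d : nd12d.all (goodChk 12) = true := by
  simp only [nd12d, List.all_cons, List.all_nil, ok12d_1, ok12d_2, ok12d_3, ok12d_4, ok12d_5, ok12d_6, ok12d_7,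
    Bool.and_self]

end Pool.Agent.LibTR43
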