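import Pool.Agent.LibTR43.B2

/-!
[TR43] Negative correlation for representatives with `5` points: (codes, masks of the bases, numbers `b_e`).
-/

set_option autoImplicit false
set_option maxRecDepth 100000

namespace Pool.Agent.LibTR43

/-- entry 1 -/
def nd5a_1 : List ℕ × List ℕ × List ℕ :=
  ([1, 3, 4, 9, 27], [27, 29, 30], [2, 2, 2, 3, 3])

theorem ok5a_1 : goodChk 5 nd5a_1 = true := by decide +kernel

/-- entry 2 -/
def nd5a_2 : List ℕ × List ℕ × List ℕ :=
  ([1, 3, 9, 13, 27], [23, 27, 29, 30], [3, 3, 3, 3, 4])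

theorem ok5a_2 : goodChk 5 nd5a_2 = true := by decide +kernel

/-- entry 3 -/
def nd5a_3 : List ℕ × List ℕ × List ℕ :=
  ([1, 3, 9, 27, 40], [15, 23, 27, 29, 30], [4, 4, 4, 4, 4])

theorem ok5a_3 : goodChk 5 nd5a_3 = true := by decide +kernel

/-- the data -/
def nd5a : List (List ℕ × List ℕ × List ℕ) :=
  [nd5a_1, nd5a_2, nd5a_3]

theorem ok5a : nd5a.all (goodChk 5) = true := by
  simp only [nd5a, List.all_cons, List.all_nil, ok5a_1, ok5a_2, ok5a_3, Bool.and_self]

end Pool.Agent.LibTR43
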