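import Pool.Agent.LibTR43.B3

/-!
[TR43] Negative correlation for representatives with `8` points: (codes, masks of the bases, numbers `b_e`).
-/

set_option autoImplicit false
set_option maxRecDepth 100000

namespace Pool.Agent.LibTR43

/-- entry 1 -/
def nd8a_1 : List ℕ × List ℕ × List ℕ :=
  ([1, 3, 4, 5, 9, 10, 11, 27], [147, 149, 150, 153, 154, 156, 163, 165, 166, 169, 170, 172, 178, 180, 184, 195,
 197, 198, 201, 202, 204, 210, 212, 216, 226, 228, 232], [9, 12, 12, 12, 12, 12, 12, 27])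

theorem ok8a_1 : goodChk 8 nd8a_1 = true := by decide +kernel

/-- entry 2 -/
def nd8a_2 : List ℕ × List ℕ × List ℕ :=
  ([1, 3, 4, 5, 9, 10, 12, 27], [147, 149, 150, 153, 154, 156, 163, 165, 166, 169, 170, 172, 178, 180, 184, 195,
 197, 198, 201, 202, 204, 209, 212, 216, 225, 226, 228, 240], [11, 11, 12, 11, 13, 13, 13, 28])

theorem ok8a_2 : goodChk 8 nd8a_2 = true := by decide +kernel

/-- entry 3 -/
def nd8a_3 : List ℕ × List ℕ × List ℕ :=
  ([1, 3, 4, 5, 9, 10, 27, 28], [83, 85, 86, 89, 90, 92, 99, 101, 102, 105, 106, 108, 114, 116, 120, 147, 149, 150,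
 153, 154, 156, 163, 165, 166, 169, 170, 172, 178, 180, 184, 210, 212, 216, 226, 228, 232], [12, 16, 16, 16, 21, 21,
 21, 21])

theorem ok8a_3 : goodChk 8 nd8a_3 = true := by decide +kernel

/-- entry 4 -/
def nd8a_4 : List ℕ × List ℕ × List ℕ :=
  ([1, 3, 4, 5, 9, 12, 27, 28], [83, 85, 86, 89, 90, 92, 99, 101, 102, 105, 106, 108, 113, 116, 120, 147, 149, 150,
 153, 154, 156, 163, 165, 166, 169, 170, 172, 177, 180, 184, 210, 212, 216, 226, 228, 232, 240], [14, 14, 16, 16,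
 22, 22, 22, 22])

theorem ok8a_4 : goodChk 8 nd8a_4 = true := by decide +kernel

/-- entry 5 -/
def nd8a_5 : List ℕ × List ℕ × List ℕ :=
  ([1, 3, 4, 9, 12, 15, 27, 28], [75, 77, 78, 83, 85, 86, 89, 92, 99, 101, 102, 105, 108, 113, 116, 139, 141, 142,
 147, 149, 150, 153, 156, 163, 165, 166, 169, 172, 177, 180, 202, 204, 210, 212, 216, 226, 228, 232, 240], [18, 15,
 21, 18, 18, 18, 24, 24])

theorem ok8a_5 : goodChk 8 nd8a_5 = true := by decide +kernel

/-- entry 6 -/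
def nd8a_6 : List ℕ × List ℕ × List ℕ :=
  ([1, 3, 5, 9, 13, 27, 28, 29], [43, 45, 46, 51, 53, 54, 57, 58, 60, 75, 77, 78, 83, 85, 86, 89, 90, 92, 106, 108,
 114, 116, 120, 139, 141, 142, 147, 149, 150, 153, 154, 156, 170, 172, 178, 180, 184, 202, 204, 210, 212, 216], [15,
 21, 21, 27, 27, 19, 19, 19])

theorem ok8a_6 : goodChk 8 nd8a_6 = true := by decide +kernel

/-- entry 7 -/
def nd8a_7 : List ℕ × List ℕ × List ℕ :=
  ([1, 3, 9, 13, 27, 28, 29, 30], [23, 27, 29, 30, 39, 43, 45, 46, 54, 58, 60, 71, 75, 77, 78, 86, 90, 92, 102, 106,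
 108, 135, 139, 141, 142, 149, 153, 156, 165, 166, 169, 170, 172, 180, 184, 197, 198, 201, 202, 212, 216, 228, 232],
 [18, 22, 28, 28, 17, 19, 18, 22])

theorem ok8a_7 : goodChk 8 nd8a_7 = true := by decide +kernel

/-- entry 8 -/
def nd8a_8 : List ℕ × List ℕ × List ℕ :=
  ([1, 3, 9, 12, 15, 27, 28, 29], [39, 43, 45, 51, 53, 57, 71, 75, 77, 83, 85, 89, 102, 106, 108, 114, 116, 120,
 135, 139, 141, 147, 149, 153, 166, 170, 172, 178, 180, 184, 198, 202, 204, 210, 212, 216], [18, 18, 18, 18, 18, 18,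
 18, 18])

theorem ok8a_8 : goodChk 8 nd8a_8 = true := by decide +kernel

/-- entry 9 -/
def nd8a_9 : List ℕ × List ℕ × List ℕ :=
  ([1, 3, 9, 13, 15, 27, 28, 29], [39, 43, 45, 46, 51, 53, 57, 58, 60, 71, 75, 77, 78, 83, 85, 89, 90, 92, 102, 106,
 108, 114, 116, 120, 135, 139, 141, 142, 147, 149, 153, 154, 156, 166, 170, 172, 178, 180, 184, 198, 202, 204, 210,
 212, 216], [18, 24, 24, 27, 24, 21, 21, 21])

theorem ok8a_9 : goodChk 8 nd8a_9 = true := by decide +kernel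

/-- entry 10 -/
def nd8a_10 : List ℕ × List ℕ × List ℕ :=
  ([1, 3, 9, 12, 15, 27, 32, 37], [39, 43, 45, 51, 53, 57, 71, 75, 77, 83, 85, 89, 101, 102, 105, 106, 108, 113,
 114, 116, 120, 135, 139, 141, 147, 149, 153, 163, 166, 169, 170, 172, 177, 178, 180, 184, 195, 197, 198, 201, 202,
 204, 210, 212, 216, 225, 226, 228, 240], [28, 21, 21, 21, 21, 28, 28, 28])

theorem ok8a_10 : goodChk 8 nd8a_10 = true := by decide +kernel

/-- entry 11 -/
def nd8a_11 : List ℕ × List ℕ × List ℕ :=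
  ([1, 3, 4, 9, 10, 12, 13, 27], [139, 141, 142, 147, 149, 150, 154, 156, 163, 165, 166, 169, 172, 177, 178, 180,
 184, 195, 197, 198, 201, 202, 209, 212, 216, 226, 228, 232, 240], [12, 12, 13, 12, 13, 13, 12, 29])

theorem ok8a_11 : goodChk 8 nd8a_11 = true := by decide +kernel

/-- entry 12 -/
def nd8a_12 : List ℕ × List ℕ × List ℕ :=
  ([1, 3, 5, 9, 11, 12, 13, 27], [139, 141, 142, 147, 149, 150, 154, 156, 163, 165, 166, 169, 172, 177, 178, 180,
 184, 195, 197, 198, 201, 202, 204, 209, 210, 216, 226, 228, 232, 240], [12, 13, 13, 13, 13, 13, 13, 30])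

theorem ok8a_12 : goodChk 8 nd8a_12 = true := by decide +kernel

/-- entry 13 -/
def nd8a_13 : List ℕ × List ℕ × List ℕ :=
  ([1, 3, 4, 9, 10, 12, 27, 28], [75, 77, 78, 83, 85, 86, 90, 92, 99, 101, 102, 105, 108, 113, 114, 116, 120, 139,
 141, 142, 147, 149, 150, 154, 156, 163, 165, 166, 169, 172, 177, 178, 180, 184, 202, 204, 210, 212, 226, 228, 232,
 240], [16, 19, 21, 19, 21, 22, 25, 25])

theorem ok8a_13 : goodChk 8 nd8a_13 = true := by decide +kernel

/-- entry 14 -/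
def nd8a_14 : List ℕ × List ℕ × List ℕ :=
  ([1, 3, 4, 9, 13, 15, 27, 28], [75, 77, 78, 83, 85, 86, 89, 90, 99, 101, 102, 105, 108, 113, 114, 116, 120, 139,
 141, 142, 147, 149, 150, 153, 154, 163, 165, 166, 169, 172, 177, 178, 180, 184, 202, 204, 210, 212, 216, 226, 228,
 232, 240], [18, 19, 19, 20, 22, 22, 26, 26])

theorem ok8a_14 : goodChk 8 nd8a_14 = true := by decide +kernel

end Pool.Agent.LibTR43
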